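import Pool.Agent.REG10.FN.Defs

/-!
RFN EOS: elementary type implies a decomposition into local components and components with a
rigid element.
-/

set_option autoImplicit false

namespace Pool.Agent.RFN

open Module CommonSlot Pool.Agent.ETG Pool.Agent.GTW
open scoped BigOperators

namespace EOS_

section
variable {V : Type} [AddCommGroup V] [Module (ZMod 2) V]

theorem triv (Z : V → V → Prop) (h : ∀ a b, Z a b) : OSZ Z :=
  ⟨0, { p := fun j => j.elim0
        idem := fun j => j.elim0
        orth := fun j => j.elim0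
        perp := fun j => j.elim0
        rad := fun _ _ => h _ _
        ind := fun _ _ _ j => j.elim0
        nd := fun j => j.elim0
        ne := fun j => j.elim0 }, fun j => j.elim0⟩

/-- one nondegenerate component -/
theorem one (Z : V → V → Prop) (hZ : LZ Z) (hnd : ∀ v, (∀ w, Z v w) → v = 0)
    (hne : ∃ v : V, v ≠ 0) (hOS : ZLoc Z LinearMap.id ∨ ZFan Z LinearMap.id) : OSZ Z := by
  refine ⟨1, { p := fun _ => LinearMap.id
               idem := fun _ _ => rfl
               orth := fun i j hij => absurd (Subsingleton.elim i j) hij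
               perp := ?_
               rad := ?_
               ind := fun _ _ h _ => h
               nd := fun _ v h => hnd v h
               ne := fun _ => hne }, fun _ => hOS⟩
  · intro _ v w
    show Z v (w + w)
    rw [ZModModule.add_self]
    exact hZ.zero v
  · intro v w
    have h1 : v + ∑ j : Fin 1, (LinearMap.id : V →ₗ[ZMod 2] V) v = 0 := by
      rw [Fin.sum_univ_one, LinearMap.id_apply, ZModModule.add_self]
    rw [h1]
    exact hZ.symm _ _ (hZ.zero w)

end

/-- the quaternions of a structure all vanish -/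
theorem all_zero {S : QS.QStruct} (h : ∀ a b, S.q a b = S.zero) {V : Type} [AddCommGroup V]
    [Module (ZMod 2) V] {Z : V → V → Prop} (hQ : QOf Z S) : OSZ Z := by
  obtain ⟨_, φ, hφ⟩ := hQ
  exact triv Z fun a b => (hφ a b).1 (h _ _)

theorem of_loc (hQLZ : Stmt_QLZ) (S : QS.QStruct) (h : 8 ≤ Nat.card S.G)
    (h1 : ∀ a, (∀ b, S.q a b = S.zero) → a = 1) (h2 : Nat.card S.Q = 2) {V : Type}
    [AddCommGroup V] [Module (ZMod 2) V] (Z : V → V → Prop) (hQ : QOf Z S) : OSZ Z := by
  obtain ⟨hneg, φ, hφ⟩ := hQ
  have hLZ : LZ Z := (hQLZ V Z S φ hneg hφ).1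
  refine one Z hLZ ?_ ?_ (Or.inl ?_)
  · intro v hv
    have h3 : φ (Multiplicative.ofAdd v) = 1 := by
      apply h1
      intro b
      obtain ⟨w, rfl⟩ := φ.surjective b
      exact (hφ v w.toAdd).2 (hv _)
    rw [map_eq_one_iff φ φ.injective] at h3
    exact h3
  · by_contra hcon
    push Not at hcon
    have h3 : ∀ a : S.G, a = 1 := by
      intro a
      obtain ⟨w, rfl⟩ := φ.surjective a
      have h4 : w = 1 := hcon w.toAdd
      rw [h4, map_one]
    have h5 : Nat.card S.G ≤ 1 := by
      haveI : Subsingleton S.G := ⟨fun a b => by rw [h3 a, h3 b]⟩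
      exact Finite.card_le_one_iff_subsingleton.2 inferInstance
    omega
  · intro v w w'
    show Z v w ∨ Z v w' ∨ Z v (w + w')
    by_cases hw : Z v w
    · exact Or.inl hw
    by_cases hw' : Z v w'
    · exact Or.inr (Or.inl hw')
    refine Or.inr (Or.inr ?_)
    have e1 : S.q (φ (Multiplicative.ofAdd v)) (φ (Multiplicative.ofAdd w)) ≠ S.zero :=
      fun h => hw ((hφ _ _).1 h)
    have e2 : S.q (φ (Multiplicative.ofAdd v)) (φ (Multiplicative.ofAdd w')) ≠ S.zero :=
      fun h => hw' ((hφ _ _).1 h)
    have e3 : S.q (φ (Multiplicative.ofAdd v)) (φ (Multiplicative.ofAdd w)) =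
        S.q (φ (Multiplicative.ofAdd v)) (φ (Multiplicative.ofAdd w')) := by
      obtain ⟨x, y, hxy, huniv⟩ := Nat.card_eq_two_iff.1 h2
      have key : ∀ z : S.Q, z = x ∨ z = y := by
        intro z
        have hz : z ∈ ({x, y} : Set S.Q) := by rw [huniv]; trivial
        exact hz
      rcases key S.zero with h0 | h0 <;>
        rcases key (S.q (φ (Multiplicative.ofAdd v)) (φ (Multiplicative.ofAdd w))) with ha | ha <;>
        rcases key (S.q (φ (Multiplicative.ofAdd v)) (φ (Multiplicative.ofAdd w'))) with hb | hb <;>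
        first
        | (exact absurd (ha.trans h0.symm) e1)
        | (exact absurd (hb.trans h0.symm) e2)
        | (exact ha.trans hb.symm)
    rw [← hφ v (w + w'), ofAdd_add, map_mul]
    exact (S.qs3 _ _ _).1 e3

theorem of_ext (hQLZ : Stmt_QLZ) (S : QS.QStruct) {V : Type}
    [AddCommGroup V] [Module (ZMod 2) V] (Z : V → V → Prop) (hQ : QOf Z (QS.ext S)) : OSZ Z := by
  obtain ⟨hneg, φ, hφ⟩ := hQ
  have hLZ : LZ Z := (hQLZ V Z (QS.ext S) φ hneg hφ).1
  have hn : S.neg = 1 := congrArg Prod.fst hneg
  -- the relation in coordinates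
  have hz : ∀ u v : S.G × Multiplicative (ZMod 2),
      (QS.ext S).q u v = (QS.ext S).zero ↔ QS.extMap S u v = (S.zero, 1) := by
    intro u v
    exact Subtype.ext_iff
  by_cases htr : ∀ a : S.G, a = 1
  · refine triv Z fun a b => (hφ a b).1 ?_
    rw [hz]
    have h1 : ∀ u v : S.G × Multiplicative (ZMod 2), QS.extMap S u v = (S.zero, 1) := by
      intro u v
      refine Prod.ext ?_ (htr _)
      show S.q u.1 v.1 = S.zero
      rw [htr v.1]
      exact S.q_one _
    exact h1 _ _
  · push Not at htr
    obtain ⟨a0, ha0⟩ := htr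
    refine one Z hLZ ?_ ?_ (Or.inr ?_)
    · intro v hv
      have h3 : φ (Multiplicative.ofAdd v) = 1 := by
        have hall : ∀ b : (QS.ext S).G,
            (QS.ext S).q (φ (Multiplicative.ofAdd v)) b = (QS.ext S).zero := by
          intro b
          obtain ⟨w, rfl⟩ := φ.surjective b
          exact (hφ v w.toAdd).2 (hv _)
        generalize φ (Multiplicative.ofAdd v) = u at hall
        obtain ⟨a, α⟩ := u
        rcases QS.two_cases α with rfl | rfl
        · have h4 := (hz _ _).1 (hall ((1 : S.G), Multiplicative.ofAdd (1 : ZMod 2)))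
          rw [QS.extMap_one_x] at h4
          have h5 : a = 1 := congrArg Prod.snd h4
          rw [h5]
          rfl
        · have h4 := (hz _ _).1 (hall (a0, (1 : Multiplicative (ZMod 2))))
          rw [QS.extMap_x_one] at h4
          have h5 : a0 = 1 := congrArg Prod.snd h4
          exact absurd h5 ha0
      rw [map_eq_one_iff φ φ.injective] at h3
      exact h3
    · obtain ⟨w, hw⟩ := φ.surjective ((a0, 1) : S.G × Multiplicative (ZMod 2))
      refine ⟨w.toAdd, fun h0 => ?_⟩
      have h1 : w = 1 := h0
      rw [h1, map_one] at hw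
      exact ha0 (congrArg Prod.fst hw).symm
    · obtain ⟨t, ht⟩ := φ.surjective ((1, Multiplicative.ofAdd 1) : S.G × Multiplicative (ZMod 2))
      refine ⟨t.toAdd, rfl, ?_, ?_⟩
      · intro h0
        have h1 : t = 1 := h0
        rw [h1, map_one] at ht
        have h2 : (1 : Multiplicative (ZMod 2)) = Multiplicative.ofAdd 1 := congrArg Prod.snd ht
        exact absurd h2 (by decide)
      · intro v hv
        show v = 0 ∨ v = t.toAdd
        have h1 := (hφ t.toAdd v).2 hv
        rw [ofAdd_toAdd, ht] at h1
        have h2 := (hz _ _).1 h1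
        obtain ⟨⟨b, β⟩, hu⟩ : ∃ u : S.G × Multiplicative (ZMod 2),
            φ (Multiplicative.ofAdd v) = u := ⟨_, rfl⟩
        rw [hu] at h2
        rcases QS.two_cases β with rfl | rfl
        · left
          rw [QS.extMap_x_one] at h2
          have h3 : b = 1 := congrArg Prod.snd h2
          rw [h3] at hu
          have h4 : φ (Multiplicative.ofAdd v) = 1 := hu
          rw [map_eq_one_iff φ φ.injective] at h4
          exact h4
        · right
          rw [QS.extMap_x_x] at h2
          have h3 : S.neg * 1 * b = 1 := congrArg Prod.snd h2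
          rw [hn, one_mul, one_mul] at h3
          rw [h3, ← ht] at hu
          exact φ.injective hu

end EOS_

open EOS_ in
theorem eos_proof (hQLZ : Stmt_QLZ) (hOSP : Stmt_OSP) : Stmt_EOS := by
  intro S hS
  induction hS with
  | L0 S h =>
    intro hneg V _ _ Z hQ
    refine all_zero (S := S) ?_ hQ
    intro a b
    haveI : Subsingleton S.G := (Nat.card_eq_one_iff_unique.1 h).1
    rw [Subsingleton.elim b 1]
    exact S.q_one a
  | L10 S h h1 h2 =>
    intro hneg V _ _ Z hQ
    exact all_zero h2 hQ
  | L11 S h h1 h2 =>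
    intro hneg
    exact absurd hneg h1
  | L1 S h h1 h2 =>
    intro hneg
    exact absurd hneg h1
  | loc S hf h h1 h2 =>
    intro hneg V _ _ Z hQ
    exact of_loc hQLZ S h h1 h2 Z hQ
  | prod S T _ _ ihS ihT =>
    intro hneg V _ _ Z hQ
    have hSn : S.neg = 1 := congrArg Prod.fst hneg
    have hTn : T.neg = 1 := congrArg Prod.snd hneg
    letI : Module (ZMod 2) (Additive S.G) := AddCommGroup.zmodModule (by
      intro x
      rw [two_nsmul]
      exact S.exp_two x.toMul)
    letI : Module (ZMod 2) (Additive T.G) := AddCommGroup.zmodModule (by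
      intro x
      rw [two_nsmul]
      exact T.exp_two x.toMul)
    obtain ⟨_, φ, hφ⟩ := hQ
    have hQS : QOf (fun a b : Additive S.G => S.q a.toMul b.toMul = S.zero) S :=
      ⟨hSn, MulEquiv.refl S.G, fun a b => Iff.rfl⟩
    have hQT : QOf (fun a b : Additive T.G => T.q a.toMul b.toMul = T.zero) T :=
      ⟨hTn, MulEquiv.refl T.G, fun a b => Iff.rfl⟩
    have hLS := (hQLZ _ _ S hQS.2.choose hSn hQS.2.choose_spec).1
    have hLT := (hQLZ _ _ T hQT.2.choose hTn hQT.2.choose_spec).1
    have hp := hOSP.2 (Additive S.G) (Additive T.G) _ _ hLS hLT (ihS hSn _ _ hQS) (ihT hTn _ _ hQT)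
    let e : V ≃+ Additive S.G × Additive T.G :=
      { toFun := fun v => (Additive.ofMul (φ (Multiplicative.ofAdd v)).1,
          Additive.ofMul (φ (Multiplicative.ofAdd v)).2)
        invFun := fun u => (φ.symm ((u.1.toMul, u.2.toMul) : S.G × T.G)).toAdd
        left_inv := by
          intro v
          show (φ.symm (φ (Multiplicative.ofAdd v))).toAdd = v
          rw [MulEquiv.symm_apply_apply]
          rfl
        right_inv := by
          intro u
          have h1 : φ (φ.symm ((u.1.toMul, u.2.toMul) : S.G × T.G)) =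
            ((u.1.toMul, u.2.toMul) : S.G × T.G) := MulEquiv.apply_symm_apply _ _
          refine Prod.ext ?_ ?_
          · exact congrArg Prod.fst h1
          · exact congrArg Prod.snd h1
        map_add' := by
          intro v w
          have h1 : φ (Multiplicative.ofAdd (v + w)) =
            φ (Multiplicative.ofAdd v) * φ (Multiplicative.ofAdd w) := by
            rw [ofAdd_add, map_mul]
          refine Prod.ext ?_ ?_
          · exact congrArg Prod.fst h1
          · exact congrArg Prod.snd h1 }
    refine hOSP.1 V (Additive S.G × Additive T.G) Z _ e ?_ hp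
    intro a b
    rw [← hφ a b]
    exact Prod.ext_iff
  | ext S _ _ =>
    intro hneg V _ _ Z hQ
    exact of_ext hQLZ S Z hQ
  | iso S T hiso _ ih =>
    intro hneg V _ _ Z hQ
    obtain ⟨_, ψ, hψ⟩ := hQ
    obtain ⟨φ, hφn, hφ⟩ := hiso
    have hSn : S.neg = 1 := by
      apply φ.injective
      rw [hφn, hneg, map_one]
    refine ih hSn V Z ⟨hSn, ψ.trans φ.symm, ?_⟩
    intro a b
    rw [← hψ a b]
    have h1 := hφ (φ.symm (ψ (Multiplicative.ofAdd a))) (φ.symm (ψ (Multiplicative.ofAdd b))) 1 1
    rw [S.q_one, map_one, T.q_one, MulEquiv.apply_symm_apply, MulEquiv.apply_symm_apply] at h1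
    exact h1

end Pool.Agent.RFN
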