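import Pool.Agent.REG10.FN.Defs

/-!
RFN OSP: transport and products of decompositions into components.
-/

set_option autoImplicit false

namespace Pool.Agent.RFN

open Module CommonSlot Pool.Agent.ETG Pool.Agent.GTW
open scoped BigOperators

namespace OSP_

section transport
variable {V V' : Type} [AddCommGroup V] [Module (ZMod 2) V] [AddCommGroup V'] [Module (ZMod 2) V']

theorem lin (e : V ≃+ V') : ∃ E : V ≃ₗ[ZMod 2] V', ∀ v, E v = e v := by
  refine ⟨{ e with
    map_smul' := ?_ }, fun v => rfl⟩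
  intro c v
  exact (AddMonoidHom.toZModLinearMap 2 e.toAddMonoidHom).map_smul c v

theorem transp {Z : V → V → Prop} {Z' : V' → V' → Prop} (E : V ≃ₗ[ZMod 2] V')
    (h : ∀ a b, Z a b ↔ Z' (E a) (E b)) (hO : OSZ Z') : OSZ Z := by
  obtain ⟨k, C, hC⟩ := hO
  have hp : ∀ j v, E ((E.symm.toLinearMap ∘ₗ C.p j ∘ₗ E.toLinearMap) v) = C.p j (E v) := by
    intro j v
    simp
  refine ⟨k, { p := fun j => E.symm.toLinearMap ∘ₗ C.p j ∘ₗ E.toLinearMap
               idem := ?_
               orth := ?_
               perp := ?_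
               rad := ?_
               ind := ?_
               nd := ?_
               ne := ?_ }, ?_⟩
  · intro j v
    apply E.injective
    rw [hp, hp, C.idem]
  · intro i j hij v
    apply E.injective
    rw [hp, hp, C.orth i j hij, map_zero]
  · intro j v w
    rw [h, map_add, hp, hp]
    exact C.perp j _ _
  · intro v w
    rw [h, map_add, map_sum]
    simp only [hp]
    exact C.rad _ _
  · intro v w hvw j
    rw [h, hp, hp]
    exact C.ind _ _ ((h _ _).1 hvw) j
  · intro j v hv
    apply E.injective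
    rw [hp, map_zero]
    apply C.nd
    intro w
    have h1 := (h _ _).1 (hv (E.symm w))
    rw [hp, hp, LinearEquiv.apply_symm_apply] at h1
    exact h1
  · intro j
    obtain ⟨v, hv⟩ := C.ne j
    refine ⟨E.symm v, fun h0 => hv ?_⟩
    have h1 := congrArg E h0
    rw [hp, LinearEquiv.apply_symm_apply, map_zero] at h1
    exact h1
  · intro j
    rcases hC j with hl | ⟨t, ht1, ht2, ht3⟩
    · left
      intro v w w'
      show Z _ w ∨ Z _ w' ∨ Z _ (w + w')
      rw [h, h, h, hp, map_add]
      exact hl _ _ _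
    · right
      refine ⟨E.symm t, ?_, ?_, ?_⟩
      · apply E.injective
        show E ((E.symm.toLinearMap ∘ₗ C.p j ∘ₗ E.toLinearMap) (E.symm t)) = _
        rw [hp, LinearEquiv.apply_symm_apply, ht1]
      · intro h0
        apply ht2
        have h1 := congrArg E h0
        rw [LinearEquiv.apply_symm_apply, map_zero] at h1
        exact h1
      · intro v hv
        have h1 := (h _ _).1 hv
        rw [hp, LinearEquiv.apply_symm_apply] at h1
        rcases ht3 _ h1 with h2 | h2
        · left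
          apply E.injective
          show E ((E.symm.toLinearMap ∘ₗ C.p j ∘ₗ E.toLinearMap) v) = _
          rw [hp, h2, map_zero]
        · right
          apply E.injective
          show E ((E.symm.toLinearMap ∘ₗ C.p j ∘ₗ E.toLinearMap) v) = _
          rw [hp, h2, LinearEquiv.apply_symm_apply]

end transport

section prod
variable {U U' : Type} [AddCommGroup U] [Module (ZMod 2) U] [AddCommGroup U'] [Module (ZMod 2) U']

/-- the projections of the product -/
def pp {k k' : ℕ} (p : Fin k → (U →ₗ[ZMod 2] U)) (p' : Fin k' → (U' →ₗ[ZMod 2] U')) :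
    Fin (k + k') → (U × U' →ₗ[ZMod 2] U × U') :=
  Fin.addCases (fun j => LinearMap.prodMap (p j) 0) (fun j => LinearMap.prodMap 0 (p' j))

theorem pp_left {k k' : ℕ} (p : Fin k → (U →ₗ[ZMod 2] U)) (p' : Fin k' → (U' →ₗ[ZMod 2] U'))
    (j : Fin k) (v : U × U') : pp p p' (Fin.castAdd k' j) v = (p j v.1, 0) := by
  unfold pp
  rw [Fin.addCases_left]
  rfl

theorem pp_right {k k' : ℕ} (p : Fin k → (U →ₗ[ZMod 2] U)) (p' : Fin k' → (U' →ₗ[ZMod 2] U'))
    (j : Fin k') (v : U × U') : pp p p' (Fin.natAdd k j) v = (0, p' j v.2) := by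
  unfold pp
  rw [Fin.addCases_right]
  rfl

theorem pp_sum {k k' : ℕ} (p : Fin k → (U →ₗ[ZMod 2] U)) (p' : Fin k' → (U' →ₗ[ZMod 2] U'))
    (v : U × U') : ∑ j, pp p p' j v = (∑ j, p j v.1, ∑ j, p' j v.2) := by
  rw [Fin.sum_univ_add]
  simp only [pp_left, pp_right]
  ext
  · simp [Prod.fst_sum]
  · simp [Prod.snd_sum]

theorem prod {ZU : U → U → Prop} {ZU' : U' → U' → Prop} (hU : LZ ZU) (hU' : LZ ZU')
    (h : OSZ ZU) (h' : OSZ ZU') : OSZ (fun a b : U × U' => ZU a.1 b.1 ∧ ZU' a.2 b.2) := by
  obtain ⟨k, C, hC⟩ := h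
  obtain ⟨k', C', hC'⟩ := h'
  have z1 : ∀ a, ZU 0 a := fun a => hU.symm _ _ (hU.zero a)
  have z2 : ∀ a, ZU' 0 a := fun a => hU'.symm _ _ (hU'.zero a)
  refine ⟨k + k', { p := pp C.p C'.p
                    idem := ?_
                    orth := ?_
                    perp := ?_
                    rad := ?_
                    ind := ?_
                    nd := ?_
                    ne := ?_ }, ?_⟩
  · intro j v
    refine Fin.addCases (fun j => ?_) (fun j => ?_) j
    · rw [pp_left, pp_left, C.idem]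
    · rw [pp_right, pp_right, C'.idem]
  · intro i j
    refine Fin.addCases (fun i => ?_) (fun i => ?_) i
    · refine Fin.addCases (fun j => ?_) (fun j => ?_) j
      · intro hij v
        rw [pp_left, pp_left]
        show (C.p i (C.p j v.1), (0 : U')) = 0
        rw [C.orth i j (fun h0 => hij (by rw [h0]))]
        rfl
      · intro _ v
        rw [pp_left, pp_right]
        show (C.p i 0, (0 : U')) = 0
        rw [map_zero]
        rfl
    · refine Fin.addCases (fun j => ?_) (fun j => ?_) j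
      · intro _ v
        rw [pp_left, pp_right]
        show ((0 : U), C'.p i 0) = 0
        rw [map_zero]
        rfl
      · intro hij v
        rw [pp_right, pp_right]
        show ((0 : U), C'.p i (C'.p j v.2)) = 0
        rw [C'.orth i j (fun h0 => hij (by rw [h0]))]
        rfl
  · intro j v w
    refine Fin.addCases (fun j => ?_) (fun j => ?_) j
    · show ZU (pp C.p C'.p (Fin.castAdd k' j) v).1 (w.1 + (pp C.p C'.p (Fin.castAdd k' j) w).1) ∧
        ZU' (pp C.p C'.p (Fin.castAdd k' j) v).2 (w.2 + (pp C.p C'.p (Fin.castAdd k' j) w).2)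
      rw [pp_left, pp_left]
      exact ⟨C.perp j _ _, z2 _⟩
    · show ZU (pp C.p C'.p (Fin.natAdd k j) v).1 (w.1 + (pp C.p C'.p (Fin.natAdd k j) w).1) ∧
        ZU' (pp C.p C'.p (Fin.natAdd k j) v).2 (w.2 + (pp C.p C'.p (Fin.natAdd k j) w).2)
      rw [pp_right, pp_right]
      exact ⟨z1 _, C'.perp j _ _⟩
  · intro v w
    show ZU (v.1 + (∑ j, pp C.p C'.p j v).1) w.1 ∧ ZU' (v.2 + (∑ j, pp C.p C'.p j v).2) w.2
    rw [pp_sum]
    exact ⟨C.rad _ _, C'.rad _ _⟩
  · intro v w hvw j
    refine Fin.addCases (fun j => ?_) (fun j => ?_) j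
    · show ZU (pp C.p C'.p (Fin.castAdd k' j) v).1 (pp C.p C'.p (Fin.castAdd k' j) w).1 ∧
        ZU' (pp C.p C'.p (Fin.castAdd k' j) v).2 (pp C.p C'.p (Fin.castAdd k' j) w).2
      rw [pp_left, pp_left]
      exact ⟨C.ind _ _ hvw.1 j, z2 _⟩
    · show ZU (pp C.p C'.p (Fin.natAdd k j) v).1 (pp C.p C'.p (Fin.natAdd k j) w).1 ∧
        ZU' (pp C.p C'.p (Fin.natAdd k j) v).2 (pp C.p C'.p (Fin.natAdd k j) w).2
      rw [pp_right, pp_right]
      exact ⟨z1 _, C'.ind _ _ hvw.2 j⟩
  · intro j v
    refine Fin.addCases (fun j => ?_) (fun j => ?_) j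
    · intro hv
      rw [pp_left]
      have h1 : C.p j v.1 = 0 := by
        apply C.nd
        intro w
        have h2 := (hv (w, 0)).1
        rw [pp_left, pp_left] at h2
        exact h2
      rw [h1]
      rfl
    · intro hv
      rw [pp_right]
      have h1 : C'.p j v.2 = 0 := by
        apply C'.nd
        intro w
        have h2 := (hv (0, w)).2
        rw [pp_right, pp_right] at h2
        exact h2
      rw [h1]
      rfl
  · intro j
    refine Fin.addCases (fun j => ?_) (fun j => ?_) j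
    · obtain ⟨v, hv⟩ := C.ne j
      refine ⟨(v, 0), fun h0 => hv ?_⟩
      rw [pp_left] at h0
      exact congrArg Prod.fst h0
    · obtain ⟨v, hv⟩ := C'.ne j
      refine ⟨(0, v), fun h0 => hv ?_⟩
      rw [pp_right] at h0
      exact congrArg Prod.snd h0
  · intro j
    refine Fin.addCases (fun j => ?_) (fun j => ?_) j
    · rcases hC j with hl | ⟨t, ht1, ht2, ht3⟩
      · left
        intro v w w'
        have hv : pp C.p C'.p (Fin.castAdd k' j) v = (C.p j v.1, 0) := pp_left _ _ _ _
        show (ZU (pp C.p C'.p (Fin.castAdd k' j) v).1 w.1 ∧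
          ZU' (pp C.p C'.p (Fin.castAdd k' j) v).2 w.2) ∨
          (ZU (pp C.p C'.p (Fin.castAdd k' j) v).1 w'.1 ∧
          ZU' (pp C.p C'.p (Fin.castAdd k' j) v).2 w'.2) ∨
          (ZU (pp C.p C'.p (Fin.castAdd k' j) v).1 (w.1 + w'.1) ∧
          ZU' (pp C.p C'.p (Fin.castAdd k' j) v).2 (w.2 + w'.2))
        rw [hv]
        rcases hl v.1 w.1 w'.1 with h1 | h1 | h1
        · exact Or.inl ⟨h1, z2 _⟩
        · exact Or.inr (Or.inl ⟨h1, z2 _⟩)
        · exact Or.inr (Or.inr ⟨h1, z2 _⟩)
      · right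
        refine ⟨(t, 0), ?_, ?_, ?_⟩
        · show pp C.p C'.p (Fin.castAdd k' j) (t, 0) = (t, 0)
          rw [pp_left, ht1]
        · intro h0
          exact ht2 (congrArg Prod.fst h0)
        · intro v hv
          have hv1 : pp C.p C'.p (Fin.castAdd k' j) v = (C.p j v.1, 0) := pp_left _ _ _ _
          show pp C.p C'.p (Fin.castAdd k' j) v = 0 ∨ pp C.p C'.p (Fin.castAdd k' j) v = (t, 0)
          have h2 : ZU t (pp C.p C'.p (Fin.castAdd k' j) v).1 := hv.1
          rw [hv1] at h2 ⊢
          rcases ht3 _ h2 with h3 | h3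
          · left
            rw [h3]
            rfl
          · right
            rw [h3]
    · rcases hC' j with hl | ⟨t, ht1, ht2, ht3⟩
      · left
        intro v w w'
        have hv : pp C.p C'.p (Fin.natAdd k j) v = (0, C'.p j v.2) := pp_right _ _ _ _
        show (ZU (pp C.p C'.p (Fin.natAdd k j) v).1 w.1 ∧
          ZU' (pp C.p C'.p (Fin.natAdd k j) v).2 w.2) ∨
          (ZU (pp C.p C'.p (Fin.natAdd k j) v).1 w'.1 ∧
          ZU' (pp C.p C'.p (Fin.natAdd k j) v).2 w'.2) ∨
          (ZU (pp C.p C'.p (Fin.natAdd k j) v).1 (w.1 + w'.1) ∧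
          ZU' (pp C.p C'.p (Fin.natAdd k j) v).2 (w.2 + w'.2))
        rw [hv]
        rcases hl v.2 w.2 w'.2 with h1 | h1 | h1
        · exact Or.inl ⟨z1 _, h1⟩
        · exact Or.inr (Or.inl ⟨z1 _, h1⟩)
        · exact Or.inr (Or.inr ⟨z1 _, h1⟩)
      · right
        refine ⟨(0, t), ?_, ?_, ?_⟩
        · show pp C.p C'.p (Fin.natAdd k j) (0, t) = (0, t)
          rw [pp_right, ht1]
        · intro h0
          exact ht2 (congrArg Prod.snd h0)
        · intro v hv
          have hv1 : pp C.p C'.p (Fin.natAdd k j) v = (0, C'.p j v.2) := pp_right _ _ _ _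
          show pp C.p C'.p (Fin.natAdd k j) v = 0 ∨ pp C.p C'.p (Fin.natAdd k j) v = (0, t)
          have h2 : ZU' t (pp C.p C'.p (Fin.natAdd k j) v).2 := hv.2
          rw [hv1] at h2 ⊢
          rcases ht3 _ h2 with h3 | h3
          · left
            rw [h3]
            rfl
          · right
            rw [h3]

end prod

end OSP_

theorem osp_proof : Stmt_OSP := by
  refine ⟨?_, ?_⟩
  · intro V V' _ _ _ _ Z Z' e h hO
    obtain ⟨E, hE⟩ := OSP_.lin e
    apply OSP_.transp E _ hO
    intro a b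
    rw [hE, hE]
    exact h a b
  · intro U U' _ _ _ _ ZU ZU' h1 h2 h3 h4
    exact OSP_.prod h1 h2 h3 h4

end Pool.Agent.RFN
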