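import Pool.Agent.REG10.FN.Defs
import Pool.Agent.ETG.QIS

/-!
Module QLZ (REG10/FN): the relation of a quaternionic structure with `-1 = 1`.
-/

set_option autoImplicit false

namespace Pool.Agent.RFN

open Module CommonSlot Pool.Agent.ETG Pool.Agent.GTW

theorem qlz_proof : Stmt_QLZ := by
  intro V _ _ Z S φ hneg hZ
  have key : ∀ a b c d, EqQ Z a b c d ↔
      S.q (φ (Multiplicative.ofAdd a)) (φ (Multiplicative.ofAdd b)) =
        S.q (φ (Multiplicative.ofAdd c)) (φ (Multiplicative.ofAdd d)) := by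
    intro a b c d
    rw [QIS_.q_eq_iff]
    constructor
    · rintro ⟨x, h1, h2, h3⟩
      refine ⟨φ (Multiplicative.ofAdd x), ?_, ?_, ?_⟩
      · rw [← map_mul, ← ofAdd_add]; exact (hZ _ _).2 h1
      · rw [← map_mul, ← ofAdd_add]; exact (hZ _ _).2 h2
      · rw [← map_mul, ← ofAdd_add]; exact (hZ _ _).2 h3
    · rintro ⟨y, h1, h2, h3⟩
      obtain ⟨x, rfl⟩ := φ.surjective y
      induction x using Multiplicative.rec with
      | ofAdd x =>
      refine ⟨x, ?_, ?_, ?_⟩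
      · rw [← map_mul, ← ofAdd_add] at h1; exact (hZ _ _).1 h1
      · rw [← map_mul, ← ofAdd_add] at h2; exact (hZ _ _).1 h2
      · rw [← map_mul, ← ofAdd_add] at h3; exact (hZ _ _).1 h3
  refine ⟨⟨?_, ?_, ?_, ?_, ?_⟩, key⟩
  · intro a b h
    rw [← hZ] at h ⊢
    rw [S.qs2]; exact h
  · intro a
    rw [← hZ, ofAdd_zero, map_one, ← S.exp_two (φ (Multiplicative.ofAdd a))]
    exact (S.qs3 _ _ _).1 rfl
  · intro a b c h1 h2
    rw [← hZ] at h1 h2 ⊢
    rw [ofAdd_add, map_mul]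
    exact (S.qs3 _ _ _).1 (h1.trans h2.symm)
  · intro a
    rw [← hZ]
    have h := S.qs1 (φ (Multiplicative.ofAdd a))
    rw [hneg, one_mul] at h
    exact h
  · intro a b c d a' b' h1 h2
    rw [key] at h1 h2 ⊢
    exact h1.trans h2

end Pool.Agent.RFN
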