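import Pool.Agent.REG10.FN.Defs
import Pool.Agent.ETG.QEX
import Pool.Agent.ETC.Witt4

/-!
REG10/FN: the quaternionic data of a linked relation `Z`; basic rules.
-/

set_option autoImplicit false

namespace Pool.Agent.RFN

open Module CommonSlot Pool.Agent.ETG Pool.Agent.GTW
open Pool.Agent.Helper58.PLine (QData)

section
variable {V : Type} [AddCommGroup V] [Module (ZMod 2) V] {Z : V → V → Prop}

theorem dbl (v : V) : v + v = 0 := ZModModule.add_self v

/-- the quaternionic data of a linked relation -/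
def dat (hZ : LZ Z) : QData V (Quotient (QEX_.std Z hZ)) where
  q := fun a b => Quotient.mk (QEX_.std Z hZ) (a, b)
  z := Quotient.mk (QEX_.std Z hZ) (0, 0)
  e := 0
  symm := by
    intro a b
    rw [QEX_.mk_eq]
    exact QEX_.e_swap hZ a b
  add := by
    intro a b c
    rw [QEX_.mk_eq, QEX_.mk_eq, QEX_.e_same_iff hZ, QEX_.e_zero_iff hZ]
  diag := by
    intro a
    rw [QEX_.mk_eq, QEX_.e_zero_iff hZ, add_zero]
    exact hZ.alt a
  link := by
    intro a b c d h
    rw [QEX_.mk_eq] at h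
    obtain ⟨x, h1, h2, -⟩ := h
    refine ⟨x, ?_, ?_⟩
    · rw [QEX_.mk_eq]; exact QEX_.e_same hZ h1
    · rw [QEX_.mk_eq]; exact QEX_.e_same hZ h2

theorem dat_eq (hZ : LZ Z) (a b c d : V) :
    (dat hZ).q a b = (dat hZ).q c d ↔ EqQ Z a b c d := QEX_.mk_eq hZ a b c d

theorem dat_zero (hZ : LZ Z) (a b : V) : (dat hZ).q a b = (dat hZ).z ↔ Z a b := by
  show (Quotient.mk (QEX_.std Z hZ) (a, b) = Quotient.mk (QEX_.std Z hZ) (0, 0)) ↔ _
  rw [QEX_.mk_eq, QEX_.e_zero_iff hZ]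

theorem dat_e (hZ : LZ Z) : (dat hZ).e = 0 := rfl

/-- sums of quaternions with a common slot `x` -/
theorem eq_add_common (hZ : LZ Z) {v w w' x a a' : V} (h : EqQ Z v w x a) (h' : EqQ Z v w' x a') :
    EqQ Z v (w + w') x (a + a') := by
  rw [← dat_eq hZ] at h h' ⊢
  exact ETC.add_common h h'

theorem eqq_of_Z (hZ : LZ Z) {a b : V} (x : V) (h : Z a b) : EqQ Z a b x 0 :=
  ⟨0, by rw [add_zero]; exact h, by rw [add_zero]; exact hZ.zero x, hZ.zero _⟩

theorem inq_of_Z (hZ : LZ Z) {a b : V} (x : V) (h : Z a b) : InQ Z x a b :=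
  ⟨0, eqq_of_Z hZ x h⟩

/-- forms vanishing on zero pairs respect equality of quaternions -/
theorem form_eq {k : ESL.Fm V} (hk : k ∈ RZ Z) {a b c d : V} (h : EqQ Z a b c d) :
    k a b = k c d := by
  obtain ⟨x, h1, h2, h3⟩ := h
  have e1 := hk _ _ h1
  have e2 := hk _ _ h2
  have e3 := hk _ _ h3
  rw [map_add] at e1 e2
  rw [map_add, LinearMap.add_apply] at e3
  have f1 : k a b = k a x := CharTwo.add_eq_zero.1 e1
  have f2 : k c d = k c x := CharTwo.add_eq_zero.1 e2
  have f3 : k a x = k c x := CharTwo.add_eq_zero.1 e3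
  rw [f1, f2, f3]

theorem form_symm (hZ : LZ Z) {k : ESL.Fm V} (hk : k ∈ RZ Z) (a b : V) : k a b = k b a :=
  form_eq hk (QEX_.e_swap hZ a b)

end

end Pool.Agent.RFN
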