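import Pool.Agent.ETG.Stmts
import Pool.Agent.GTW.Defs
import Pool.Agent.ESL.StmtsJ

/-!
REG10/FN: from regular elements to the elementary type conjecture for `-1 = 1`
(problem MP_d26ff6_al): definitions and statements.

`Z v w` is the relation `q (v, w) = 0` on the `F_2`-space `V = G`.
-/

set_option autoImplicit false

namespace Pool.Agent.RFN

open Module CommonSlot Pool.Agent.ETG Pool.Agent.GTW
open scoped BigOperators

section
variable {V W : Type} [AddCommGroup V] [Module (ZMod 2) V] [AddCommGroup W] [Module (ZMod 2) W]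

/-- the space of bilinear forms vanishing on the zero pairs -/
def RZ (Z : V → V → Prop) : ESL.FS V where
  carrier := {k | ∀ a b, Z a b → k a b = 0}
  add_mem' := by
    intro k l hk hl a b h
    rw [LinearMap.add_apply, LinearMap.add_apply, hk a b h, hl a b h, add_zero]
  zero_mem' := fun a b _ => rfl
  smul_mem' := by
    intro c k hk a b h
    rw [LinearMap.smul_apply, LinearMap.smul_apply, hk a b h, smul_zero]

theorem mem_RZ {Z : V → V → Prop} {k : ESL.Fm V} : k ∈ RZ Z ↔ ∀ a b, Z a b → k a b = 0 := Iff.rfl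

/-- the quaternions are separated by bilinear forms -/
def Sep (Z : V → V → Prop) : Prop :=
  ∀ a b c d, (∀ k ∈ RZ Z, k a b = k c d) → EqQ Z a b c d

/-- `x` is regular: every quaternion `q (w, v)` with `q (x, w) = 0` is a value of `q (x, -)` -/
def RegZ (Z : V → V → Prop) (x : V) : Prop := ∀ w v, Z x w → InQ Z x w v

/-- `(W, ZW)` is a quotient of `(V, Z)`: its forms are the forms of `(V, Z)` killing the kernel
of `π` -/
structure QRel (Z : V → V → Prop) (ZW : W → W → Prop) (π : V →ₗ[ZMod 2] W) : Prop where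
  surj : Function.Surjective π
  map : ∀ a b, Z a b → ZW (π a) (π b)
  forms : ∀ k ∈ RZ Z, (∀ u, π u = 0 → k u = 0) → ∀ a b, ZW (π a) (π b) → k a b = 0

/-- a decomposition into local components and components with a rigid element exists -/
def OSZ (Z : V → V → Prop) : Prop := ∃ (k : ℕ) (C : ZDec Z k), C.OS

/-- `x` is regular for the space of forms `R` -/
def RegF (R : ESL.FS V) (x : V) : Prop :=
  ∀ w, (∀ k ∈ R, k x w = 0) → ∀ k ∈ R, k x = 0 → k w = 0

/-- hereditarily regular -/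
def HR (Z : V → V → Prop) : Prop := ∀ U : Submodule (ZMod 2) V,
  ESL.Linked (ESL.fxs (RZ Z) U) → ∃ x, RegF (ESL.fxs (RZ Z) U) x

/-- `g` is partially bilinear on the zero pairs -/
structure PB (Z : V → V → Prop) (g : V → V → ZMod 2) : Prop where
  symm : ∀ a b, Z a b → g a b = g b a
  add : ∀ a b c, Z a b → Z a c → g a (b + c) = g a b + g a c
  alt : ∀ a, g a a = 0

/-- partially bilinear functions on the zero pairs extend to bilinear forms -/
def EXT (Z : V → V → Prop) : Prop :=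
  ∀ g, PB Z g → ∃ κ : ESL.Fm V, ∀ a b, Z a b → κ a b = g a b

end

/-! ### A. Structures and relations -/

/-- the relation of a structure -/
def Stmt_QLZ : Prop := ∀ (V : Type) [AddCommGroup V] [Module (ZMod 2) V] (Z : V → V → Prop)
  (S : QS.QStruct) (φ : Multiplicative V ≃* S.G), S.neg = 1 →
  (∀ a b : V, S.q (φ (Multiplicative.ofAdd a)) (φ (Multiplicative.ofAdd b)) = S.zero ↔ Z a b) →
  LZ Z ∧ ∀ a b c d, EqQ Z a b c d ↔
    S.q (φ (Multiplicative.ofAdd a)) (φ (Multiplicative.ofAdd b)) =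
      S.q (φ (Multiplicative.ofAdd c)) (φ (Multiplicative.ofAdd d))

/-- transport and products of decompositions -/
def Stmt_OSP : Prop :=
  (∀ (V V' : Type) [AddCommGroup V] [Module (ZMod 2) V] [AddCommGroup V'] [Module (ZMod 2) V']
    (Z : V → V → Prop) (Z' : V' → V' → Prop) (e : V ≃+ V'),
    (∀ a b, Z a b ↔ Z' (e a) (e b)) → OSZ Z' → OSZ Z) ∧
  ∀ (U U' : Type) [AddCommGroup U] [Module (ZMod 2) U] [AddCommGroup U'] [Module (ZMod 2) U']
    (ZU : U → U → Prop) (ZU' : U' → U' → Prop), LZ ZU → LZ ZU' → OSZ ZU → OSZ ZU' →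
    OSZ (fun a b : U × U' => ZU a.1 b.1 ∧ ZU' a.2 b.2)

/-- elementary type implies a decomposition -/
def Stmt_EOS : Prop := ∀ S : QS.QStruct, QS.ElemType S → S.neg = 1 → ∀ (V : Type)
  [AddCommGroup V] [Module (ZMod 2) V] (Z : V → V → Prop), QOf Z S → OSZ Z

/-- a decomposition, all proper quotients of elementary type -/
def Stmt_OSE : Prop := ∀ (V : Type) [AddCommGroup V] [Module (ZMod 2) V] [Finite V]
  (Z : V → V → Prop), LZ Z → Sep Z → OSZ Z →
  (∀ (W : Type) [AddCommGroup W] [Module (ZMod 2) W] [Finite W] (ZW : W → W → Prop)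
    (π : V →ₗ[ZMod 2] W), LZ ZW → Sep ZW → QRel Z ZW π → Nat.card W < Nat.card V → ETZ ZW) →
  ETZ Z

/-- a component with rigid element and its residue -/
def Stmt_FRS : Prop := ∀ (V : Type) [AddCommGroup V] [Module (ZMod 2) V] [Finite V]
  (Z : V → V → Prop), LZ Z → Sep Z → ∀ (k : ℕ) (C : ZDec Z k), C.OS → ∀ j, ZFan Z (C.p j) →
  ∃ (U : Type) (_ : AddCommGroup U) (_ : Module (ZMod 2) U) (_ : Finite U) (ZU : U → U → Prop)
    (ρ : LinearMap.range (C.p j) →ₗ[ZMod 2] U) (t : LinearMap.range (C.p j)), LZ ZU ∧ Sep ZU ∧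
    Rig (ZR Z (LinearMap.range (C.p j))) t ∧ Function.Surjective ρ ∧
    (∀ v, ρ v = 0 ↔ v = 0 ∨ v = t) ∧
    (∀ v w, ZU (ρ v) (ρ w) ↔ InQ (ZR Z (LinearMap.range (C.p j))) t v w) ∧
    QRel Z ZU (ρ ∘ₗ (C.p j).rangeRestrict) ∧ Nat.card U < Nat.card V

/-- splitting off the radical -/
def Stmt_RDS : Prop := ∀ (V : Type) [AddCommGroup V] [Module (ZMod 2) V] [Finite V]
  (Z : V → V → Prop), LZ Z → ∃ (W : Submodule (ZMod 2) V) (π : V →ₗ[ZMod 2] W),
  (∀ w : W, π w = w) ∧ LZ (ZR Z W) ∧ ND (ZR Z W) ∧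
  (∀ a b, Z a b ↔ ZR Z W (π a) (π b)) ∧ QRel Z (ZR Z W) π ∧ (ETZ (ZR Z W) → ETZ Z) ∧
  (Sep Z → Sep (ZR Z W)) ∧ (∀ x, RegZ Z x → RegZ (ZR Z W) (π x)) ∧
  (ND Z ∨ Nat.card W < Nat.card V)

/-- a common slot -/
def Stmt_SLT : Prop := ∀ (V B : Type) [AddCommGroup V] [Module (ZMod 2) V] [Finite V]
  [AddCommGroup B] [Module (ZMod 2) B] (q : V →ₗ[ZMod 2] V →ₗ[ZMod 2] B), IsLinked q 0 → ∀ b,
  (∀ v w, ∃ z, q b z = q v w) → ETZ (fun v w => q v w = 0)

/-- the relation of a linked map -/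
def Stmt_LKZ : Prop := ∀ (V B : Type) [AddCommGroup V] [Module (ZMod 2) V]
  [AddCommGroup B] [Module (ZMod 2) B] (q : V →ₗ[ZMod 2] V →ₗ[ZMod 2] B), IsLinked q 0 →
  LZ (fun v w => q v w = 0) ∧ (∀ a b c d, EqQ (fun v w => q v w = 0) a b c d ↔ q a b = q c d) ∧
  ∀ t v w, InQ (fun v w => q v w = 0) t v w ↔ ∃ z, q t z = q v w

/-- a separated linked relation comes from a linked bilinear map with values in a finite group -/
def Stmt_LZQ : Prop := ∀ (V : Type) [AddCommGroup V] [Module (ZMod 2) V] [Finite V]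
  (Z : V → V → Prop), LZ Z → Sep Z → ∃ (B : Type) (_ : AddCommGroup B) (_ : Module (ZMod 2) B)
  (_ : Finite B) (q : V →ₗ[ZMod 2] V →ₗ[ZMod 2] B), IsLinked q 0 ∧ (∀ v w, Z v w ↔ q v w = 0) ∧
  ∀ k ∈ RZ Z, ∃ μ : B →ₗ[ZMod 2] ZMod 2, ∀ a b, k a b = μ (q a b)

/-- regular elements of the space of forms and of the relation -/
def Stmt_RFZ : Prop := ∀ (V : Type) [AddCommGroup V] [Module (ZMod 2) V] [Finite V]
  (Z : V → V → Prop), LZ Z → Sep Z → ESL.Linked (RZ Z) ∧ ∀ x, RegF (RZ Z) x ↔ RegZ Z x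

/-! ### B. The core -/

/-- output of the squad REG10: regular elements -/
def Stmt_REGX : Prop := ∀ (V B : Type) [AddCommGroup V] [Module (ZMod 2) V] [Finite V]
  [AddCommGroup B] [Module (ZMod 2) B] [Finite B] (q : V →ₗ[ZMod 2] V →ₗ[ZMod 2] B),
  IsLinked q 0 → Nd q → ∀ x, Rg q x → HasOS q ∨ (∃ b, ∀ v w, ∃ z, q b z = q v w) ∨
  ∃ s c, s ≠ 0 ∧ c ≠ 0 ∧ ∀ v, q s v = 0 ∨ q s v = c

/-- output of the squad RK: rank one elements -/
def Stmt_RK1 : Prop := ∀ (V B : Type) [AddCommGroup V] [Module (ZMod 2) V] [Finite V]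
  [AddCommGroup B] [Module (ZMod 2) B] [Finite B] (q : V →ₗ[ZMod 2] V →ₗ[ZMod 2] B),
  IsLinked q 0 → Nd q → ∀ s c, s ≠ 0 → c ≠ 0 → (∀ v, q s v = 0 ∨ q s v = c) →
  HasOS q ∨ ∃ (W B' : Type) (_ : AddCommGroup W) (_ : Module (ZMod 2) W) (_ : Finite W)
    (_ : AddCommGroup B') (_ : Module (ZMod 2) B') (_ : Finite B')
    (q' : W →ₗ[ZMod 2] W →ₗ[ZMod 2] B') (π : V →ₗ[ZMod 2] W), IsLinked q' 0 ∧ Nd q' ∧
    Function.Surjective π ∧ (∀ v, π v = 0 ↔ v = 0 ∨ v = s) ∧
    (∀ v w, q' (π v) (π w) = 0 ↔ q v w = 0 ∨ q v w = c) ∧ (HasOS q' → HasOS q)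

/-- the core: a regular element, all proper quotients of elementary type -/
def Stmt_COR : Prop := ∀ (V B : Type) [AddCommGroup V] [Module (ZMod 2) V] [Finite V]
  [AddCommGroup B] [Module (ZMod 2) B] [Finite B] (q : V →ₗ[ZMod 2] V →ₗ[ZMod 2] B),
  IsLinked q 0 → Nd q → ∀ x, Rg q x →
  (∀ (W : Type) [AddCommGroup W] [Module (ZMod 2) W] [Finite W] (ZW : W → W → Prop)
    (π : V →ₗ[ZMod 2] W), LZ ZW → Sep ZW → QRel (fun v w => q v w = 0) ZW π →
    Nat.card W < Nat.card V → ETZ ZW) → ETZ (fun v w => q v w = 0)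

/-! ### C. Set-valued structures -/

/-- the Pfister quotient by a regular element -/
def Stmt_PFQ : Prop := ∀ (V : Type) [AddCommGroup V] [Module (ZMod 2) V] [Finite V]
  (Z : V → V → Prop), LZ Z → ∀ x, RegZ Z x → LZ (InQ Z x) ∧ ∀ u v, Z x u → InQ Z x u v

/-- partially bilinear functions: local type (the relation `ω = 0` of an alternating form) -/
def Stmt_EXL : Prop := ∀ (V : Type) [AddCommGroup V] [Module (ZMod 2) V] (ω : ESL.Fm V),
  (∀ a, ω a a = 0) → EXT (fun a b => ω a b = 0)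

/-- partially bilinear functions: products -/
def Stmt_EXP : Prop := ∀ (U U' : Type) [AddCommGroup U] [Module (ZMod 2) U] [AddCommGroup U']
  [Module (ZMod 2) U'] (ZU : U → U → Prop) (ZU' : U' → U' → Prop), LZ ZU → LZ ZU' →
  EXT ZU → EXT ZU' → EXT (fun a b : U × U' => ZU a.1 b.1 ∧ ZU' a.2 b.2)

/-- partially bilinear functions: group extensions -/
def Stmt_EXE : Prop := ∀ (U : Type) [AddCommGroup U] [Module (ZMod 2) U]
  (ZU : U → U → Prop), LZ ZU → EXT ZU →
  EXT (fun a b : U × ZMod 2 => ZU a.1 b.1 ∧ b.2 • a.1 + a.2 • b.1 = 0)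

/-- structures of elementary type: partially bilinear functions extend -/
def Stmt_EXB : Prop := ∀ S : QS.QStruct, QS.ElemType S → S.neg = 1 → ∀ (V : Type)
  [AddCommGroup V] [Module (ZMod 2) V] (Z : V → V → Prop), QOf Z S → EXT Z

/-- structures of elementary type are separated and strongly linked -/
def Stmt_SLZ : Prop := ∀ (V : Type) [AddCommGroup V] [Module (ZMod 2) V] [Finite V]
  (Z : V → V → Prop), LZ Z → ETZ Z → Sep Z ∧ ESL.SL (RZ Z)

/-- separation from a regular element -/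
def Stmt_SEP : Prop := ∀ (V : Type) [AddCommGroup V] [Module (ZMod 2) V] [Finite V]
  (Z : V → V → Prop), LZ Z → ∀ x, RegZ Z x → ETZ (InQ Z x) → Sep Z

/-- minimal counterexamples have no regular element -/
def Stmt_MIN : Prop := ∀ (V : Type) [AddCommGroup V] [Module (ZMod 2) V] [Finite V]
  (Z : V → V → Prop), LZ Z → ∀ x, RegZ Z x →
  (∀ (W : Type) [AddCommGroup W] [Module (ZMod 2) W] [Finite W] (ZW : W → W → Prop),
    LZ ZW → Nat.card W < Nat.card V → ETZ ZW) → ETZ Z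

/-! ### D. Class version -/

/-- strong linkage is hereditary -/
def Stmt_SLH : Prop := ∀ (V : Type) [AddCommGroup V] [Module (ZMod 2) V] (R : ESL.FS V)
  (U : Submodule (ZMod 2) V), ESL.SL R → ESL.SL (ESL.fxs R U)

/-- form spaces of elementary type have regular elements -/
def Stmt_REF : Prop := ∀ (V : Type) [AddCommGroup V] [Module (ZMod 2) V] [Finite V]
  (R : ESL.FS V), ESL.ET R → ∃ x, RegF R x

/-- the property passes to quotients -/
def Stmt_HRQ : Prop := ∀ (V W : Type) [AddCommGroup V] [Module (ZMod 2) V] [Finite V]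
  [AddCommGroup W] [Module (ZMod 2) W] [Finite W] (Z : V → V → Prop) (ZW : W → W → Prop)
  (π : V →ₗ[ZMod 2] W), QRel Z ZW π → HR Z → HR ZW

/-- separated, hereditarily regular -/
def Stmt_HRC : Prop := ∀ (V : Type) [AddCommGroup V] [Module (ZMod 2) V] [Finite V]
  (Z : V → V → Prop), LZ Z → Sep Z → HR Z → ETZ Z

/-- the converse -/
def Stmt_FWD : Prop := ∀ (V : Type) [AddCommGroup V] [Module (ZMod 2) V] [Finite V]
  (Z : V → V → Prop), LZ Z → ETZ Z → Sep Z ∧ HR Z ∧ ∃ x, RegZ Z x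

end Pool.Agent.RFN
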