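import Pool.Agent.REG10.FN.Defs

/-!
REG10/FN, module LKZ: the relation `q v w = 0` of a linked bilinear map.
-/

set_option autoImplicit false

namespace Pool.Agent.RFN

open Module CommonSlot Pool.Agent.ETG Pool.Agent.GTW

namespace LKZ_

variable {V B : Type} [AddCommGroup V] [Module (ZMod 2) V] [AddCommGroup B] [Module (ZMod 2) B]

theorem eqQ_iff {q : V →ₗ[ZMod 2] V →ₗ[ZMod 2] B} (hq : IsLinked q 0) (a b c d : V) :
    EqQ (fun v w => q v w = 0) a b c d ↔ q a b = q c d := by
  constructor
  · rintro ⟨x, h1, h2, h3⟩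
    have e1 : q a b = q a x := by
      have : q a b + q a x = 0 := by rw [← map_add]; exact h1
      exact eq_of_add_eq_zero' this
    have e2 : q c d = q c x := by
      have : q c d + q c x = 0 := by rw [← map_add]; exact h2
      exact eq_of_add_eq_zero' this
    have e3 : q a x = q c x := by
      have : q a x + q c x = 0 := by rw [← LinearMap.add_apply, ← map_add]; exact h3
      exact eq_of_add_eq_zero' this
    rw [e1, e2, e3]
  · intro h
    obtain ⟨x, h1, h2⟩ := hq.link a b c d h
    refine ⟨x, ?_, ?_, ?_⟩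
    · show q a (b + x) = 0
      rw [map_add, h1, ZModModule.add_self]
    · show q c (d + x) = 0
      rw [map_add, h2, h, ZModModule.add_self]
    · show q (a + c) x = 0
      rw [map_add, LinearMap.add_apply, h1, h2, ZModModule.add_self]

end LKZ_

theorem lkz_proof : Stmt_LKZ := by
  intro V B _ _ _ _ q hq
  refine ⟨⟨?_, ?_, ?_, ?_, ?_⟩, LKZ_.eqQ_iff hq, ?_⟩
  · intro a b h
    show q b a = 0
    rw [← hq.symm a b]
    exact h
  · intro a
    show q a 0 = 0
    rw [map_zero]
  · intro a b c h1 h2
    have h1' : q a b = 0 := h1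
    have h2' : q a c = 0 := h2
    show q a (b + c) = 0
    rw [map_add, h1', h2', add_zero]
  · intro a
    show q a a = 0
    rw [hq.diag a, map_zero]
  · intro a b c d a' b' h1 h2
    rw [LKZ_.eqQ_iff hq] at h1 h2 ⊢
    rw [h1, h2]
  · intro t v w
    constructor
    · rintro ⟨a, h⟩
      rw [LKZ_.eqQ_iff hq] at h
      exact ⟨a, h.symm⟩
    · rintro ⟨z, h⟩
      refine ⟨z, ?_⟩
      rw [LKZ_.eqQ_iff hq]
      exact h.symm

end Pool.Agent.RFN
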