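import Pool.Agent.REG10.FN.Basic

/-!
RFN LZQ: a separated linked relation comes from a linked bilinear map with values in a finite
group.
-/

set_option autoImplicit false

namespace Pool.Agent.RFN

open Module CommonSlot Pool.Agent.ETG Pool.Agent.GTW
open scoped BigOperators

namespace LZQ_

section
variable {V : Type} [AddCommGroup V] [Module (ZMod 2) V]

/-- the universal bilinear map -/
def qq (Z : V → V → Prop) : V →ₗ[ZMod 2] V →ₗ[ZMod 2] Module.Dual (ZMod 2) (RZ Z) :=
  LinearMap.mk₂ (ZMod 2)
    (fun v w =>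
      { toFun := fun k => (k : ESL.Fm V) v w
        map_add' := fun k l => rfl
        map_smul' := fun c k => rfl })
    (by
      intro v v' w
      refine LinearMap.ext fun k => ?_
      show (k : ESL.Fm V) (v + v') w = (k : ESL.Fm V) v w + (k : ESL.Fm V) v' w
      rw [map_add, LinearMap.add_apply])
    (by
      intro c v w
      refine LinearMap.ext fun k => ?_
      show (k : ESL.Fm V) (c • v) w = c • (k : ESL.Fm V) v w
      rw [map_smul, LinearMap.smul_apply])
    (by
      intro v w w'
      refine LinearMap.ext fun k => ?_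
      show (k : ESL.Fm V) v (w + w') = (k : ESL.Fm V) v w + (k : ESL.Fm V) v w'
      rw [map_add])
    (by
      intro c v w
      refine LinearMap.ext fun k => ?_
      show (k : ESL.Fm V) v (c • w) = c • (k : ESL.Fm V) v w
      rw [map_smul])

theorem qq_apply (Z : V → V → Prop) (v w : V) (k : RZ Z) : qq Z v w k = (k : ESL.Fm V) v w := rfl

theorem qq_eq {Z : V → V → Prop} (hS : Sep Z) {a b c d : V} (h : qq Z a b = qq Z c d) :
    EqQ Z a b c d := by
  refine hS a b c d fun k hk => ?_
  have h1 := congrArg (fun f : Module.Dual (ZMod 2) (RZ Z) => f ⟨k, hk⟩) h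
  exact h1

theorem eq_qq {Z : V → V → Prop} {a b c d : V} (h : EqQ Z a b c d) :
    qq Z a b = qq Z c d :=
  LinearMap.ext fun k => form_eq k.2 h

end

end LZQ_

open LZQ_ in
theorem lzq_proof : Stmt_LZQ := by
  intro V _ _ _ Z hZ hS
  haveI : Finite (ESL.Fm V) := by
    unfold ESL.Fm
    infer_instance
  haveI : Finite (RZ Z) := inferInstance
  haveI : Finite (Module.Dual (ZMod 2) (RZ Z)) := inferInstance
  refine ⟨Module.Dual (ZMod 2) (RZ Z), inferInstance, inferInstance, inferInstance, qq Z, ?_,
    ?_, ?_⟩
  · refine ⟨?_, ?_, ?_⟩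
    · intro a b
      exact eq_qq (QEX_.e_swap hZ a b)
    · intro a
      refine LinearMap.ext fun k => ?_
      rw [map_zero, qq_apply]
      exact k.2 a a (hZ.alt a)
    · intro a b c d h
      obtain ⟨x, h1, h2, h3⟩ := qq_eq hS h
      refine ⟨x, ?_, ?_⟩
      · exact (eq_qq (QEX_.e_same hZ h1)).symm
      · rw [h]
        exact (eq_qq (QEX_.e_same hZ h2)).symm
  · intro v w
    constructor
    · intro h
      refine LinearMap.ext fun k => ?_
      exact k.2 v w h
    · intro h
      rw [← QEX_.e_zero_iff hZ]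
      apply qq_eq hS
      rw [h, map_zero]
  · intro k hk
    exact ⟨Module.Dual.eval (ZMod 2) (RZ Z) ⟨k, hk⟩, fun a b => rfl⟩

end Pool.Agent.RFN
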