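import Pool.Agent.REG10.FN.EXL
import Pool.Agent.ETG.QEX
import Pool.Agent.ESL.J1
import Pool.Agent.ESL.J3
import Pool.Agent.ESL.J3E
import Pool.Agent.ESL.J3I
import Pool.Agent.ESL.J3L
import Pool.Agent.ESL.J3P

/-!
REG10/FN, module SLZ: relations of elementary type are separated and strongly linked.
-/

set_option autoImplicit false

namespace Pool.Agent.RFN

open Module Pool.Agent.ETG

namespace SLZ_

section
variable {V : Type} [AddCommGroup V] [Module (ZMod 2) V] {Z : V → V → Prop}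

/-- the extension property for relations -/
theorem ez (S : QS.QStruct) (hE : ESL.ExtProp S) (φ : Multiplicative V ≃* S.G)
    (hZ : ∀ a b : V, S.q (φ (Multiplicative.ofAdd a)) (φ (Multiplicative.ofAdd b)) = S.zero ↔
      Z a b) (U : Submodule (ZMod 2) V) (b : U →ₗ[ZMod 2] ESL.D V)
    (hb : ∀ (u : U) (v : V), Z u v → b u v = 0) : ∃ k ∈ RZ Z, ∀ u : U, k u = b u := by
  classical
  let ψ : S.G → V := fun g => Multiplicative.toAdd (φ.symm g)
  have ψmul : ∀ g h, ψ (g * h) = ψ g + ψ h := by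
    intro g h
    show Multiplicative.toAdd (φ.symm (g * h)) = _
    rw [map_mul]
    rfl
  have ψone : ψ 1 = 0 := by
    show Multiplicative.toAdd (φ.symm 1) = _
    rw [map_one]
    rfl
  have ψinv : ∀ g, ψ g⁻¹ = - ψ g := by
    intro g
    show Multiplicative.toAdd (φ.symm g⁻¹) = _
    rw [map_inv]
    rfl
  have φψ : ∀ g, φ (Multiplicative.ofAdd (ψ g)) = g := fun g => φ.apply_symm_apply g
  have ψφ : ∀ v, ψ (φ (Multiplicative.ofAdd v)) = v := by
    intro v
    show Multiplicative.toAdd (φ.symm (φ (Multiplicative.ofAdd v))) = v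
    rw [φ.symm_apply_apply]
    rfl
  let U' : Subgroup S.G :=
    { carrier := {g | ψ g ∈ U}
      mul_mem' := by
        intro x y hx hy
        show ψ (x * y) ∈ U
        rw [ψmul]
        exact U.add_mem hx hy
      one_mem' := by
        show ψ 1 ∈ U
        rw [ψone]
        exact U.zero_mem
      inv_mem' := by
        intro x hx
        show ψ x⁻¹ ∈ U
        rw [ψinv]
        exact U.neg_mem hx }
  have hU' : ∀ g, g ∈ U' ↔ ψ g ∈ U := fun g => Iff.rfl
  let β : S.G → S.G → ZMod 2 := fun g h => if hg : ψ g ∈ U then b ⟨ψ g, hg⟩ (ψ h) else 0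
  have hβ : ∀ g (hg : ψ g ∈ U) h, β g h = b ⟨ψ g, hg⟩ (ψ h) := by
    intro g hg h
    exact dif_pos hg
  have b1 : ∀ u ∈ U', ∀ u' ∈ U', ∀ v, β (u * u') v = β u v + β u' v := by
    intro u hu u' hu' v
    rw [hβ _ hu, hβ _ hu', hβ _ (U'.mul_mem hu hu')]
    have : (⟨ψ (u * u'), U'.mul_mem hu hu'⟩ : U) = ⟨ψ u, hu⟩ + ⟨ψ u', hu'⟩ :=
      Subtype.ext (ψmul u u')
    rw [this, map_add]
    rfl
  have b2 : ∀ u ∈ U', ∀ v v', β u (v * v') = β u v + β u v' := by
    intro u hu v v'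
    rw [hβ _ hu, hβ _ hu, hβ _ hu, ψmul, map_add]
  have b3 : ∀ u ∈ U', ∀ v, S.q u v = S.zero → β u v = 0 := by
    intro u hu v h
    rw [hβ _ hu]
    apply hb
    rw [← hZ, φψ, φψ]
    exact h
  obtain ⟨γ, g1, g2, g3, g4⟩ := hE U' β b1 b2 b3
  refine ⟨EXL_.mkF (fun a c => γ (φ (Multiplicative.ofAdd a)) (φ (Multiplicative.ofAdd c)))
    ?_ ?_, ?_, ?_⟩
  · intro a a' z
    rw [ofAdd_add, map_mul]
    exact g1 _ _ _
  · intro a z z'
    rw [ofAdd_add, map_mul]
    exact g2 _ _ _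
  · intro a c h
    rw [EXL_.mkF_apply]
    exact g3 _ _ ((hZ _ _).2 h)
  · intro u
    apply LinearMap.ext
    intro v
    rw [EXL_.mkF_apply]
    have hu : φ (Multiplicative.ofAdd (u : V)) ∈ U' := by
      rw [hU', ψφ]
      exact u.2
    rw [g4 _ hu, hβ _ hu]
    have e : (⟨ψ (φ (Multiplicative.ofAdd (u : V))), hu⟩ : U) = u := Subtype.ext (ψφ u)
    rw [e, ψφ]

/-- a linear map with given values at two points -/
theorem two_pts {M : Type} [AddCommGroup M] [Module (ZMod 2) M] (a c : V) (f g : M)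
    (ha : a = 0 → f = 0) (hc : c = 0 → g = 0) (hac : a = c → f = g) :
    ∃ B : V →ₗ[ZMod 2] M, B a = f ∧ B c = g := by
  have one : ∀ (x : V), x ≠ 0 → ∃ l : V →ₗ[ZMod 2] ZMod 2, l x = 1 := by
    intro x hx
    obtain ⟨l, -, h⟩ := ESL.exists_sep (W := (⊥ : Submodule (ZMod 2) V)) (x := x)
      (by rw [Submodule.mem_bot]; exact hx)
    exact ⟨l, h⟩
  have two : ∀ (x y : V), x ≠ 0 → x ≠ y → ∃ l : V →ₗ[ZMod 2] ZMod 2, l y = 0 ∧ l x = 1 := by
    intro x y hx hxy
    obtain ⟨l, h0, h⟩ := ESL.exists_sep (W := Submodule.span (ZMod 2) {y}) (x := x) (by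
      rw [Submodule.mem_span_singleton]
      rintro ⟨t, ht⟩
      rcases EXL_.z2 t with h | h
      · rw [h, zero_smul] at ht
        exact hx ht.symm
      · rw [h, one_smul] at ht
        exact hxy ht.symm)
    exact ⟨l, h0 y (Submodule.mem_span_singleton_self y), h⟩
  by_cases h0 : a = 0
  · by_cases h1 : c = 0
    · refine ⟨0, ?_, ?_⟩
      · rw [ha h0]; rfl
      · rw [hc h1]; rfl
    · obtain ⟨l, hl⟩ := one c h1
      refine ⟨l.smulRight g, ?_, ?_⟩
      · rw [h0, map_zero, ha h0]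
      · rw [LinearMap.smulRight_apply, hl, one_smul]
  · by_cases h1 : c = 0
    · obtain ⟨l, hl⟩ := one a h0
      refine ⟨l.smulRight f, ?_, ?_⟩
      · rw [LinearMap.smulRight_apply, hl, one_smul]
      · rw [h1, map_zero, hc h1]
    · by_cases h2 : a = c
      · obtain ⟨l, hl⟩ := one a h0
        refine ⟨l.smulRight f, ?_, ?_⟩
        · rw [LinearMap.smulRight_apply, hl, one_smul]
        · rw [← h2, LinearMap.smulRight_apply, hl, one_smul]
          exact hac h2
      · obtain ⟨l, hl0, hl1⟩ := two a c h0 h2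
        obtain ⟨m, hm0, hm1⟩ := two c a h1 (Ne.symm h2)
        refine ⟨l.smulRight f + m.smulRight g, ?_, ?_⟩
        · rw [LinearMap.add_apply, LinearMap.smulRight_apply, LinearMap.smulRight_apply, hl1, hm0,
            one_smul, zero_smul, add_zero]
        · rw [LinearMap.add_apply, LinearMap.smulRight_apply, LinearMap.smulRight_apply, hl0, hm1,
            one_smul, zero_smul, zero_add]

/-- elements of the span of two elements -/
theorem mem_two {a c u : V} (h : u ∈ Submodule.span (ZMod 2) {a, c}) :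
    u = 0 ∨ u = a ∨ u = c ∨ u = a + c := by
  rw [Submodule.mem_span_pair] at h
  obtain ⟨s, t, rfl⟩ := h
  rcases EXL_.z2 s with h | h <;> rcases EXL_.z2 t with h' | h' <;> rw [h, h']
  · left; rw [zero_smul, zero_smul, add_zero]
  · right; right; left; rw [zero_smul, one_smul, zero_add]
  · right; left; rw [one_smul, zero_smul, add_zero]
  · right; right; right; rw [one_smul, one_smul]

/-- the pairs `(v, w)` with `q (a, v) = q (c, w)` -/
def T (hZ : LZ Z) (a c : V) : Submodule (ZMod 2) (V × V) where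
  carrier := {p | ∃ x, Z a (p.1 + x) ∧ Z c (p.2 + x) ∧ Z (a + c) x}
  add_mem' := by
    rintro p p' ⟨x, h1, h2, h3⟩ ⟨x', h1', h2', h3'⟩
    refine ⟨x + x', ?_, ?_, hZ.add _ _ _ h3 h3'⟩
    · have := hZ.add _ _ _ h1 h1'
      rwa [show p.1 + x + (p'.1 + x') = (p + p').1 + (x + x') by
        rw [Prod.fst_add]; abel] at this
    · have := hZ.add _ _ _ h2 h2'
      rwa [show p.2 + x + (p'.2 + x') = (p + p').2 + (x + x') by
        rw [Prod.snd_add]; abel] at this
  zero_mem' := ⟨0, by rw [Prod.fst_zero, add_zero]; exact hZ.zero a,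
    by rw [Prod.snd_zero, add_zero]; exact hZ.zero c, hZ.zero _⟩
  smul_mem' := by
    rintro t p hp
    rcases EXL_.z2 t with h | h
    · rw [h, zero_smul]
      exact ⟨0, by rw [Prod.fst_zero, add_zero]; exact hZ.zero a,
        by rw [Prod.snd_zero, add_zero]; exact hZ.zero c, hZ.zero _⟩
    · rw [h, one_smul]; exact hp

theorem sep_of_ez (hZ : LZ Z)
    (hEZ : ∀ (U : Submodule (ZMod 2) V) (b : U →ₗ[ZMod 2] ESL.D V),
      (∀ (u : U) (v : V), Z u v → b u v = 0) → ∃ k ∈ RZ Z, ∀ u : U, k u = b u) : Sep Z := by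
  intro a b c d h
  by_contra hne
  have hnT : ((b, d) : V × V) ∉ T hZ a c := fun hm => hne hm
  obtain ⟨F, hF, hF1⟩ := ESL.exists_sep hnT
  let φ : ESL.D V := F ∘ₗ LinearMap.inl (ZMod 2) V V
  let ψ : ESL.D V := F ∘ₗ LinearMap.inr (ZMod 2) V V
  have hφ : ∀ v, φ v = F (v, 0) := fun v => rfl
  have hψ : ∀ v, ψ v = F (0, v) := fun v => rfl
  have h1 : ∀ v, Z a v → φ v = 0 := by
    intro v hv
    rw [hφ]
    exact hF _ ⟨0, by rw [add_zero]; exact hv, by rw [add_zero]; exact hZ.zero c, hZ.zero _⟩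
  have h2 : ∀ v, Z c v → ψ v = 0 := by
    intro v hv
    rw [hψ]
    exact hF _ ⟨0, by rw [add_zero]; exact hZ.zero a, by rw [add_zero]; exact hv, hZ.zero _⟩
  have h3 : ∀ v, Z (a + c) v → φ v + ψ v = 0 := by
    intro v hv
    rw [hφ, hψ, ← map_add, Prod.mk_add_mk, add_zero, zero_add]
    refine hF _ ⟨v, ?_, ?_, hv⟩
    · rw [ZModModule.add_self]; exact hZ.zero a
    · rw [ZModModule.add_self]; exact hZ.zero c
  have h4 : φ b + ψ d = 1 := by
    rw [hφ, hψ, ← map_add, Prod.mk_add_mk, add_zero, zero_add]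
    exact hF1
  have zl : ∀ v, Z 0 v := fun v => hZ.symm _ _ (hZ.zero v)
  obtain ⟨B, hBa, hBc⟩ := two_pts a c φ ψ
    (by rintro rfl; exact LinearMap.ext fun v => h1 v (zl v))
    (by rintro rfl; exact LinearMap.ext fun v => h2 v (zl v))
    (by
      rintro rfl
      refine LinearMap.ext fun v => ?_
      have := h3 v (by rw [ZModModule.add_self]; exact zl v)
      exact CharTwo.add_eq_zero.1 this)
  obtain ⟨k, hk, hkB⟩ := hEZ (Submodule.span (ZMod 2) {a, c}) (B ∘ₗ Submodule.subtype _) (by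
    rintro ⟨u, hu⟩ v huv
    show B u v = 0
    rcases mem_two hu with h' | h' | h' | h'
    · rw [h', map_zero]; rfl
    · rw [h', hBa]; exact h1 v (h' ▸ huv)
    · rw [h', hBc]; exact h2 v (h' ▸ huv)
    · rw [h', map_add, hBa, hBc, LinearMap.add_apply]; exact h3 v (h' ▸ huv))
  have e1 : k a = φ := by
    rw [← hBa]; exact hkB ⟨a, Submodule.subset_span (by simp)⟩
  have e2 : k c = ψ := by
    rw [← hBc]; exact hkB ⟨c, Submodule.subset_span (by simp)⟩
  have e3 := h k hk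
  rw [e1, e2] at e3
  rw [e3, EXL_.tt] at h4
  exact absurd h4 (by decide)

end

end SLZ_

open SLZ_ in
theorem slz_proof (_h : Stmt_QLZ) : Stmt_SLZ := by
  intro V _ _ _ Z hZ hE
  obtain ⟨S, hS⟩ := qex_proof V Z hZ
  have hET := hE S hS
  obtain ⟨hneg, φ, hφ⟩ := hS
  have hX : ESL.ExtProp S := ESL.j3_proof ESL.j3p_proof ESL.j3e_proof ESL.j3l_proof
    ESL.j3i_proof S hET hneg
  have hEZ := fun (U : Submodule (ZMod 2) V) (b : U →ₗ[ZMod 2] ESL.D V) hb =>
    ez S hX φ hφ U b hb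
  refine ⟨sep_of_ez hZ hEZ, ?_⟩
  intro U b hb
  refine hEZ U b ?_
  intro u v huv
  obtain ⟨k, hk, e⟩ := hb u
  rw [← e]
  exact hk _ _ huv

end Pool.Agent.RFN
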