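import Pool.Agent.REG10.FN.Defs

/-!
REG10/FN, module FWD: relations of elementary type are separated and hereditarily regular.

The main theorem of ESL (strongly linked form spaces are of elementary type) is taken as the last
hypothesis (`ESL.p_MAIN` in `Pool.Agent.ESL.All`).
-/

set_option autoImplicit false

namespace Pool.Agent.RFN

open Module CommonSlot Pool.Agent.ETG Pool.Agent.GTW

theorem fwd_proof (hSLZ : Stmt_SLZ) (hSLH : Stmt_SLH) (hREF : Stmt_REF) (hRFZ : Stmt_RFZ)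
    (hMAIN : ESL.Stmt_MAIN) : Stmt_FWD := by
  intro V _ _ _ Z hZ hE
  obtain ⟨hS, hSL⟩ := hSLZ V Z hZ hE
  have halt : ESL.IsAlt (RZ Z) := fun k hk x => hk x x (hZ.alt x)
  refine ⟨hS, ?_, ?_⟩
  · intro U _
    refine hREF V (ESL.fxs (RZ Z) U) (hMAIN V (ESL.fxs (RZ Z) U) ?_ (hSLH V (RZ Z) U hSL))
    intro k hk x
    exact halt k hk.1 x
  · obtain ⟨x, hx⟩ := hREF V (RZ Z) (hMAIN V (RZ Z) halt hSL)
    exact ⟨x, ((hRFZ V Z hZ hS).2 x).1 hx⟩

end Pool.Agent.RFN
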