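import Pool.Agent.REG10.FN.Defs

/-!
REG10/FN, module HRQ: hereditary regularity passes to quotients.
-/

set_option autoImplicit false

namespace Pool.Agent.RFN

open Module CommonSlot Pool.Agent.ETG Pool.Agent.GTW

namespace HRQ_

theorem two_cases (c : ZMod 2) : c = 0 ∨ c = 1 := by
  revert c; decide

theorem dbl {V : Type} [AddCommGroup V] [Module (ZMod 2) V] (v : V) : v + v = 0 :=
  ZModModule.add_self v

/-- a functional with value one at two vectors outside a subspace -/
theorem fun_two {W : Type} [AddCommGroup W] [Module (ZMod 2) W] (Q : Submodule (ZMod 2) W)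
    (y y' : W) (hy : y ∉ Q) (hy' : y' ∉ Q) :
    ∃ f : W →ₗ[ZMod 2] ZMod 2, (∀ w ∈ Q, f w = 0) ∧ f y = 1 ∧ f y' = 1 := by
  have h1 : y ∉ Q ⊔ Submodule.span (ZMod 2) {y + y'} := by
    intro h
    obtain ⟨a, ha, b, hb, hab⟩ := Submodule.mem_sup.1 h
    obtain ⟨c, rfl⟩ := Submodule.mem_span_singleton.1 hb
    rcases two_cases c with rfl | rfl
    · rw [zero_smul, add_zero] at hab
      exact hy (hab ▸ ha)
    · rw [one_smul] at hab
      apply hy'
      have h2 : a = y' := by
        have h3 : a + (y + y') + (y + y') = y + (y + y') := by rw [hab]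
        rw [add_assoc, dbl, add_zero, ← add_assoc, dbl, zero_add] at h3
        exact h3
      rw [← h2]; exact ha
  obtain ⟨f, hf1, hf2⟩ := CommonSlot.exists_functional h1
  have hfy : f y = 1 := (two_cases (f y)).resolve_left hf1
  refine ⟨f, fun w hw => hf2 w (Submodule.mem_sup_left hw), hfy, ?_⟩
  have h3 : f (y + y') = 0 :=
    hf2 _ (Submodule.mem_sup_right (Submodule.mem_span_singleton_self _))
  rw [map_add, hfy] at h3
  rcases two_cases (f y') with h4 | h4
  · rw [h4] at h3; exact absurd h3 (by decide)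
  · exact h4

end HRQ_

open HRQ_ in
theorem hrq_proof : Stmt_HRQ := by
  intro V W _ _ _ _ _ _ Z ZW π hQ hHR U hU
  obtain ⟨s, hs⟩ := LinearMap.exists_rightInverse_of_surjective π
    (LinearMap.range_eq_top.2 hQ.surj)
  have hs' : ∀ w, π (s w) = w := fun w => LinearMap.congr_fun hs w
  set U' : Submodule (ZMod 2) V := U.comap π with hU'
  -- pull back and push forward
  let pb : ESL.Fm W → ESL.Fm V := fun k => (k.comp π).compr₂ LinearMap.id |>.compl₂ π
  have hpb : ∀ k a b, pb k a b = k (π a) (π b) := fun k a b => rfl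
  let pf : ESL.Fm V → ESL.Fm W := fun k => (k.comp s).compl₂ s
  have hpf : ∀ k a b, pf k a b = k (s a) (s b) := fun k a b => rfl
  have hpbm : ∀ k ∈ ESL.fxs (RZ ZW) U, pb k ∈ ESL.fxs (RZ Z) U' := by
    rintro k ⟨hk1, hk2⟩
    refine ⟨fun a b hab => ?_, fun u hu => ?_⟩
    · rw [hpb]; exact hk1 _ _ (hQ.map a b hab)
    · ext b
      rw [hpb, hk2 (π u) hu]
      rfl
  have hker : ∀ k ∈ ESL.fxs (RZ Z) U', ∀ u, π u = 0 → k u = 0 := by
    rintro k ⟨_, hk2⟩ u hu
    refine hk2 u ?_
    show π u ∈ U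
    rw [hu]; exact U.zero_mem
  have hform : ∀ k ∈ ESL.fxs (RZ Z) U', ∀ a b, ZW (π a) (π b) → k a b = 0 := fun k hk =>
    hQ.forms k hk.1 (hker k hk)
  have hpfm : ∀ k ∈ ESL.fxs (RZ Z) U', pf k ∈ ESL.fxs (RZ ZW) U := by
    intro k hk
    refine ⟨fun a b hab => ?_, fun u hu => ?_⟩
    · rw [hpf]
      apply hform k hk
      rw [hs', hs']; exact hab
    · ext b
      rw [hpf, hk.2 (s u) (by show π (s u) ∈ U; rw [hs']; exact hu)]
      rfl
  have hsx : ∀ k ∈ ESL.fxs (RZ Z) U', ∀ x, k (s (π x)) = k x := by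
    intro k hk x
    have h1 : k (x + s (π x)) = 0 := hker k hk _ (by rw [map_add, hs', dbl])
    have h2 : k (x + s (π x)) + k x = k x := by rw [h1, zero_add]
    rw [map_add] at h2
    have h3 : k x + k (s (π x)) + k x = k (s (π x)) := by
      rw [add_comm (k x) (k (s (π x))), add_assoc, dbl, add_zero]
    rw [← h3]; exact h2
  -- the subspace on which the right kernel part vanishes
  set P : Submodule (ZMod 2) W := Submodule.span (ZMod 2) {w | w ∈ U ∨ ∃ w', ZW w w'} with hP
  have hright : ∀ k ∈ ESL.fxs (RZ Z) U', ∀ x, π x ∈ P → ∀ c, π c = 0 → k x c = 0 := by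
    intro k hk x hx c hc
    have h1 : P ≤ LinearMap.ker ((k.flip c).comp s) := by
      rw [hP, Submodule.span_le]
      rintro w (hw | ⟨w', hw'⟩)
      · show k (s w) c = 0
        rw [hk.2 (s w) (by show π (s w) ∈ U; rw [hs']; exact hw)]
        rfl
      · show k (s w) c = 0
        have e1 : k (s w) (s w') = 0 := hform k hk _ _ (by rw [hs', hs']; exact hw')
        have e2 : k (s w) (s w' + c) = 0 :=
          hform k hk _ _ (by rw [map_add, hs', hs', hc, add_zero]; exact hw')
        rw [map_add, e1, zero_add] at e2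
        exact e2
    have h2 : k (s (π x)) c = 0 := h1 hx
    rwa [hsx k hk x] at h2
  have hlin : ESL.Linked (ESL.fxs (RZ Z) U') := by
    intro k hk k' hk' x x' hxx
    have e1 : pf k (π x) = pf k' (π x') := by
      ext w
      rw [hpf, hpf, hsx k hk x, hsx k' hk' x', hxx]
    obtain ⟨l, hl, hl1, hl2⟩ := hU (pf k) (hpfm k hk) (pf k') (hpfm k' hk') _ _ e1
    have hdec : ∀ b : V, ∃ c, π c = 0 ∧ b = s (π b) + c := by
      intro b
      refine ⟨s (π b) + b, ?_, ?_⟩
      · rw [map_add, hs', dbl]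
      · rw [← add_assoc, dbl, zero_add]
    by_cases hθ : ∀ c, π c = 0 → k x c = 0
    · refine ⟨pb l, hpbm l hl, ?_, ?_⟩
      · ext b
        obtain ⟨c, hc, hb⟩ := hdec b
        rw [hpb, hl1, hpf, hsx k hk x]
        conv_rhs => rw [hb, map_add, hθ c hc, add_zero]
      · ext b
        obtain ⟨c, hc, hb⟩ := hdec b
        rw [hpb, hl2, hpf, hsx k hk x]
        conv_rhs => rw [hb, map_add, hθ c hc, add_zero]
    · push Not at hθ
      obtain ⟨c0, hc0, hc1⟩ := hθ
      have hx : π x ∉ P := fun h => hc1 (hright k hk x h c0 hc0)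
      have hx' : π x' ∉ P := fun h => hc1 (by rw [hxx]; exact hright k' hk' x' h c0 hc0)
      obtain ⟨f, hf, hf1, hf2⟩ := fun_two P _ _ hx hx'
      let θ : V →ₗ[ZMod 2] ZMod 2 := (k x).comp (LinearMap.id + s.comp π)
      have hθ : ∀ b, θ b = k x (b + s (π b)) := fun b => rfl
      let g : ESL.Fm V := (f.comp π).smulRight θ
      have hg : ∀ a b, g a b = f (π a) * k x (b + s (π b)) := fun a b => rfl
      have hgm : g ∈ ESL.fxs (RZ Z) U' := by
        refine ⟨fun a b hab => ?_, fun u hu => ?_⟩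
        · rw [hg, hf (π a) (Submodule.subset_span (Or.inr ⟨π b, hQ.map a b hab⟩)), zero_mul]
        · ext b
          rw [hg, hf (π u) (Submodule.subset_span (Or.inl hu)), zero_mul]
          rfl
      refine ⟨pb l + g, Submodule.add_mem _ (hpbm l hl) hgm, ?_, ?_⟩
      · ext b
        rw [LinearMap.add_apply, LinearMap.add_apply, hpb, hg, hl1, hpf, hsx k hk x, hf1, one_mul,
          map_add, add_comm (k x b), ← add_assoc, HRQ_.dbl, zero_add]
      · ext b
        rw [LinearMap.add_apply, LinearMap.add_apply, hpb, hg, hl2, hpf, hsx k hk x, hf2, one_mul,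
          map_add, add_comm (k x b), ← add_assoc, HRQ_.dbl, zero_add]
  obtain ⟨x, hx⟩ := hHR U' hlin
  refine ⟨π x, fun w hw k hk hkx => ?_⟩
  have h1 := hx (s w) (fun κ hκ => by
    have := hw (pf κ) (hpfm κ hκ)
    rw [hpf, hsx κ hκ x] at this
    exact this) (pb k) (hpbm k hk) (by
      ext b
      rw [hpb, hkx]
      rfl)
  ext b
  obtain ⟨v, rfl⟩ := hQ.surj b
  have h2 := LinearMap.congr_fun h1 v
  rw [hpb, hs'] at h2
  exact h2

end Pool.Agent.RFN
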