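import Pool.Agent.REG10.FN.Defs
import Pool.Agent.ESL.ETALT

/-!
Module REF: form spaces of elementary type have regular elements.
-/

set_option autoImplicit false

namespace Pool.Agent.RFN

open Module
open Pool.Agent.ESL

namespace REFX

variable {V : Type} [AddCommGroup V] [Module (ZMod 2) V]

/-- local case -/
theorem loc (k : Fm V) : ∃ x, RegF (Submodule.span (ZMod 2) {k} : FS V) x := by
  by_cases hk : k = 0
  · subst hk
    refine ⟨0, fun w _ l hl _ => ?_⟩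
    obtain ⟨c, rfl⟩ := Submodule.mem_span_singleton.1 hl
    simp
  · obtain ⟨x, hx⟩ : ∃ x, k x ≠ 0 := by
      by_contra hc
      push Not at hc
      exact hk (LinearMap.ext hc)
    refine ⟨x, fun w _ l hl hlx => ?_⟩
    obtain ⟨c, rfl⟩ := Submodule.mem_span_singleton.1 hl
    rcases ESL.zm c with rfl | rfl
    · simp
    · rw [one_smul] at hlx
      exact absurd hlx hx

/-- sums -/
theorem sum [Finite V] (R₁ R₂ : FS V) (a₁ : IsAlt R₁) (a₂ : IsAlt R₂)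
    (h : Disjoint (Sp R₁) (Sp R₂)) (h₁ : ∃ x, RegF R₁ x) (h₂ : ∃ x, RegF R₂ x) :
    ∃ x, RegF (R₁ ⊔ R₂) x := by
  obtain ⟨x₁, h₁⟩ := h₁
  obtain ⟨x₂, h₂⟩ := h₂
  have htop : rad R₁ ⊔ rad R₂ = ⊤ := by
    rw [← co_Sp a₁, ← co_Sp a₂]
    exact co_sup_top h
  obtain ⟨r₁, hr₁, r₂, hr₂, hr⟩ := Submodule.mem_sup.1
    (show x₁ + x₂ ∈ rad R₁ ⊔ rad R₂ by rw [htop]; trivial)
  have hx : x₁ + r₁ = x₂ + r₂ := by
    apply eq_of_add
    calc x₁ + r₁ + (x₂ + r₂) = (x₁ + x₂) + (r₁ + r₂) := by abel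
      _ = 0 := by rw [hr, ESL.add_self']
  have e₁ : ∀ k ∈ R₁, k (x₁ + r₁) = k x₁ := by
    intro k hk
    rw [map_add, hr₁ k hk, add_zero]
  have e₂ : ∀ k ∈ R₂, k (x₁ + r₁) = k x₂ := by
    intro k hk
    rw [hx, map_add, hr₂ k hk, add_zero]
  refine ⟨x₁ + r₁, fun w hw k hk hkx => ?_⟩
  have w₁ : ∀ k ∈ R₁, k x₁ w = 0 := fun k hk => by
    rw [← e₁ k hk]; exact hw k (Submodule.mem_sup_left hk)
  have w₂ : ∀ k ∈ R₂, k x₂ w = 0 := fun k hk => by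
    rw [← e₂ k hk]; exact hw k (Submodule.mem_sup_right hk)
  obtain ⟨a, ha, b, hb, rfl⟩ := Submodule.mem_sup.1 hk
  rw [LinearMap.add_apply, e₁ a ha, e₂ b hb] at hkx
  have hab : a x₁ = b x₂ := eq_of_add hkx
  have ha0 : a x₁ = 0 := by
    have : a x₁ ∈ Sp R₁ ⊓ Sp R₂ := ⟨mem_Sp ha x₁, by rw [hab]; exact mem_Sp hb x₂⟩
    rw [h.eq_bot] at this
    exact this
  have hb0 : b x₂ = 0 := by rw [← hab]; exact ha0
  rw [LinearMap.add_apply, h₁ w w₁ a ha ha0, h₂ w w₂ b hb hb0, add_zero]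

/-- extensions -/
theorem ext [Finite V] (R : FS V) (L : Submodule (ZMod 2) (D V)) (τ : D V) (hR : IsAlt R)
    (hL : Sp R ≤ L) (hτ : τ ∉ L) : ∃ x, RegF (R ⊔ L.map (wdL τ)) x := by
  obtain ⟨t, ht, ht1⟩ := exists_cosep hτ
  have hrad : ∀ w ∈ co L, ∀ k ∈ R, k w = 0 := by
    intro w hw
    have : w ∈ co (Sp R) := co_anti hL hw
    rw [co_Sp hR] at this
    exact this
  have hwt : ∀ ψ ∈ L, wdL τ ψ t = ψ := by
    intro ψ hψ
    rw [wdL_apply, ht1, one_smul, ht ψ hψ, zero_smul, add_zero]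
  refine ⟨t, fun w hw k hk hkt => ?_⟩
  have hwL : w ∈ co L := by
    intro ψ hψ
    have := hw (wdL τ ψ) (Submodule.mem_sup_right ⟨ψ, hψ, rfl⟩)
    rwa [hwt ψ hψ] at this
  obtain ⟨a, ha, b, hb, rfl⟩ := Submodule.mem_sup.1 hk
  obtain ⟨ψ, hψ, rfl⟩ := hb
  rw [LinearMap.add_apply, hrad t ht a ha, hwt ψ hψ, zero_add] at hkt
  rw [LinearMap.add_apply, hrad w hwL a ha, hkt, map_zero, LinearMap.zero_apply, add_zero]

end REFX

theorem ref_proof : Stmt_REF := by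
  intro V _ _ _ R h
  induction h with
  | loc k h => exact REFX.loc k
  | sum R₁ R₂ h₁ h₂ h ih₁ ih₂ =>
    exact REFX.sum R₁ R₂ (etalt_proof V R₁ h₁) (etalt_proof V R₂ h₂) h ih₁ ih₂
  | ext R L τ h hL hτ ih => exact REFX.ext R L τ (etalt_proof V R h) hL hτ

end Pool.Agent.RFN
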