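import Pool.Agent.REG10.FN.Defs

/-!
REG10/FN, module RFZ: regular elements of the space of forms and of the relation.
-/

set_option autoImplicit false

namespace Pool.Agent.RFN

open Module CommonSlot Pool.Agent.ETG Pool.Agent.GTW

theorem rfz_proof (hLZQ : Stmt_LZQ) (hLKZ : Stmt_LKZ) : Stmt_RFZ := by
  intro V _ _ _ Z hZ hSep
  obtain ⟨B, iB, iM, iF, q, hq, hZq, hμ⟩ := hLZQ V Z hZ hSep
  obtain ⟨-, -, hInQ⟩ := hLKZ V B q hq
  have hZeq : (fun v w => q v w = 0) = Z := by
    funext v w
    exact propext (hZq v w).symm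
  rw [hZeq] at hInQ
  -- every functional gives a form
  have hform : ∀ μ : B →ₗ[ZMod 2] ZMod 2, q.compr₂ μ ∈ RZ Z := by
    intro μ a b hab
    rw [LinearMap.compr₂_apply, (hZq a b).1 hab, map_zero]
  constructor
  · intro k hk k' hk' x x' hxx
    obtain ⟨μ, hμ1⟩ := hμ k hk
    obtain ⟨ν, hν1⟩ := hμ k' hk'
    have h1 : act q μ x = act q ν x' := by
      ext v
      have := LinearMap.congr_fun hxx v
      rw [hμ1, hν1] at this
      exact this
    obtain ⟨κ, h2, h3⟩ := dual_link hq h1
    refine ⟨q.compr₂ κ, hform κ, ?_, ?_⟩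
    · ext v
      rw [hμ1]
      exact LinearMap.congr_fun h2 v
    · ext v
      rw [hμ1]
      exact LinearMap.congr_fun h3 v
  · intro x
    constructor
    · intro hx w v hxw
      rw [hInQ]
      by_contra hcon
      have h1 : q w v ∉ LinearMap.range (q x) := by
        rintro ⟨z, hz⟩
        exact hcon ⟨z, hz⟩
      obtain ⟨μ, hμ1, hμ2⟩ := exists_functional h1
      have h2 := hx w (fun k hk => hk x w hxw) (q.compr₂ μ) (hform μ) (by
        ext z
        exact hμ2 (q x z) ⟨z, rfl⟩)
      apply hμ1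
      exact LinearMap.congr_fun h2 v
    · intro hx w hw k hk hkx
      have hxw : Z x w := by
        rw [hZq]
        by_contra hcon
        have h1 : q x w ∉ (⊥ : Submodule (ZMod 2) B) := by
          rwa [Submodule.mem_bot]
        obtain ⟨μ, hμ1, -⟩ := exists_functional h1
        exact hμ1 (hw (q.compr₂ μ) (hform μ))
      ext v
      obtain ⟨z, hz⟩ := (hInQ x w v).1 (hx w v hxw)
      obtain ⟨μ, hμ1⟩ := hμ k hk
      rw [hμ1, ← hz, ← hμ1, hkx]
      rfl

end Pool.Agent.RFN
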