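import Pool.Agent.REG10.FN.Defs

/-!
REG10/FN, module HRC: separated and hereditarily regular relations are of elementary type.
-/

set_option autoImplicit false

namespace Pool.Agent.RFN

open Module CommonSlot Pool.Agent.ETG Pool.Agent.GTW

namespace HRC_

theorem fxs_bot {V : Type} [AddCommGroup V] [Module (ZMod 2) V] (R : ESL.FS V) :
    ESL.fxs R ⊥ = R := by
  apply le_antisymm
  · intro k hk
    exact hk.1
  · intro k hk
    refine ⟨hk, ?_⟩
    intro w hw
    rw [(Submodule.mem_bot _).1 hw, map_zero]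

theorem inq {V B : Type} [AddCommGroup V] [Module (ZMod 2) V] [AddCommGroup B]
    [Module (ZMod 2) B] (q : V →ₗ[ZMod 2] V →ₗ[ZMod 2] B) (t v w : V)
    (h : InQ (fun v w => q v w = 0) t v w) : ∃ z, q t z = q v w := by
  obtain ⟨a, x, h1, h2, h3⟩ := h
  refine ⟨a, ?_⟩
  have e1 : q v w + q v x = 0 := by
    have := h1
    simp only [map_add] at this
    exact this
  have e2 : q t a + q t x = 0 := by
    have := h2
    simp only [map_add] at this
    exact this
  have e3 : q v x + q t x = 0 := by
    have := h3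
    simp only [map_add, LinearMap.add_apply] at this
    exact this
  have f1 : q v w = q v x := by
    rw [← sub_eq_zero, ZModModule.sub_eq_add]
    exact e1
  have f2 : q t a = q t x := by
    rw [← sub_eq_zero, ZModModule.sub_eq_add]
    exact e2
  have f3 : q v x = q t x := by
    rw [← sub_eq_zero, ZModModule.sub_eq_add]
    exact e3
  rw [f1, f2, f3]

end HRC_

theorem hrc_proof (hRDS : Stmt_RDS) (hLZQ : Stmt_LZQ) (hRFZ : Stmt_RFZ) (hCOR : Stmt_COR)
    (hHRQ : Stmt_HRQ) : Stmt_HRC := by
  have key : ∀ (n : ℕ) (V : Type) [AddCommGroup V] [Module (ZMod 2) V] [Finite V]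
      (Z : V → V → Prop), Nat.card V = n → LZ Z → Sep Z → HR Z → ETZ Z := by
    intro n
    induction n using Nat.strong_induction_on with
    | _ n ih =>
      intro V _ _ _ Z hn hZ hS hH
      obtain ⟨W, π, -, hWZ, hWN, -, hQ, hET, hSW, -, hc⟩ := hRDS V Z hZ
      rcases hc with hN | hc
      swap
      · exact hET (ih _ (hn ▸ hc) W (ZR Z W) rfl hWZ (hSW hS) (hHRQ V W Z (ZR Z W) π hQ hH))
      obtain ⟨hL, hR⟩ := hRFZ V Z hZ hS
      obtain ⟨x, hx⟩ := hH ⊥ (by rw [HRC_.fxs_bot]; exact hL)
      rw [HRC_.fxs_bot] at hx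
      have hxZ : RegZ Z x := (hR x).1 hx
      obtain ⟨B, iB1, iB2, iB3, q, hq, hqZ, -⟩ := hLZQ V Z hZ hS
      have hZq : Z = fun v w => q v w = 0 := by
        funext v w
        exact propext (hqZ v w)
      rw [hZq]
      apply hCOR V B q hq (x := x)
      · intro v hv
        apply hN
        intro w
        rw [hqZ]
        exact hv w
      · intro w v hw
        have h1 := hxZ w v ((hqZ x w).2 hw)
        rw [hZq] at h1
        exact HRC_.inq q x w v h1
      · intro W' _ _ _ ZW π' hW' hSW' hQ' hc'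
        rw [← hZq] at hQ'
        exact ih _ (hn ▸ hc') W' ZW rfl hW' hSW' (hHRQ V W' Z ZW π' hQ' hH)
  intro V _ _ _ Z hZ hS hH
  exact key _ V Z rfl hZ hS hH

end Pool.Agent.RFN
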