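import Pool.Agent.REG10.FN.Basic
import Pool.Agent.ETG.QIS
import Pool.Agent.ESL.J1

/-!
REG10/FN, module RES: the class version in the language of quaternionic structures.
-/

set_option autoImplicit false

namespace Pool.Agent.RFN

open Module CommonSlot Pool.Agent.ETG Pool.Agent.GTW

/-- `γ` is a form of the structure `S` killing the subgroup `U`: a biadditive map `G × G → F_2`
vanishing on all pairs with `q = 0` and on `U × G` -/
structure Form (S : QS.QStruct) (U : Subgroup S.G) (γ : S.G → S.G → ZMod 2) : Prop where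
  add_left : ∀ a b c, γ (a * b) c = γ a c + γ b c
  add_right : ∀ a b c, γ a (b * c) = γ a b + γ a c
  zero : ∀ a b, S.q a b = S.zero → γ a b = 0
  kill : ∀ u ∈ U, ∀ a, γ u a = 0

/-- all forms killing `U` agree on `(a, b)` and `(c, d)` -/
def FEq (S : QS.QStruct) (U : Subgroup S.G) (a b c d : S.G) : Prop :=
  ∀ γ, Form S U γ → γ a b = γ c d

/-- linked -/
def FLinked (S : QS.QStruct) (U : Subgroup S.G) : Prop :=
  ∀ a b c d, FEq S U a b c d → ∃ x, FEq S U a x a b ∧ FEq S U c x c d

/-- regular -/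
def FReg (S : QS.QStruct) (U : Subgroup S.G) (x : S.G) : Prop :=
  ∀ w v, (∀ γ, Form S U γ → γ x w = 0) → ∃ z, FEq S U x z w v

namespace RES_

attribute [local instance] ESL.J1X.mdl

variable (S : QS.QStruct)

/-- the relation of `S` -/
def Zs (a b : Additive S.G) : Prop := S.q a.toMul b.toMul = S.zero

/-- the isomorphism -/
def ph : Multiplicative (Additive S.G) ≃* S.G where
  toFun x := x.toAdd.toMul
  invFun g := Multiplicative.ofAdd (Additive.ofMul g)
  left_inv _ := rfl
  right_inv _ := rfl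
  map_mul' _ _ := rfl

theorem qof (h : S.neg = 1) : QOf (Zs S) S := ⟨h, ph S, fun _ _ => Iff.rfl⟩

/-- subgroups and subspaces -/
def sb (U : Subgroup S.G) : Submodule (ZMod 2) (Additive S.G) := AddSubgroup.toZModSubmodule 2
  (Subgroup.toAddSubgroup U)

theorem mem_sb (U : Subgroup S.G) (a : Additive S.G) : a ∈ sb S U ↔ a.toMul ∈ U := Iff.rfl

theorem sb_surj (U : Submodule (ZMod 2) (Additive S.G)) : ∃ U' : Subgroup S.G, sb S U' = U := by
  refine ⟨{ carrier := {g | Additive.ofMul g ∈ U}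
            mul_mem' := fun {x y} hx hy => U.add_mem hx hy
            one_mem' := U.zero_mem
            inv_mem' := fun {x} hx => U.neg_mem hx }, ?_⟩
  ext a
  exact Iff.rfl

theorem form_mem {U : Subgroup S.G} {γ : S.G → S.G → ZMod 2} (h : Form S U γ) :
    ∃ k ∈ ESL.fxs (RZ (Zs S)) (sb S U), ∀ a b : Additive S.G, k a b = γ a.toMul b.toMul := by
  refine ⟨ESL.J1X.mk S γ h.add_left h.add_right, ⟨?_, ?_⟩, fun a b => rfl⟩
  · intro a b hab
    exact h.zero _ _ hab
  · intro w hw
    apply LinearMap.ext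
    intro v
    exact h.kill _ hw _

theorem mem_form {U : Subgroup S.G} {k : ESL.Fm (Additive S.G)}
    (h : k ∈ ESL.fxs (RZ (Zs S)) (sb S U)) :
    Form S U (fun a b => k (Additive.ofMul a) (Additive.ofMul b)) where
  add_left a b c := by
    have : Additive.ofMul (a * b) = Additive.ofMul a + Additive.ofMul b := rfl
    show k _ _ = _
    rw [this, map_add]
    rfl
  add_right a b c := by
    have : Additive.ofMul (b * c) = Additive.ofMul b + Additive.ofMul c := rfl
    show k _ _ = _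
    rw [this, map_add]
  zero a b hab := h.1 _ _ hab
  kill u hu a := by
    show k _ _ = _
    rw [h.2 (Additive.ofMul u) hu]
    rfl

theorem feq_iff (U : Subgroup S.G) (a b c d : S.G) : FEq S U a b c d ↔
    ∀ k ∈ ESL.fxs (RZ (Zs S)) (sb S U), k (Additive.ofMul a) (Additive.ofMul b) =
      k (Additive.ofMul c) (Additive.ofMul d) := by
  constructor
  · intro h k hk
    exact h _ (mem_form S hk)
  · intro h γ hγ
    obtain ⟨k, hk, e⟩ := form_mem S hγ
    have := h k hk
    rw [e, e] at this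
    exact this

end RES_

/-! ### Linked spaces of forms -/

section
variable {V : Type} [AddCommGroup V] [Module (ZMod 2) V]

/-- linkage of the values -/
def VLinked (R : ESL.FS V) : Prop := ∀ a b c d, (∀ k ∈ R, k a b = k c d) →
  ∃ x, (∀ k ∈ R, k a x = k a b) ∧ ∀ k ∈ R, k c x = k c d

/-- the map `y ↦ (k ↦ k a y, k ↦ k c y)` into `Dual R × Dual R` -/
noncomputable def ev (R : ESL.FS V) (a : V) : V →ₗ[ZMod 2] (R →ₗ[ZMod 2] ZMod 2) where
  toFun y := { toFun := fun k => (k : ESL.Fm V) a y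
               map_add' := fun _ _ => rfl
               map_smul' := fun _ _ => rfl }
  map_add' y y' := by
    apply LinearMap.ext
    intro k
    exact map_add ((k : ESL.Fm V) a) y y'
  map_smul' c y := by
    apply LinearMap.ext
    intro k
    exact map_smul ((k : ESL.Fm V) a) c y

theorem ev_apply (R : ESL.FS V) (a y : V) (k : R) : ev R a y k = (k : ESL.Fm V) a y := rfl

theorem vlinked_of [Finite V] {R : ESL.FS V} (h : ESL.Linked R) :
    VLinked R := by
  intro a b c d hab
  have hfin : Finite R := inferInstance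
  let Φ : V →ₗ[ZMod 2] (R →ₗ[ZMod 2] ZMod 2) × (R →ₗ[ZMod 2] ZMod 2) := (ev R a).prod (ev R c)
  have hmem : (ev R a b, ev R c d) ∈ LinearMap.range Φ := by
    by_contra hc
    obtain ⟨f, hf, hp⟩ := CommonSlot.exists_functional hc
    -- `f` is evaluation at a pair of forms
    let f1 : (R →ₗ[ZMod 2] ZMod 2) →ₗ[ZMod 2] ZMod 2 := f ∘ₗ LinearMap.inl _ _ _
    let f2 : (R →ₗ[ZMod 2] ZMod 2) →ₗ[ZMod 2] ZMod 2 := f ∘ₗ LinearMap.inr _ _ _
    have hfs : ∀ u v, f (u, v) = f1 u + f2 v := by
      intro u v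
      show f (u, v) = f (u, 0) + f (0, v)
      rw [← map_add, Prod.mk_add_mk, add_zero, zero_add]
    obtain ⟨k1, hk1⟩ := (Module.evalEquiv (ZMod 2) R).surjective f1
    obtain ⟨k2, hk2⟩ := (Module.evalEquiv (ZMod 2) R).surjective f2
    have e1 : ∀ u : R →ₗ[ZMod 2] ZMod 2, f1 u = u k1 := by
      intro u; rw [← hk1]; rfl
    have e2 : ∀ u : R →ₗ[ZMod 2] ZMod 2, f2 u = u k2 := by
      intro u; rw [← hk2]; rfl
    have h3 : (k1 : ESL.Fm V) a = (k2 : ESL.Fm V) c := by
      apply LinearMap.ext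
      intro y
      have := hp (Φ y) ⟨y, rfl⟩
      have h4 : Φ y = (ev R a y, ev R c y) := rfl
      rw [h4, hfs, e1, e2, ev_apply, ev_apply] at this
      exact CharTwo.add_eq_zero.1 this
    obtain ⟨l, hl, l1, l2⟩ := h k1 k1.2 k2 k2.2 a c h3
    apply hf
    rw [hfs, e1, e2, ev_apply, ev_apply]
    have i1 : (k1 : ESL.Fm V) a b = l a b := by rw [l1]
    have i2 : (k2 : ESL.Fm V) c d = l c d := by rw [l2, h3]
    rw [i1, i2, hab l hl]
    exact CharTwo.add_self_eq_zero _
  obtain ⟨x, hx⟩ := hmem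
  have hx1 : ev R a x = ev R a b := congrArg Prod.fst hx
  have hx2 : ev R c x = ev R c d := congrArg Prod.snd hx
  exact ⟨x, fun k hk => LinearMap.congr_fun hx1 ⟨k, hk⟩,
    fun k hk => LinearMap.congr_fun hx2 ⟨k, hk⟩⟩

theorem of_vlinked [Finite V] {R : ESL.FS V} (h : VLinked R) :
    ESL.Linked R := by
  intro k hk k' hk' x x' he
  have hfin : Finite R := inferInstance
  -- `k ↦ (k x, k x')` on `R`; target `(k x, k x)`
  let Ψ : R →ₗ[ZMod 2] ESL.D V × ESL.D V :=
    { toFun := fun l => ((l : ESL.Fm V) x, (l : ESL.Fm V) x')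
      map_add' := fun _ _ => rfl
      map_smul' := fun _ _ => rfl }
  have hmem : (k x, k x) ∈ LinearMap.range Ψ := by
    by_contra hc
    obtain ⟨f, hf, hp⟩ := CommonSlot.exists_functional hc
    let f1 : ESL.D V →ₗ[ZMod 2] ZMod 2 := f ∘ₗ LinearMap.inl _ _ _
    let f2 : ESL.D V →ₗ[ZMod 2] ZMod 2 := f ∘ₗ LinearMap.inr _ _ _
    have hfs : ∀ u v, f (u, v) = f1 u + f2 v := by
      intro u v
      show f (u, v) = f (u, 0) + f (0, v)
      rw [← map_add, Prod.mk_add_mk, add_zero, zero_add]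
    obtain ⟨b, hb⟩ := (Module.evalEquiv (ZMod 2) V).surjective f1
    obtain ⟨d, hd⟩ := (Module.evalEquiv (ZMod 2) V).surjective f2
    have e1 : ∀ u : ESL.D V, f1 u = u b := by intro u; rw [← hb]; rfl
    have e2 : ∀ u : ESL.D V, f2 u = u d := by intro u; rw [← hd]; rfl
    have h3 : ∀ l ∈ R, l x b = l x' d := by
      intro l hl
      have := hp (Ψ ⟨l, hl⟩) ⟨_, rfl⟩
      have h4 : Ψ ⟨l, hl⟩ = (l x, l x') := rfl
      rw [h4, hfs, e1, e2] at this
      exact CharTwo.add_eq_zero.1 this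
    obtain ⟨y, y1, y2⟩ := h x b x' d h3
    apply hf
    rw [hfs, e1, e2]
    have i1 : k x b = k x y := (y1 k hk).symm
    have i2 : k x d = k x y := by
      rw [he, ← y2 k' hk']
    rw [i1, i2]
    exact CharTwo.add_self_eq_zero _
  obtain ⟨⟨l, hl⟩, hx⟩ := hmem
  exact ⟨l, hl, congrArg Prod.fst hx, congrArg Prod.snd hx⟩

/-- regular elements by values -/
theorem regF_iff [Finite V] {R : ESL.FS V} (x : V) :
    RegF R x ↔ ∀ w v, (∀ k ∈ R, k x w = 0) → ∃ z, ∀ k ∈ R, k x z = k w v := by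
  have hfin : Finite R := inferInstance
  constructor
  · intro h w v hw
    have hmem : ev R w v ∈ LinearMap.range (ev R x) := by
      by_contra hc
      obtain ⟨f, hf, hp⟩ := CommonSlot.exists_functional hc
      obtain ⟨k, hk⟩ := (Module.evalEquiv (ZMod 2) R).surjective f
      have e : ∀ u : R →ₗ[ZMod 2] ZMod 2, f u = u k := by intro u; rw [← hk]; rfl
      apply hf
      rw [e, ev_apply]
      have h1 : (k : ESL.Fm V) x = 0 := by
        apply LinearMap.ext
        intro y
        have := hp (ev R x y) ⟨y, rfl⟩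
        rw [e, ev_apply] at this
        exact this
      rw [h w hw k k.2 h1]
      rfl
    obtain ⟨z, hz⟩ := hmem
    exact ⟨z, fun k hk => LinearMap.congr_fun hz ⟨k, hk⟩⟩
  · intro h w hw k hk hkx
    apply LinearMap.ext
    intro v
    obtain ⟨z, hz⟩ := h w v hw
    rw [← hz k hk, hkx]
    rfl

end

open RES_ in
attribute [local instance] ESL.J1X.mdl in
/-- the class version -/
theorem class_iff (hHRC : Stmt_HRC) (hFWD : Stmt_FWD) (hQLZ : Stmt_QLZ) (S : QS.QStruct)
    (hf : Finite S.G) (hneg : S.neg = 1) : QS.ElemType S ↔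
    (∀ a b c d, FEq S ⊥ a b c d → S.q a b = S.q c d) ∧
    ∀ U : Subgroup S.G, FLinked S U → ∃ x, FReg S U x := by
  have hfin : Finite (Additive S.G) := hf
  have hq := hQLZ (Additive S.G) (Zs S) S (ph S) hneg (fun _ _ => Iff.rfl)
  obtain ⟨hLZ, hEq⟩ := hq
  have hEq' : ∀ a b c d : Additive S.G, EqQ (Zs S) a b c d ↔
      S.q a.toMul b.toMul = S.q c.toMul d.toMul := hEq
  -- `ETZ` and `ElemType`
  have hET : ETZ (Zs S) ↔ QS.ElemType S := by
    constructor
    · intro h
      exact h S (qof S hneg)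
    · intro h T hT
      exact QS.ElemType.iso S T (qis_proof (Additive S.G) (Additive S.G) (Zs S) (Zs S)
        (AddEquiv.refl _) (fun _ _ => Iff.rfl) S T (qof S hneg) hT) h
  -- separation
  have hSep : Sep (Zs S) ↔ ∀ a b c d, FEq S ⊥ a b c d → S.q a b = S.q c d := by
    have hbot : ∀ k, k ∈ RZ (Zs S) ↔ k ∈ ESL.fxs (RZ (Zs S)) (sb S ⊥) := by
      intro k
      constructor
      · intro hk
        refine ⟨hk, fun w hw => ?_⟩
        have hw' : w = 0 := by
          have : w.toMul = 1 := Subgroup.mem_bot.1 hw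
          exact this
        rw [hw', map_zero]
      · exact fun h => h.1
    constructor
    · intro h a b c d hF
      rw [feq_iff] at hF
      exact (hEq' (Additive.ofMul a) (Additive.ofMul b) (Additive.ofMul c)
        (Additive.ofMul d)).1 (h _ _ _ _ fun k hk => hF k ((hbot k).1 hk))
    · intro h a b c d hk
      rw [hEq']
      apply h
      rw [feq_iff]
      exact fun k hk' => hk k ((hbot k).2 hk')
  have hL : ∀ U : Subgroup S.G, FLinked S U ↔ ESL.Linked (ESL.fxs (RZ (Zs S)) (sb S U)) := by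
    intro U
    have h1 : FLinked S U ↔ VLinked (ESL.fxs (RZ (Zs S)) (sb S U)) := by
      constructor
      · intro h a b c d hk
        obtain ⟨x, h1, h2⟩ := h a.toMul b.toMul c.toMul d.toMul ((feq_iff S U _ _ _ _).2 hk)
        exact ⟨Additive.ofMul x, (feq_iff S U _ _ _ _).1 h1, (feq_iff S U _ _ _ _).1 h2⟩
      · intro h a b c d hk
        obtain ⟨x, h1, h2⟩ := h (Additive.ofMul a) (Additive.ofMul b) (Additive.ofMul c)
          (Additive.ofMul d) ((feq_iff S U _ _ _ _).1 hk)
        exact ⟨x.toMul, (feq_iff S U _ _ _ _).2 h1, (feq_iff S U _ _ _ _).2 h2⟩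
    rw [h1]
    exact ⟨of_vlinked, vlinked_of⟩
  have hR : ∀ (U : Subgroup S.G) (x : S.G), FReg S U x ↔
      RegF (ESL.fxs (RZ (Zs S)) (sb S U)) (Additive.ofMul x) := by
    intro U x
    rw [regF_iff]
    have h0 : ∀ a b : S.G, (∀ γ, Form S U γ → γ a b = 0) ↔
        ∀ k ∈ ESL.fxs (RZ (Zs S)) (sb S U), k (Additive.ofMul a) (Additive.ofMul b) = 0 := by
      intro a b
      constructor
      · intro h k hk
        exact h _ (mem_form S hk)
      · intro h γ hγ
        obtain ⟨k, hk, e⟩ := form_mem S hγ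
        have := h k hk
        rwa [e] at this
    constructor
    · intro h w v hw
      obtain ⟨z, hz⟩ := h w.toMul v.toMul ((h0 _ _).2 hw)
      exact ⟨Additive.ofMul z, (feq_iff S U _ _ _ _).1 hz⟩
    · intro h w v hw
      obtain ⟨z, hz⟩ := h (Additive.ofMul w) (Additive.ofMul v) ((h0 _ _).1 hw)
      exact ⟨z.toMul, (feq_iff S U _ _ _ _).2 hz⟩
  have hHR : HR (Zs S) ↔ ∀ U : Subgroup S.G, FLinked S U → ∃ x, FReg S U x := by
    constructor
    · intro h U hU
      obtain ⟨x, hx⟩ := h (sb S U) ((hL U).1 hU)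
      exact ⟨x.toMul, (hR U _).2 hx⟩
    · intro h U hU
      obtain ⟨U', rfl⟩ := sb_surj S U
      obtain ⟨x, hx⟩ := h U' ((hL U').2 hU)
      exact ⟨Additive.ofMul x, (hR U' x).1 hx⟩
  rw [← hET, ← hSep, ← hHR]
  constructor
  · intro h
    obtain ⟨h1, h2, -⟩ := hFWD (Additive S.G) (Zs S) hLZ h
    exact ⟨h1, h2⟩
  · rintro ⟨h1, h2⟩
    exact hHRC (Additive S.G) (Zs S) hLZ h1 h2

end Pool.Agent.RFN
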