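import Pool.Agent.REG10.FN.RTA
import Pool.Agent.REG10.FN.RES
import Pool.Agent.REG10.FN.HRC
import Pool.Agent.ETG.QIS

/-!
REG10/FN: retracts of structures of elementary type have regular elements.
-/

set_option autoImplicit false

namespace Pool.Agent.RFN

open Module CommonSlot Pool.Agent.ETG Pool.Agent.GTW

/-- retracts of relations of elementary type have regular elements -/
theorem rtz (hFWD : Stmt_FWD) (hHRQ : Stmt_HRQ) (hRFZ : Stmt_RFZ) {V W : Type} [AddCommGroup V]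
    [Module (ZMod 2) V] [Finite V] [AddCommGroup W] [Module (ZMod 2) W] [Finite W]
    {Z : V → V → Prop} {ZW : W → W → Prop} (hZ : LZ Z) (hE : ETZ Z) (hW : LZ ZW)
    (ι : W →ₗ[ZMod 2] V) (π : V →ₗ[ZMod 2] W) (hπ : ∀ w, π (ι w) = w)
    (h1 : ∀ a b, ZW a b → Z (ι a) (ι b)) (h2 : ∀ a b, Z a b → ZW (π a) (π b)) :
    ∃ x, RegZ ZW x := by
  obtain ⟨hS, hH, -⟩ := hFWD V Z hZ hE
  have hSW : Sep ZW := by
    intro a b c d hk
    obtain ⟨x, x1, x2, x3⟩ := hS (ι a) (ι b) (ι c) (ι d) (by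
      intro k hkZ
      have hk' : k.compl₁₂ ι ι ∈ RZ ZW := fun u v huv => hkZ _ _ (h1 u v huv)
      exact hk _ hk')
    refine ⟨π x, ?_, ?_, ?_⟩
    · have := h2 _ _ x1
      rwa [map_add, hπ, hπ] at this
    · have := h2 _ _ x2
      rwa [map_add, hπ, hπ] at this
    · have := h2 _ _ x3
      rwa [map_add, hπ, hπ] at this
  have hQ : QRel Z ZW π := by
    refine ⟨fun w => ⟨ι w, hπ w⟩, h2, ?_⟩
    intro k hk hku a b hab
    have e : ∀ a, k a = k (ι (π a)) := by
      intro a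
      have h3 : k (a + ι (π a)) = 0 := by
        apply hku
        rw [map_add, hπ]
        exact ZModModule.add_self _
      rw [map_add] at h3
      rw [← sub_eq_zero, ZModModule.sub_eq_add]
      exact h3
    rw [e a, form_symm hZ hk, e b]
    exact hk _ _ (hZ.symm _ _ (h1 _ _ hab))
  have hHW : HR ZW := hHRQ V W Z ZW π hQ hH
  obtain ⟨hL, hR⟩ := hRFZ W ZW hW hSW
  obtain ⟨x, hx⟩ := hHW ⊥ (by rw [HRC_.fxs_bot]; exact hL)
  rw [HRC_.fxs_bot] at hx
  exact ⟨x, (hR x).1 hx⟩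

end Pool.Agent.RFN

namespace Pool.Agent.REG10

open QS Pool.Agent.RFN Pool.Agent.ETG

attribute [local instance] ESL.J1X.mdl

/-- **retracts of structures of elementary type have regular elements** -/
theorem hregR_of_elem (hFWD : RFN.Stmt_FWD) (hHRQ : RFN.Stmt_HRQ) (hRFZ : RFN.Stmt_RFZ)
    (hQLZ : RFN.Stmt_QLZ) (S : QStruct) [Finite S.G] (hneg : S.neg = 1) (hE : ElemType S) :
    HRegR S := by
  intro U hU
  have h4 : Lsub S U := hU.lsub
  obtain ⟨ρ, h1, h2, h3⟩ := hU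
  set T : QStruct := ESL.PRODRECX.sub S hneg U h4 with hTdef
  have hTneg : T.neg = 1 := rfl
  have hz : ∀ a b : U, T.q a b = T.zero ↔ S.q (a : S.G) (b : S.G) = S.zero :=
    ESL.PRODRECX.sub_zero_iff S hneg U h4
  have hf1 : Finite (Additive S.G) := (inferInstance : Finite S.G)
  have hf2 : Finite (Additive T.G) := (inferInstance : Finite U)
  obtain ⟨hL, hEq⟩ := hQLZ (Additive S.G) (RES_.Zs S) S (RES_.ph S) hneg (fun _ _ => Iff.rfl)
  obtain ⟨hLT, hEqT⟩ := hQLZ (Additive T.G) (RES_.Zs T) T (RES_.ph T) hTneg (fun _ _ => Iff.rfl)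
  have hET : ETZ (RES_.Zs S) := by
    intro R hR
    exact QS.ElemType.iso S R (qis_proof (Additive S.G) (Additive S.G) (RES_.Zs S) (RES_.Zs S)
      (AddEquiv.refl _) (fun _ _ => Iff.rfl) S R (RES_.qof S hneg) hR) hE
  let σ : S.G →* T.G := ρ.codRestrict U h1
  let τ : T.G →* S.G := U.subtype
  let π : Additive S.G →ₗ[ZMod 2] Additive T.G :=
    AddMonoidHom.toZModLinearMap 2 (MonoidHom.toAdditive σ)
  let ι : Additive T.G →ₗ[ZMod 2] Additive S.G :=
    AddMonoidHom.toZModLinearMap 2 (MonoidHom.toAdditive τ)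
  obtain ⟨x, hx⟩ := rtz hFWD hHRQ hRFZ (Z := RES_.Zs S) (ZW := RES_.Zs T) hL hET hLT ι π
    (fun w => Subtype.ext (h2 _ (show U from w).2))
    (fun a b hab => (hz a b).1 hab)
    (fun a b hab => (hz (σ a) (σ b)).2 (h3 a b hab))
  have hxU : (show U from x).1 ∈ U := (show U from x).2
  refine ⟨(show U from x).1, hxU, fun w hw hxw v hv => ?_⟩
  have hw' : RES_.Zs T x (show Additive T.G from (⟨w, hw⟩ : U)) := (hz _ _).2 hxw
  obtain ⟨a, ha⟩ := hx (show Additive T.G from (⟨w, hw⟩ : U))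
    (show Additive T.G from (⟨v, hv⟩ : U)) hw'
  have h5 := (hEqT _ _ _ _).1 ha
  refine ⟨(show U from a).1, (show U from a).2, ?_⟩
  exact (congrArg Subtype.val h5).symm

end Pool.Agent.REG10
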