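import Pool.Agent.REG10.FN.Defs

set_option autoImplicit false

namespace Pool.Agent.RFN

open Module CommonSlot Pool.Agent.ETG Pool.Agent.GTW
open scoped BigOperators

theorem slh_proof : Stmt_SLH := by
  intro V _ _ R U hR W b hb
  have hc : ∀ (x : (⟨W, b⟩ : V →ₗ.[ZMod 2] ESL.D V).domain)
      (y : (⟨U, 0⟩ : V →ₗ.[ZMod 2] ESL.D V).domain), (x : V) = y →
      (⟨W, b⟩ : V →ₗ.[ZMod 2] ESL.D V) x = (⟨U, 0⟩ : V →ₗ.[ZMod 2] ESL.D V) y := by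
    intro x y h
    obtain ⟨k, hk, hkx⟩ := hb x
    have h1 : k (x : V) = 0 := hk.2 _ (by rw [h]; exact y.2)
    change b x = 0
    exact hkx.symm.trans h1
  let F := (⟨W, b⟩ : V →ₗ.[ZMod 2] ESL.D V).sup ⟨U, 0⟩ hc
  have hF : ∀ (x : W) (y : U) (z : F.domain), (x : V) + y = z → F z = b x := by
    intro x y z h
    have h1 := LinearPMap.sup_apply hc x y z h
    have h2 : (⟨W, b⟩ : V →ₗ.[ZMod 2] ESL.D V) x + (⟨U, 0⟩ : V →ₗ.[ZMod 2] ESL.D V) y = b x := by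
      change b x + 0 = b x
      rw [add_zero]
    exact h1.trans h2
  obtain ⟨k, hkR, hk⟩ := hR F.domain F.toFun (by
    intro z
    obtain ⟨x, hx, y, hy, hxy⟩ := Submodule.mem_sup.1 z.2
    have h1 := hF ⟨x, hx⟩ ⟨y, hy⟩ z hxy
    obtain ⟨k, hk, hkx⟩ := hb ⟨x, hx⟩
    refine ⟨k, hk.1, ?_⟩
    have h2 : k (z : V) = k x := by
      rw [← hxy, map_add, hk.2 y hy, add_zero]
    exact h2.trans (hkx.trans h1.symm))
  refine ⟨k, ⟨hkR, ?_⟩, ?_⟩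
  · intro u hu
    have hm : u ∈ F.domain := (le_sup_right : U ≤ W ⊔ U) hu
    have h1 := hk ⟨u, hm⟩
    have h2 := hF 0 ⟨u, hu⟩ ⟨u, hm⟩ (by simp)
    exact h1.trans (h2.trans (map_zero b))
  · intro w
    have hm : (w : V) ∈ F.domain := (le_sup_left : W ≤ W ⊔ U) w.2
    have h1 := hk ⟨w, hm⟩
    have h2 := hF w 0 ⟨w, hm⟩ (by simp)
    exact h1.trans h2

end Pool.Agent.RFN
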