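import Pool.Agent.REG10.SAll
import Pool.Agent.REG10.FN.RTB
import Pool.Agent.REG10.FN.FWD
import Pool.Agent.REG10.FN.HRQ
import Pool.Agent.REG10.FN.LKZ
import Pool.Agent.REG10.FN.LZQ
import Pool.Agent.REG10.FN.QLZ
import Pool.Agent.REG10.FN.REF
import Pool.Agent.REG10.FN.RFZ
import Pool.Agent.REG10.FN.SLH
import Pool.Agent.REG10.FN.SLZ
import Pool.Agent.ESL.All

/-!
REG10/FN: a finite structure with `-1 = 1` is of elementary type if and only if all its retracts
have regular elements.
-/

set_option autoImplicit false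

namespace Pool.Agent.REG10

open QS Pool.Agent.RFN

theorem qlz : Stmt_QLZ := qlz_proof
theorem lkz : Stmt_LKZ := lkz_proof
theorem lzq : Stmt_LZQ := lzq_proof
theorem rfz : Stmt_RFZ := rfz_proof lzq lkz
theorem slz : Stmt_SLZ := slz_proof qlz
theorem fwd : Stmt_FWD := fwd_proof slz slh_proof ref_proof rfz ESL.p_MAIN

/-- **elementary type and regular elements** -/
theorem elem_iff_hregR (S : QStruct) (hf : Finite S.G) (hneg : S.neg = 1) :
    ElemType S ↔ HRegR S :=
  ⟨fun h => hregR_of_elem fwd hrq_proof rfz qlz S hneg h,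
    fun h => elem_of_hregR srgx _ S hf rfl hneg h⟩

end Pool.Agent.REG10

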