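import Pool.Agent.REG10.FN.Defs

/-!
REG10/FN, module EXB: structures of elementary type: partially bilinear functions on the zero
pairs extend to bilinear forms.
-/

set_option autoImplicit false

namespace Pool.Agent.RFN

open Module CommonSlot Pool.Agent.ETG Pool.Agent.GTW
open scoped BigOperators

namespace EXB_

section
variable {V W : Type} [AddCommGroup V] [Module (ZMod 2) V] [AddCommGroup W] [Module (ZMod 2) W]

theorem transport (Z : V → V → Prop) (Z' : W → W → Prop) (e : V ≃+ W)
    (h : ∀ a b, Z a b ↔ Z' (e a) (e b)) (hE : EXT Z') : EXT Z := by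
  have h' : ∀ a b, Z' a b → Z (e.symm a) (e.symm b) := by
    intro a b hab
    rw [h, e.apply_symm_apply, e.apply_symm_apply]
    exact hab
  intro g hg
  obtain ⟨κ, hκ⟩ := hE (fun a b => g (e.symm a) (e.symm b)) (by
    refine ⟨?_, ?_, ?_⟩
    · intro a b hab
      exact hg.symm _ _ (h' a b hab)
    · intro a b c hb hc
      show g (e.symm a) (e.symm (b + c)) = _
      rw [map_add]
      exact hg.add _ _ _ (h' a b hb) (h' a c hc)
    · intro a
      exact hg.alt _)
  refine ⟨κ.compl₁₂ (AddMonoidHom.toZModLinearMap 2 e.toAddMonoidHom)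
    (AddMonoidHom.toZModLinearMap 2 e.toAddMonoidHom), ?_⟩
  intro a b hab
  have h1 := hκ (e a) (e b) ((h a b).1 hab)
  rw [e.symm_apply_apply, e.symm_apply_apply] at h1
  exact h1

/-- bilinear form from a biadditive function -/
noncomputable def mkF (k : V → V → ZMod 2) (h1 : ∀ a a' z, k (a + a') z = k a z + k a' z)
    (h2 : ∀ a z z', k a (z + z') = k a z + k a z') : ESL.Fm V :=
  AddMonoidHom.toZModLinearMap 2
    (AddMonoidHom.mk' (fun a : V => (AddMonoidHom.toZModLinearMap 2
      (AddMonoidHom.mk' (fun z : V => k a z) fun z z' => h2 a z z') : ESL.D V)) (by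
      intro a a'
      apply LinearMap.ext
      intro z
      exact h1 a a' z))

theorem triv (hEXL : Stmt_EXL) (Z : V → V → Prop) (h : ∀ a b, Z a b) : EXT Z := by
  have h1 : EXT (fun a b : V => (0 : ESL.Fm V) a b = 0) := hEXL V 0 fun _ => rfl
  exact transport Z _ (AddEquiv.refl V) (fun a b => ⟨fun _ => rfl, fun _ => h a b⟩) h1

open Classical in
theorem loc (hEXL : Stmt_EXL) (Z : V → V → Prop) (hZ : LZ Z)
    (h : ∀ v w w', Z v w ∨ Z v w' ∨ Z v (w + w')) : EXT Z := by
  have hadd : ∀ a b c, (if Z a (b + c) then (0 : ZMod 2) else 1) =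
      (if Z a b then 0 else 1) + (if Z a c then 0 else 1) := by
    intro a b c
    by_cases hb : Z a b
    · by_cases hc : Z a c
      · rw [if_pos hb, if_pos hc, if_pos (hZ.add _ _ _ hb hc), add_zero]
      · have h3 : ¬ Z a (b + c) := by
          intro h3
          apply hc
          have h4 := hZ.add _ _ _ hb h3
          rw [← add_assoc, ZModModule.add_self, zero_add] at h4
          exact h4
        rw [if_pos hb, if_neg hc, if_neg h3, zero_add]
    · by_cases hc : Z a c
      · have h3 : ¬ Z a (b + c) := by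
          intro h3
          apply hb
          have h4 := hZ.add _ _ _ h3 hc
          rw [add_assoc, ZModModule.add_self, add_zero] at h4
          exact h4
        rw [if_neg hb, if_pos hc, if_neg h3, add_zero]
      · have h3 : Z a (b + c) := by
          rcases h a b c with h3 | h3 | h3
          · exact absurd h3 hb
          · exact absurd h3 hc
          · exact h3
        rw [if_neg hb, if_neg hc, if_pos h3]
        exact (CharTwo.add_self_eq_zero 1).symm
  have hsymm : ∀ a b, (if Z a b then (0 : ZMod 2) else 1) = (if Z b a then 0 else 1) := by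
    intro a b
    by_cases hb : Z a b
    · rw [if_pos hb, if_pos (hZ.symm _ _ hb)]
    · rw [if_neg hb, if_neg fun h3 => hb (hZ.symm _ _ h3)]
  let ω : ESL.Fm V := mkF (fun a b => if Z a b then (0 : ZMod 2) else 1) (by
    intro a a' z
    show (if Z (a + a') z then (0 : ZMod 2) else 1) =
      (if Z a z then 0 else 1) + (if Z a' z then 0 else 1)
    rw [hsymm (a + a') z, hsymm a z, hsymm a' z]
    exact hadd z a a') (by
    intro a z z'
    exact hadd a z z')
  have hω : ∀ a b, ω a b = if Z a b then (0 : ZMod 2) else 1 := fun a b => rfl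
  have h1 : EXT (fun a b : V => ω a b = 0) := hEXL V ω (by
    intro a
    rw [hω, if_pos (hZ.alt a)])
  refine transport Z _ (AddEquiv.refl V) (fun a b => ?_) h1
  show Z a b ↔ ω a b = 0
  rw [hω]
  by_cases hab : Z a b
  · rw [if_pos hab]
    exact ⟨fun _ => rfl, fun _ => hab⟩
  · rw [if_neg hab]
    exact ⟨fun h3 => absurd h3 hab, fun h3 => absurd h3 one_ne_zero⟩

end

/-- the quaternions of a structure all vanish -/
theorem all_zero (hEXL : Stmt_EXL) {S : QS.QStruct} (h : ∀ a b, S.q a b = S.zero) {V : Type}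
    [AddCommGroup V] [Module (ZMod 2) V] {Z : V → V → Prop} (hQ : QOf Z S) : EXT Z := by
  obtain ⟨_, φ, hφ⟩ := hQ
  exact triv hEXL Z fun a b => (hφ a b).1 (h _ _)

theorem of_loc (hQLZ : Stmt_QLZ) (hEXL : Stmt_EXL) (S : QS.QStruct)
    (h2 : Nat.card S.Q = 2) {V : Type}
    [AddCommGroup V] [Module (ZMod 2) V] (Z : V → V → Prop) (hQ : QOf Z S) : EXT Z := by
  obtain ⟨hneg, φ, hφ⟩ := hQ
  have hLZ : LZ Z := (hQLZ V Z S φ hneg hφ).1
  refine loc hEXL Z hLZ ?_
  intro v w w'
  by_cases hw : Z v w
  · exact Or.inl hw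
  by_cases hw' : Z v w'
  · exact Or.inr (Or.inl hw')
  refine Or.inr (Or.inr ?_)
  have e1 : S.q (φ (Multiplicative.ofAdd v)) (φ (Multiplicative.ofAdd w)) ≠ S.zero :=
    fun h => hw ((hφ _ _).1 h)
  have e2 : S.q (φ (Multiplicative.ofAdd v)) (φ (Multiplicative.ofAdd w')) ≠ S.zero :=
    fun h => hw' ((hφ _ _).1 h)
  have e3 : S.q (φ (Multiplicative.ofAdd v)) (φ (Multiplicative.ofAdd w)) =
      S.q (φ (Multiplicative.ofAdd v)) (φ (Multiplicative.ofAdd w')) := by
    obtain ⟨x, y, hxy, huniv⟩ := Nat.card_eq_two_iff.1 h2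
    have key : ∀ z : S.Q, z = x ∨ z = y := by
      intro z
      have hz : z ∈ ({x, y} : Set S.Q) := by rw [huniv]; trivial
      exact hz
    rcases key S.zero with h0 | h0 <;>
      rcases key (S.q (φ (Multiplicative.ofAdd v)) (φ (Multiplicative.ofAdd w))) with ha | ha <;>
      rcases key (S.q (φ (Multiplicative.ofAdd v)) (φ (Multiplicative.ofAdd w'))) with hb | hb <;>
      first
      | (exact absurd (ha.trans h0.symm) e1)
      | (exact absurd (hb.trans h0.symm) e2)
      | (exact ha.trans hb.symm)
  rw [← hφ v (w + w'), ofAdd_add, map_mul]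
  exact (S.qs3 _ _ _).1 e3

/-- the two-element group in additive notation -/
theorem coord {G : Type} [CommGroup G] (hG : ∀ a : G, a * a = 1) [Module (ZMod 2) (Additive G)]
    (a b : G) (α β : Multiplicative (ZMod 2)) :
    (β.toAdd • Additive.ofMul a + α.toAdd • Additive.ofMul b = 0 ↔
      a ^ (Multiplicative.toAdd β).val * b ^ (Multiplicative.toAdd α).val = 1) := by
  rcases QS.two_cases α with rfl | rfl <;> rcases QS.two_cases β with rfl | rfl
  · simp
  · rw [toAdd_one, zero_smul, add_zero, toAdd_ofAdd, one_smul, ZMod.val_one, pow_one, ZMod.val_zero,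
      pow_zero, mul_one]
    exact Iff.rfl
  · rw [toAdd_one, zero_smul, zero_add, toAdd_ofAdd, one_smul, ZMod.val_one, pow_one, ZMod.val_zero,
      pow_zero, one_mul]
    exact Iff.rfl
  · rw [toAdd_ofAdd, one_smul, one_smul, ZMod.val_one, pow_one, pow_one]
    exact Iff.rfl

end EXB_

open EXB_ in
theorem exb_proof (hQLZ : Stmt_QLZ) (hEXL : Stmt_EXL) (hEXP : Stmt_EXP) (hEXE : Stmt_EXE) :
    Stmt_EXB := by
  intro S hS
  induction hS with
  | L0 S h =>
    intro hneg V _ _ Z hQ
    refine all_zero hEXL (S := S) ?_ hQ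
    intro a b
    haveI : Subsingleton S.G := (Nat.card_eq_one_iff_unique.1 h).1
    rw [Subsingleton.elim b 1]
    exact S.q_one a
  | L10 S h h1 h2 =>
    intro hneg V _ _ Z hQ
    exact all_zero hEXL h2 hQ
  | L11 S h h1 h2 =>
    intro hneg
    exact absurd hneg h1
  | L1 S h h1 h2 =>
    intro hneg
    exact absurd hneg h1
  | loc S hf h h1 h2 =>
    intro hneg V _ _ Z hQ
    exact of_loc hQLZ hEXL S h2 Z hQ
  | prod S T _ _ ihS ihT =>
    intro hneg V _ _ Z hQ
    have hSn : S.neg = 1 := congrArg Prod.fst hneg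
    have hTn : T.neg = 1 := congrArg Prod.snd hneg
    letI : Module (ZMod 2) (Additive S.G) := AddCommGroup.zmodModule (by
      intro x
      rw [two_nsmul]
      exact S.exp_two x.toMul)
    letI : Module (ZMod 2) (Additive T.G) := AddCommGroup.zmodModule (by
      intro x
      rw [two_nsmul]
      exact T.exp_two x.toMul)
    obtain ⟨_, φ, hφ⟩ := hQ
    have hQS : QOf (fun a b : Additive S.G => S.q a.toMul b.toMul = S.zero) S :=
      ⟨hSn, MulEquiv.refl S.G, fun a b => Iff.rfl⟩
    have hQT : QOf (fun a b : Additive T.G => T.q a.toMul b.toMul = T.zero) T :=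
      ⟨hTn, MulEquiv.refl T.G, fun a b => Iff.rfl⟩
    have hLS := (hQLZ _ _ S hQS.2.choose hSn hQS.2.choose_spec).1
    have hLT := (hQLZ _ _ T hQT.2.choose hTn hQT.2.choose_spec).1
    have hp := hEXP (Additive S.G) (Additive T.G) _ _ hLS hLT (ihS hSn _ _ hQS) (ihT hTn _ _ hQT)
    let e : V ≃+ Additive S.G × Additive T.G :=
      { toFun := fun v => (Additive.ofMul (φ (Multiplicative.ofAdd v)).1,
          Additive.ofMul (φ (Multiplicative.ofAdd v)).2)
        invFun := fun u => (φ.symm ((u.1.toMul, u.2.toMul) : S.G × T.G)).toAdd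
        left_inv := by
          intro v
          show (φ.symm (φ (Multiplicative.ofAdd v))).toAdd = v
          rw [MulEquiv.symm_apply_apply]
          rfl
        right_inv := by
          intro u
          have h1 : φ (φ.symm ((u.1.toMul, u.2.toMul) : S.G × T.G)) =
            ((u.1.toMul, u.2.toMul) : S.G × T.G) := MulEquiv.apply_symm_apply _ _
          refine Prod.ext ?_ ?_
          · exact congrArg Prod.fst h1
          · exact congrArg Prod.snd h1
        map_add' := by
          intro v w
          have h1 : φ (Multiplicative.ofAdd (v + w)) =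
            φ (Multiplicative.ofAdd v) * φ (Multiplicative.ofAdd w) := by
            rw [ofAdd_add, map_mul]
          refine Prod.ext ?_ ?_
          · exact congrArg Prod.fst h1
          · exact congrArg Prod.snd h1 }
    refine transport Z _ e ?_ hp
    intro a b
    rw [← hφ a b]
    exact Prod.ext_iff
  | ext S _ ihS =>
    intro hneg V _ _ Z hQ
    have hSn : S.neg = 1 := congrArg Prod.fst hneg
    letI : Module (ZMod 2) (Additive S.G) := AddCommGroup.zmodModule (by
      intro x
      rw [two_nsmul]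
      exact S.exp_two x.toMul)
    obtain ⟨_, φ, hφ⟩ := hQ
    have hQS : QOf (fun a b : Additive S.G => S.q a.toMul b.toMul = S.zero) S :=
      ⟨hSn, MulEquiv.refl S.G, fun a b => Iff.rfl⟩
    have hLS := (hQLZ _ _ S hQS.2.choose hSn hQS.2.choose_spec).1
    have hp := hEXE (Additive S.G) _ hLS (ihS hSn _ _ hQS)
    let e : V ≃+ Additive S.G × ZMod 2 :=
      { toFun := fun v => (Additive.ofMul (φ (Multiplicative.ofAdd v)).1,
          (φ (Multiplicative.ofAdd v)).2.toAdd)
        invFun := fun u => (φ.symm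
          ((u.1.toMul, Multiplicative.ofAdd u.2) : S.G × Multiplicative (ZMod 2))).toAdd
        left_inv := by
          intro v
          show (φ.symm (φ (Multiplicative.ofAdd v))).toAdd = v
          rw [MulEquiv.symm_apply_apply]
          rfl
        right_inv := by
          intro u
          have h1 : φ (φ.symm ((u.1.toMul, Multiplicative.ofAdd u.2) :
              S.G × Multiplicative (ZMod 2))) =
            ((u.1.toMul, Multiplicative.ofAdd u.2) : S.G × Multiplicative (ZMod 2)) :=
            MulEquiv.apply_symm_apply _ _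
          refine Prod.ext ?_ ?_
          · exact congrArg Prod.fst h1
          · exact congrArg Prod.snd h1
        map_add' := by
          intro v w
          have h1 : φ (Multiplicative.ofAdd (v + w)) =
            φ (Multiplicative.ofAdd v) * φ (Multiplicative.ofAdd w) := by
            rw [ofAdd_add, map_mul]
          refine Prod.ext ?_ ?_
          · exact congrArg Prod.fst h1
          · exact congrArg Prod.snd h1 }
    refine transport Z _ e ?_ hp
    intro a b
    rw [← hφ a b]
    obtain ⟨u, hu⟩ : ∃ u : S.G × Multiplicative (ZMod 2),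
      φ (Multiplicative.ofAdd a) = u := ⟨_, rfl⟩
    obtain ⟨v, hv⟩ : ∃ u : S.G × Multiplicative (ZMod 2),
      φ (Multiplicative.ofAdd b) = u := ⟨_, rfl⟩
    have hz : (QS.ext S).q u v = (QS.ext S).zero ↔ QS.extMap S u v = (S.zero, 1) :=
      Subtype.ext_iff
    have ha : e a = (Additive.ofMul u.1, u.2.toAdd) := by
      show (Additive.ofMul (φ (Multiplicative.ofAdd a)).1, (φ (Multiplicative.ofAdd a)).2.toAdd) = _
      rw [hu]
    have hb : e b = (Additive.ofMul v.1, v.2.toAdd) := by
      show (Additive.ofMul (φ (Multiplicative.ofAdd b)).1, (φ (Multiplicative.ofAdd b)).2.toAdd) = _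
      rw [hv]
    rw [ha, hb, hu, hv, hz]
    have h1 := coord S.exp_two u.1 v.1 u.2 v.2
    have h2 : QS.extMap S u v = (S.q u.1 v.1, u.1 ^ (Multiplicative.toAdd v.2).val *
        v.1 ^ (Multiplicative.toAdd u.2).val) := by
      show (S.q u.1 v.1, S.neg ^ _ * u.1 ^ _ * v.1 ^ _) = _
      rw [hSn, one_pow, one_mul]
    rw [h2, Prod.mk.injEq]
    exact and_congr Iff.rfl h1.symm
  | iso S T hiso _ ih =>
    intro hneg V _ _ Z hQ
    obtain ⟨_, ψ, hψ⟩ := hQ
    obtain ⟨φ, hφn, hφ⟩ := hiso
    have hSn : S.neg = 1 := by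
      apply φ.injective
      rw [hφn, hneg, map_one]
    refine ih hSn V Z ⟨hSn, ψ.trans φ.symm, ?_⟩
    intro a b
    rw [← hψ a b]
    have h1 := hφ (φ.symm (ψ (Multiplicative.ofAdd a))) (φ.symm (ψ (Multiplicative.ofAdd b))) 1 1
    rw [S.q_one, map_one, T.q_one, MulEquiv.apply_symm_apply, MulEquiv.apply_symm_apply] at h1
    exact h1

end Pool.Agent.RFN
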