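import Pool.Agent.REG10.FN.Defs

/-!
REG10/FN, module EXE: partially bilinear functions on group extensions extend.
-/

set_option autoImplicit false

namespace Pool.Agent.RFN

open Module CommonSlot Pool.Agent.ETG Pool.Agent.GTW

theorem exe_proof : Stmt_EXE := by
  intro U _ _ ZU hZ hE g hg
  have z0 : ∀ a b : U, ZU a b → (ZU (a, (0 : ZMod 2)).1 (b, (0 : ZMod 2)).1 ∧
      (b, (0 : ZMod 2)).2 • (a, (0 : ZMod 2)).1 + (a, (0 : ZMod 2)).2 • (b, (0 : ZMod 2)).1 = 0) := by
    intro a b h
    exact ⟨h, by simp⟩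
  have hU : PB ZU (fun a b => g (a, 0) (b, 0)) := by
    refine ⟨?_, ?_, ?_⟩
    · intro a b h
      exact hg.symm (a, 0) (b, 0) (z0 a b h)
    · intro a b c h h'
      have := hg.add (a, 0) (b, 0) (c, 0) (z0 a b h) (z0 a c h')
      simpa using this
    · intro a
      exact hg.alt (a, 0)
  obtain ⟨κ, hκ⟩ := hE _ hU
  -- values at zero
  have g0 : ∀ a : U × ZMod 2, g a 0 = 0 := by
    intro a
    have hz : ZU a.1 (0 : U × ZMod 2).1 ∧
        (0 : U × ZMod 2).2 • a.1 + a.2 • (0 : U × ZMod 2).1 = 0 :=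
      ⟨hZ.zero a.1, by simp⟩
    have := hg.add a 0 0 hz hz
    rw [add_zero] at this
    exact left_eq_add.1 this
  refine ⟨(κ.compl₁₂ (LinearMap.fst (ZMod 2) U (ZMod 2)) (LinearMap.fst (ZMod 2) U (ZMod 2))), ?_⟩
  rintro ⟨a, α⟩ ⟨b, β⟩ ⟨h1, h2⟩
  simp only at h1 h2
  show κ a b = g (a, α) (b, β)
  have hab : κ a b = g (a, 0) (b, 0) := hκ a b h1
  rcases zm α with rfl | rfl
  · rcases zm β with rfl | rfl
    · exact hab
    · -- `a = 0`
      have ha : a = 0 := by simpa using h2
      subst ha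
      have hs : g ((0 : U), (0 : ZMod 2)) (b, 1) = g (b, 1) ((0 : U), (0 : ZMod 2)) := by
        apply hg.symm
        exact ⟨h1, by simp⟩
      rw [hs]
      have := g0 (b, 1)
      rw [map_zero, LinearMap.zero_apply]
      exact this.symm
  · rcases zm β with rfl | rfl
    · have hb : b = 0 := by simpa using h2
      subst hb
      rw [map_zero]
      exact (g0 (a, 1)).symm
    · have hb : a = b := by
        have h3 : a + b = 0 := by simpa using h2
        rw [← sub_eq_zero, ZModModule.sub_eq_add]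
        exact h3
      subst hb
      rw [hab, hg.alt, hg.alt]

end Pool.Agent.RFN
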