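import Pool.Agent.REG10.FN.Defs

/-!
REG10/FN, module EXL: bilinear on the zero pairs of an alternating form, extension to a bilinear
form.
-/

set_option autoImplicit false

namespace Pool.Agent.RFN

namespace EXL_

theorem z2 (t : ZMod 2) : t = 0 ∨ t = 1 := by
  revert t; decide

theorem tt (t : ZMod 2) : t + t = 0 := CharTwo.add_self_eq_zero t

section
variable {V : Type} [AddCommGroup V] [Module (ZMod 2) V]

theorem vv (v : V) : v + v = 0 := ZModModule.add_self v

/-- bilinear form from a biadditive function -/
noncomputable def mkF (k : V → V → ZMod 2) (h1 : ∀ a a' z, k (a + a') z = k a z + k a' z)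
    (h2 : ∀ a z z', k a (z + z') = k a z + k a z') : ESL.Fm V :=
  AddMonoidHom.toZModLinearMap 2
    (AddMonoidHom.mk' (fun a : V => (AddMonoidHom.toZModLinearMap 2
      (AddMonoidHom.mk' (fun z : V => k a z) fun z z' => h2 a z z') : ESL.D V)) (by
      intro a a'
      apply LinearMap.ext
      intro z
      exact h1 a a' z))

theorem mkF_apply (k : V → V → ZMod 2) (h1 : ∀ a a' z, k (a + a') z = k a z + k a' z)
    (h2 : ∀ a z z', k a (z + z') = k a z + k a z') (a z : V) : mkF k h1 h2 a z = k a z := rfl

variable (ω : ESL.Fm V)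

theorem osym (hω : ∀ a, ω a a = 0) (a b : V) : ω a b = ω b a := by
  have h := hω (a + b)
  rw [map_add ω, LinearMap.add_apply, map_add (ω a), map_add (ω b), hω, hω, zero_add,
    add_zero] at h
  exact CharTwo.add_eq_zero.1 h

/-- linear extension of `g a` from the hyperplane `ω a = 0`, with the value `k` at `c` -/
def E (g : V → V → ZMod 2) (a c : V) (k : ZMod 2) (z : V) : ZMod 2 :=
  if ω a z = 0 then g a z else g a (z + c) + k

variable {ω} {g : V → V → ZMod 2}

theorem E0 {a c : V} {k : ZMod 2} {z : V} (h : ω a z = 0) : E ω g a c k z = g a z := if_pos h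

theorem E1 {a c : V} {k : ZMod 2} {z : V} (h : ω a z = 1) : E ω g a c k z = g a (z + c) + k :=
  if_neg (by rw [h]; decide)

theorem Eadd (hg : PB (fun a b => ω a b = 0) g) {a c : V} (hc : ω a c = 1) (k : ZMod 2)
    (z z' : V) : E ω g a c k (z + z') = E ω g a c k z + E ω g a c k z' := by
  rcases z2 (ω a z) with h | h <;> rcases z2 (ω a z') with h' | h'
  · rw [E0 h, E0 h', E0 (by rw [map_add, h, h', add_zero])]
    exact hg.add a z z' h h'
  · rw [E0 h, E1 h', E1 (by rw [map_add, h, h', zero_add])]
    have e := hg.add a z (z' + c) h (by rw [map_add, h', hc]; decide)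
    rw [← add_assoc] at e
    rw [e]; ring
  · rw [E1 h, E0 h', E1 (by rw [map_add, h, h', add_zero])]
    have e := hg.add a (z + c) z' (by rw [map_add, h, hc]; decide) h'
    rw [show z + z' + c = z + c + z' by abel, e]; ring
  · rw [E1 h, E1 h', E0 (by rw [map_add, h, h']; decide)]
    have e := hg.add a (z + c) (z' + c) (by rw [map_add, h, hc]; decide)
      (by rw [map_add, h', hc]; decide)
    rw [show z + c + (z' + c) = z + z' + (c + c) by abel, vv, add_zero] at e
    rw [e]
    rw [show g a (z + c) + k + (g a (z' + c) + k) = g a (z + c) + g a (z' + c) + (k + k) by ring,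
      tt, add_zero]

end

section
variable {V : Type} [AddCommGroup V] [Module (ZMod 2) V] {ω : ESL.Fm V} {g : V → V → ZMod 2}

/-- additivity in the first argument -/
theorem addl (hω : ∀ a, ω a a = 0) (hg : PB (fun a b => ω a b = 0) g) {a b z : V}
    (ha : ω a z = 0) (hb : ω b z = 0) : g (a + b) z = g a z + g b z := by
  have ha' : ω z a = 0 := by rw [osym ω hω]; exact ha
  have hb' : ω z b = 0 := by rw [osym ω hω]; exact hb
  have h : ω (a + b) z = 0 := by rw [map_add, LinearMap.add_apply, ha, hb, add_zero]
  rw [hg.symm _ _ h, hg.add z a b ha' hb', hg.symm _ _ ha', hg.symm _ _ hb']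

theorem exl (hω : ∀ a, ω a a = 0) (hg : PB (fun a b => ω a b = 0) g) {e f₀ : V}
    (hef : ω e f₀ = 1) : ∃ κ : ESL.Fm V, ∀ a b, ω a b = 0 → κ a b = g a b := by
  classical
  have os := osym ω hω
  -- the functional `ℓ`
  let ℓ : V → ZMod 2 := E ω g e f₀ 0
  have hℓadd : ∀ z z', ℓ (z + z') = ℓ z + ℓ z' := fun z z' => Eadd hg hef 0 z z'
  have hℓ0 : ∀ z, ω e z = 0 → ℓ z = g e z := fun z h => E0 h
  -- the functionals `K f`
  let K : V → V → ZMod 2 := fun f z => E ω g f e (ℓ f) z
  have hKadd : ∀ f, ω e f = 1 → ∀ z z', K f (z + z') = K f z + K f z' := by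
    intro f hf z z'
    exact Eadd hg (by rw [os]; exact hf) (ℓ f) z z'
  have K0 : ∀ f z, ω f z = 0 → K f z = g f z := fun f z h => E0 h
  have K1 : ∀ f z, ω f z = 1 → K f z = g f (z + e) + ℓ f := fun f z h => E1 h
  -- pairs
  have pair : ∀ f y z, ω e f = 1 → ω e y = 0 → ω y z = 0 → K f z + K (f + y) z = g y z := by
    intro f y z hf hy hyz
    have hfe : ω f e = 1 := by rw [os]; exact hf
    have hye : ω y e = 0 := by rw [os]; exact hy
    rcases z2 (ω f z) with h | h
    · have h' : ω (f + y) z = 0 := by rw [map_add, LinearMap.add_apply, h, hyz, add_zero]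
      rw [K0 _ _ h, K0 _ _ h', addl hω hg h hyz, ← add_assoc, tt, zero_add]
    · have h' : ω (f + y) z = 1 := by rw [map_add, LinearMap.add_apply, h, hyz, add_zero]
      have a1 : ω f (z + e) = 0 := by rw [map_add, h, hfe]; decide
      have a2 : ω y (z + e) = 0 := by rw [map_add, hyz, hye]; decide
      rw [K1 _ _ h, K1 _ _ h', addl hω hg a1 a2, hg.add y z e hyz hye, hℓadd, hℓ0 y hy,
        hg.symm y e hye]
      generalize g f (z + e) = A
      generalize ℓ f = B
      generalize g y z = C
      generalize g e y = D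
      revert A B C D; decide
  -- the mixed case
  have mix : ∀ f f' y z, ω e f = 1 → ω e f' = 1 → ω e y = 0 → ω f z = 0 → ω f' z = 0 →
      ω y z = 1 → K f z + K (f + y) z + (K f' z + K (f' + y) z) = 0 := by
    intro f f' y z hf hf' hy h h' hyz
    have hfe : ω f e = 1 := by rw [os]; exact hf
    have hfe' : ω f' e = 1 := by rw [os]; exact hf'
    have hye : ω y e = 0 := by rw [os]; exact hy
    have b1 : ω (f + y) z = 1 := by rw [map_add, LinearMap.add_apply, h, hyz, zero_add]
    have b2 : ω (f' + y) z = 1 := by rw [map_add, LinearMap.add_apply, h', hyz, zero_add]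
    have c1 : ω (f + y) (z + e) = 0 := by
      rw [map_add, b1, map_add, LinearMap.add_apply, hfe, hye]; decide
    have c2 : ω (f' + y) (z + e) = 0 := by
      rw [map_add, b2, map_add, LinearMap.add_apply, hfe', hye]; decide
    have d0 : ω (f + f') z = 0 := by rw [map_add, LinearMap.add_apply, h, h', add_zero]
    have de : ω (f + f') e = 0 := by rw [map_add, LinearMap.add_apply, hfe, hfe']; decide
    have de' : ω e (f + f') = 0 := by rw [os]; exact de
    have e1 : g f z + g f' z = g (f + f') z := (addl hω hg h h').symm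
    have e2 : g (f + y) (z + e) + g (f' + y) (z + e) = g (f + f') (z + e) := by
      rw [← addl hω hg c1 c2, show f + y + (f' + y) = f + f' + (y + y) by abel, vv, add_zero]
    have e3 : g (f + f') (z + e) = g (f + f') z + g (f + f') e := hg.add _ z e d0 de
    have e4 : ℓ (f + y) + ℓ (f' + y) = g (f + f') e := by
      rw [← hℓadd, show f + y + (f' + y) = f + f' + (y + y) by abel, vv, add_zero, hℓ0 _ de',
        hg.symm _ _ de']
    rw [K0 _ _ h, K0 _ _ h', K1 _ _ b1, K1 _ _ b2]
    calc g f z + (g (f + y) (z + e) + ℓ (f + y)) + (g f' z + (g (f' + y) (z + e) + ℓ (f' + y)))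
        = (g f z + g f' z) + (g (f + y) (z + e) + g (f' + y) (z + e)) + (ℓ (f + y) + ℓ (f' + y)) := by
          ring
      _ = 0 := by
          rw [e1, e2, e3, e4]
          generalize g (f + f') z = A
          generalize g (f + f') e = B
          revert A B; decide
  have four : ∀ f f' y z, ω e f = 1 → ω e f' = 1 → ω e y = 0 →
      K f z + K (f + y) z + (K f' z + K (f' + y) z) = 0 := by
    intro f f' y z hf hf' hy
    rcases z2 (ω y z) with hyz | hyz
    · rw [pair f y z hf hy hyz, pair f' y z hf' hy hyz, tt]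
    · have sw : ∀ f, ω e f = 1 → ∃ p, ω e p = 1 ∧ ω p z = 0 ∧
          K f z + K (f + y) z = K p z + K (p + y) z := by
        intro f hf
        rcases z2 (ω f z) with h | h
        · exact ⟨f, hf, h, rfl⟩
        · refine ⟨f + y, by rw [map_add, hf, hy, add_zero], ?_, ?_⟩
          · rw [map_add, LinearMap.add_apply, h, hyz]; decide
          · rw [show f + y + y = f + (y + y) by abel, vv, add_zero, add_comm]
      obtain ⟨p, p1, p2, p3⟩ := sw f hf
      obtain ⟨p', p1', p2', p3'⟩ := sw f' hf'
      rw [p3, p3']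
      exact mix p p' y z p1 p1' hy p2 p2' hyz
  -- the form
  let k : V → V → ZMod 2 := fun a z => if ω e a = 0 then K f₀ z + K (f₀ + a) z else K a z
  have k0 : ∀ a z, ω e a = 0 → k a z = K f₀ z + K (f₀ + a) z := fun a z h => if_pos h
  have k1 : ∀ a z, ω e a = 1 → k a z = K a z := fun a z h => if_neg (by rw [h]; decide)
  have kadd2 : ∀ a z z', k a (z + z') = k a z + k a z' := by
    intro a z z'
    rcases z2 (ω e a) with h | h
    · rw [k0 _ _ h, k0 _ _ h, k0 _ _ h, hKadd f₀ hef,
        hKadd (f₀ + a) (by rw [map_add, hef, h, add_zero])]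
      ring
    · rw [k1 _ _ h, k1 _ _ h, k1 _ _ h, hKadd a h]
  have kadd1 : ∀ a a' z, k (a + a') z = k a z + k a' z := by
    intro a a' z
    rcases z2 (ω e a) with h | h <;> rcases z2 (ω e a') with h' | h'
    · rw [k0 _ _ h, k0 _ _ h', k0 _ _ (by rw [map_add, h, h', add_zero])]
      have e := four f₀ (f₀ + a) a' z hef (by rw [map_add, hef, h, add_zero]) h'
      rw [add_assoc f₀ a a'] at e
      revert e
      generalize K f₀ z = A
      generalize K (f₀ + a') z = B
      generalize K (f₀ + a) z = C
      generalize K (f₀ + (a + a')) z = D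
      revert A B C D; decide
    · rw [k0 _ _ h, k1 _ _ h', k1 _ _ (by rw [map_add, h, h', zero_add])]
      have e := four f₀ a' a z hef h' h
      rw [add_comm a' a] at e
      revert e
      generalize K f₀ z = A
      generalize K (f₀ + a) z = B
      generalize K a' z = C
      generalize K (a + a') z = D
      revert A B C D; decide
    · rw [k1 _ _ h, k0 _ _ h', k1 _ _ (by rw [map_add, h, h', add_zero])]
      have e := four f₀ a a' z hef h h'
      revert e
      generalize K f₀ z = A
      generalize K (f₀ + a') z = B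
      generalize K a z = C
      generalize K (a + a') z = D
      revert A B C D; decide
    · have hs : ω e (a + a') = 0 := by rw [map_add, h, h']; decide
      rw [k1 _ _ h, k1 _ _ h', k0 _ _ hs]
      have e := four f₀ a (a + a') z hef h hs
      rw [show a + (a + a') = a + a + a' by abel, vv, zero_add] at e
      revert e
      generalize K f₀ z = A
      generalize K (f₀ + (a + a')) z = B
      generalize K a z = C
      generalize K a' z = D
      revert A B C D; decide
  refine ⟨mkF k kadd1 kadd2, ?_⟩
  intro a b hab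
  rw [mkF_apply]
  rcases z2 (ω e a) with h | h
  · rw [k0 _ _ h]
    exact pair f₀ a b hef h hab
  · rw [k1 _ _ h]
    exact K0 _ _ hab

end

end EXL_

open EXL_ in
theorem exl_proof : Stmt_EXL := by
  intro V _ _ ω hω g hg
  by_cases h0 : ∃ e f : V, ω e f = 1
  · obtain ⟨e, f, hef⟩ := h0
    exact exl hω hg hef
  · have hz : ∀ a b : V, ω a b = 0 := by
      intro a b
      rcases z2 (ω a b) with h | h
      · exact h
      · exact absurd ⟨a, b, h⟩ h0
    refine ⟨mkF g (fun a a' z => addl hω hg (hz _ _) (hz _ _))
      (fun a z z' => hg.add a z z' (hz _ _) (hz _ _)), ?_⟩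
    intro a b _
    rfl

end Pool.Agent.RFN
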