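import Pool.Agent.REG10.FN.Defs

set_option autoImplicit false

namespace Pool.Agent.RFN

open Module CommonSlot Pool.Agent.ETG Pool.Agent.GTW
open scoped BigOperators

namespace EXP_

theorem smul2 {V : Type} [AddCommGroup V] [Module (ZMod 2) V] (f : V → ZMod 2)
    (h : ∀ a b, f (a + b) = f a + f b) (c : ZMod 2) (v : V) : f (c • v) = c * f v := by
  have h0 : f 0 = 0 := by
    have := h 0 0
    rw [add_zero] at this
    exact left_eq_add.1 this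
  have hc : c = 0 ∨ c = 1 := by
    revert c
    decide
  rcases hc with rfl | rfl
  · rw [zero_smul, zero_mul, h0]
  · rw [one_smul, one_mul]

end EXP_

theorem exp_proof : Stmt_EXP := by
  intro U U' _ _ _ _ ZU ZU' hU hU' hE hE' g hg
  have z0 : ∀ a, ZU 0 a := fun a => hU.symm _ _ (hU.zero a)
  have z0' : ∀ a, ZU' 0 a := fun a => hU'.symm _ _ (hU'.zero a)
  obtain ⟨κ, hκ⟩ := hE (fun a b => g (a, 0) (b, 0))
    { symm := fun a b h => hg.symm _ _ ⟨h, hU'.zero 0⟩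
      add := fun a b c hb hc => by
        have h := hg.add (a, 0) (b, 0) (c, 0) ⟨hb, hU'.zero 0⟩ ⟨hc, hU'.zero 0⟩
        rw [Prod.mk_add_mk, add_zero] at h
        exact h
      alt := fun a => hg.alt _ }
  obtain ⟨κ', hκ'⟩ := hE' (fun a b => g (0, a) (0, b))
    { symm := fun a b h => hg.symm _ _ ⟨hU.zero 0, h⟩
      add := fun a b c hb hc => by
        have h := hg.add (0, a) (0, b) (0, c) ⟨hU.zero 0, hb⟩ ⟨hU.zero 0, hc⟩
        rw [Prod.mk_add_mk, add_zero] at h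
        exact h
      alt := fun a => hg.alt _ }
  -- additivity of the cross terms
  have c1 : ∀ (a : U) (b b' : U'), g (a, 0) (0, b + b') = g (a, 0) (0, b) + g (a, 0) (0, b') := by
    intro a b b'
    have h := hg.add (a, 0) (0, b) (0, b') ⟨hU.zero a, z0' b⟩ ⟨hU.zero a, z0' b'⟩
    rw [Prod.mk_add_mk, add_zero] at h
    exact h
  have c2 : ∀ (a a' : U) (b : U'), g (a + a', 0) (0, b) = g (a, 0) (0, b) + g (a', 0) (0, b) := by
    intro a a' b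
    have h := hg.add (0, b) (a, 0) (a', 0) ⟨z0 a, hU'.zero b⟩ ⟨z0 a', hU'.zero b⟩
    rw [Prod.mk_add_mk, add_zero] at h
    rw [hg.symm (0, b) (a + a', 0) ⟨z0 _, hU'.zero b⟩, hg.symm (0, b) (a, 0) ⟨z0 _, hU'.zero b⟩,
      hg.symm (0, b) (a', 0) ⟨z0 _, hU'.zero b⟩] at h
    exact h
  let γ : U →ₗ[ZMod 2] U' →ₗ[ZMod 2] ZMod 2 := LinearMap.mk₂ (ZMod 2) (fun a b => g (a, 0) (0, b))
    (fun a a' b => c2 a a' b)
    (fun c a b => EXP_.smul2 (fun a => g (a, 0) (0, b)) (fun a a' => c2 a a' b) c a)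
    (fun a b b' => c1 a b b')
    (fun c a b => EXP_.smul2 (fun b => g (a, 0) (0, b)) (fun b b' => c1 a b b') c b)
  have hγ : ∀ a b, γ a b = g (a, 0) (0, b) := fun a b => rfl
  let p : U × U' →ₗ[ZMod 2] U := LinearMap.fst (ZMod 2) U U'
  let p' : U × U' →ₗ[ZMod 2] U' := LinearMap.snd (ZMod 2) U U'
  refine ⟨κ.compl₁₂ p p + κ'.compl₁₂ p' p' + γ.compl₁₂ p p' + γ.flip.compl₁₂ p' p, ?_⟩
  rintro ⟨a, a'⟩ ⟨b, b'⟩ ⟨h, h'⟩
  change ZU a b at h
  change ZU' a' b' at h'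
  have e1 : (κ.compl₁₂ p p + κ'.compl₁₂ p' p' + γ.compl₁₂ p p' + γ.flip.compl₁₂ p' p : ESL.Fm (U × U'))
      (a, a') (b, b') = κ a b + κ' a' b' + g (a, 0) (0, b') + g (b, 0) (0, a') := rfl
  rw [e1, hκ a b h, hκ' a' b' h']
  have s1 : g (a, a') (b, b') = g (a, a') (b, 0) + g (a, a') (0, b') := by
    have h1 := hg.add (a, a') (b, 0) (0, b') ⟨h, hU'.zero a'⟩ ⟨hU.zero a, h'⟩
    rw [Prod.mk_add_mk, add_zero, zero_add] at h1
    exact h1
  have s2 : g (a, a') (b, 0) = g (a, 0) (b, 0) + g (b, 0) (0, a') := by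
    have h1 := hg.add (b, 0) (a, 0) (0, a') ⟨hU.symm _ _ h, hU'.zero 0⟩ ⟨hU.zero b, z0' a'⟩
    rw [Prod.mk_add_mk, add_zero, zero_add] at h1
    rw [hg.symm (a, a') (b, 0) ⟨h, hU'.zero a'⟩, h1, hg.symm (b, 0) (a, 0) ⟨hU.symm _ _ h, hU'.zero 0⟩]
  have s3 : g (a, a') (0, b') = g (a, 0) (0, b') + g (0, a') (0, b') := by
    have h1 := hg.add (0, b') (a, 0) (0, a') ⟨z0 a, hU'.zero b'⟩ ⟨hU.zero 0, hU'.symm _ _ h'⟩
    rw [Prod.mk_add_mk, add_zero, zero_add] at h1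
    rw [hg.symm (a, a') (0, b') ⟨hU.zero a, h'⟩, h1, hg.symm (0, b') (a, 0) ⟨z0 a, hU'.zero b'⟩,
      hg.symm (0, b') (0, a') ⟨hU.zero 0, hU'.symm _ _ h'⟩]
  rw [s1, s2, s3]
  change g (a, 0) (b, 0) + g (0, a') (0, b') + g (a, 0) (0, b') + g (b, 0) (0, a') = _
  abel

end Pool.Agent.RFN
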