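import Pool.Agent.REG10.FN.Basic

/-!
REG10/FN, module COR: a nondegenerate linked bilinear map with a regular element, all proper
quotients of elementary type, is of elementary type.
-/

set_option autoImplicit false

namespace Pool.Agent.RFN

open Module CommonSlot Pool.Agent.ETG Pool.Agent.GTW

namespace COR_

variable {V B : Type} [AddCommGroup V] [Module (ZMod 2) V] [AddCommGroup B] [Module (ZMod 2) B]

/-- the values of a linked bilinear map are separated by forms -/
theorem sep (hLKZ : Stmt_LKZ) {q : V →ₗ[ZMod 2] V →ₗ[ZMod 2] B} (hq : IsLinked q 0) :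
    Sep (fun v w => q v w = 0) := by
  intro a b c d h
  rw [(hLKZ V B q hq).2.1]
  by_contra hne
  have hm : q a b + q c d ∉ (⊥ : Submodule (ZMod 2) B) := by
    rw [Submodule.mem_bot]
    exact fun h0 => hne (eq_of_add_eq_zero' h0)
  obtain ⟨μ, hμ, -⟩ := exists_functional hm
  apply hμ
  have hk : q.compr₂ μ ∈ RZ (fun v w => q v w = 0) := by
    intro v w hvw
    have hvw' : q v w = 0 := hvw
    show μ (q v w) = 0
    rw [hvw', map_zero]
  have h1 : μ (q a b) = μ (q c d) := h _ hk
  rw [map_add, h1]
  exact CharTwo.add_self_eq_zero _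

end COR_

open COR_ in
theorem cor_proof (hREGX : Stmt_REGX) (hRK1 : Stmt_RK1) (hOSE : Stmt_OSE) (hEOS : Stmt_EOS)
    (hLKZ : Stmt_LKZ) (hSLT : Stmt_SLT) : Stmt_COR := by
  intro V B _ _ _ _ _ _ q hq hN x hx hsm
  have hL : LZ (fun v w => q v w = 0) := (hLKZ V B q hq).1
  have hS : Sep (fun v w => q v w = 0) := sep hLKZ hq
  have fin : HasOS q → ETZ (fun v w => q v w = 0) := fun h => hOSE V _ hL hS h hsm
  rcases hREGX V B q hq hN x hx with h | ⟨b, hb⟩ | ⟨s, c, hs, hc, hsc⟩
  · exact fin h
  · exact hSLT V B q hq b hb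
  rcases hRK1 V B q hq hN s c hs hc hsc with h | ⟨W, B', i1, i2, i3, i4, i5, i6, q', π, hq', hN',
    hsur, hker, hqc, hback⟩
  · exact fin h
  apply fin
  apply hback
  have hL' : LZ (fun v w => q' v w = 0) := (hLKZ W B' q' hq').1
  have hS' : Sep (fun v w => q' v w = 0) := sep hLKZ hq'
  have hπs : π s = 0 := (hker s).2 (Or.inr rfl)
  -- some value `q (s, v')` is `c`
  obtain ⟨v', hv'⟩ : ∃ v', q s v' = c := by
    by_contra hcon
    push Not at hcon
    apply hs
    apply hN
    intro w
    exact (hsc w).resolve_right (hcon w)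
  have hQ : QRel (fun v w => q v w = 0) (fun v w => q' v w = 0) π := by
    refine ⟨hsur, fun a b hab => (hqc a b).2 (Or.inl hab), ?_⟩
    intro k hk hku a b hab
    rcases (hqc a b).1 hab with h | h
    · exact hk a b h
    · have h1 : EqQ (fun v w => q v w = 0) a b s v' := by
        rw [(hLKZ V B q hq).2.1, hv', h]
      rw [form_eq hk h1, hku s hπs]
      rfl
  have hcard : Nat.card W < Nat.card V := by
    have hle : Nat.card W ≤ Nat.card V := Nat.card_le_card_of_surjective π hsur
    refine lt_of_le_of_ne hle fun he => hs ?_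
    have hbij : Function.Bijective π :=
      (Nat.bijective_iff_surjective_and_card π).2 ⟨hsur, he.symm⟩
    exact hbij.1 (hπs.trans (map_zero π).symm)
  have hET : ETZ (fun v w => q' v w = 0) := hsm W _ π hL' hS' hQ hcard
  obtain ⟨S, hQS⟩ := qex_proof W _ hL'
  exact hEOS S (hET S hQS) hQS.1 W _ hQS

end Pool.Agent.RFN
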