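import Pool.Agent.REG10.FN.Defs
import Pool.Agent.REG10.FN.Basic
import Pool.Agent.ETG.LZR
import Pool.Agent.ETG.IDC
import Pool.Agent.ETG.RIG

/-!
REG10/FN, module FRS: a component with a rigid element and its residue.
-/

set_option autoImplicit false

namespace Pool.Agent.RFN

open Module CommonSlot Pool.Agent.ETG Pool.Agent.GTW

namespace FRS_

section
variable {W : Type} [AddCommGroup W] [Module (ZMod 2) W] {Z : W → W → Prop}

theorem inq_add (hZ : LZ Z) {t v w : W} (h : InQ Z t v w) : InQ Z t v (w + t) := by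
  obtain ⟨a, ha⟩ := h
  exact ⟨a + v, eq_add_common hZ ha (QEX_.e_swap hZ v t)⟩

theorem inq_swap (hZ : LZ Z) {t v w : W} (h : InQ Z t v w) : InQ Z t w v := by
  obtain ⟨a, ha⟩ := h
  exact ⟨a, hZ.trans _ _ _ _ _ _ (QEX_.e_swap hZ w v) ha⟩

theorem inq_smul (hZ : LZ Z) {t v w : W} (h : InQ Z t v w) (c : ZMod 2) :
    InQ Z t v (w + c • t) := by
  fin_cases c
  · have e : w + (0 : ZMod 2) • t = w := by rw [zero_smul, add_zero]
    exact e.symm ▸ h
  · have e : w + (1 : ZMod 2) • t = w + t := by rw [one_smul]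
    exact e.symm ▸ inq_add hZ h

theorem inq_iff1 (hZ : LZ Z) {t v w : W} (c : ZMod 2) :
    InQ Z t v (w + c • t) ↔ InQ Z t v w := by
  refine ⟨fun h => ?_, fun h => inq_smul hZ h c⟩
  have h1 := inq_smul hZ h c
  rwa [add_assoc, dbl, add_zero] at h1

theorem inq_iff (hZ : LZ Z) {t v w : W} (c d : ZMod 2) :
    InQ Z t (v + c • t) (w + d • t) ↔ InQ Z t v w := by
  rw [inq_iff1 hZ]
  constructor
  · intro h
    exact inq_swap hZ ((inq_iff1 hZ c).1 (inq_swap hZ h))
  · intro h
    exact inq_swap hZ ((inq_iff1 hZ c).2 (inq_swap hZ h))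

/-- the projection onto the kernel of `τ` along `t` -/
def rho (τ : W →ₗ[ZMod 2] ZMod 2) (t : W) (ht : τ t = 1) :
    W →ₗ[ZMod 2] (LinearMap.ker τ) where
  toFun := fun v => ⟨v + τ v • t, by
    rw [LinearMap.mem_ker, map_add, map_smul, ht, smul_eq_mul, mul_one]
    exact CharTwo.add_self_eq_zero _⟩
  map_add' := by
    intro a b
    apply Subtype.ext
    show a + b + τ (a + b) • t = (a + τ a • t) + (b + τ b • t)
    rw [map_add, add_smul]
    abel
  map_smul' := by
    intro c a
    apply Subtype.ext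
    show c • a + τ (c • a) • t = c • (a + τ a • t)
    rw [map_smul, smul_add, smul_eq_mul, mul_smul]

theorem rho_val (τ : W →ₗ[ZMod 2] ZMod 2) (t : W) (ht : τ t = 1) (v : W) :
    (rho τ t ht v : W) = v + τ v • t := rfl

theorem rho_ker (τ : W →ₗ[ZMod 2] ZMod 2) (t : W) (ht : τ t = 1) (v : LinearMap.ker τ) :
    rho τ t ht (v : W) = v := by
  apply Subtype.ext
  rw [rho_val, LinearMap.mem_ker.1 v.2, zero_smul, add_zero]

theorem rho_zero (τ : W →ₗ[ZMod 2] ZMod 2) (t : W) (ht : τ t = 1) (v : W) :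
    rho τ t ht v = 0 ↔ v = 0 ∨ v = t := by
  constructor
  · intro h
    have h1 : v + τ v • t = 0 := congrArg Subtype.val h
    have h2 : ∀ c : ZMod 2, c = 0 ∨ c = 1 := by decide
    rcases h2 (τ v) with h3 | h3
    · left
      rwa [h3, zero_smul, add_zero] at h1
    · right
      rw [h3, one_smul] at h1
      have h4 : v + t + t = 0 + t := by rw [h1]
      rwa [add_assoc, dbl, add_zero, zero_add] at h4
  · rintro (rfl | rfl)
    · exact map_zero _
    · apply Subtype.ext
      rw [rho_val, ht, one_smul, dbl]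
      rfl

variable {τ : W →ₗ[ZMod 2] ZMod 2} {t : W} (ht : τ t = 1)
include ht

theorem zu_iff (hZ : LZ Z) (hτ : ∀ v w, τ v = 0 → τ w = 0 → InQ Z t v w → Z v w) (v w : W) :
    ZR Z (LinearMap.ker τ) (rho τ t ht v) (rho τ t ht w) ↔ InQ Z t v w := by
  rw [← inq_iff hZ (τ v) (τ w)]
  constructor
  · intro h
    exact inq_of_Z hZ t h
  · intro h
    exact hτ _ _ (rho τ t ht v).2 (rho τ t ht w).2 h

theorem zu_of (hZ : LZ Z) (hτ : ∀ v w, τ v = 0 → τ w = 0 → InQ Z t v w → Z v w) {v w : W}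
    (h : Z v w) : ZR Z (LinearMap.ker τ) (rho τ t ht v) (rho τ t ht w) :=
  (zu_iff ht hZ hτ v w).2 (inq_of_Z hZ t h)

theorem eq_of (hZ : LZ Z) (hτ : ∀ v w, τ v = 0 → τ w = 0 → InQ Z t v w → Z v w)
    {a b c d : LinearMap.ker τ} (h : EqQ Z (a : W) b c d) :
    EqQ (ZR Z (LinearMap.ker τ)) a b c d := by
  obtain ⟨x, h1, h2, h3⟩ := h
  refine ⟨rho τ t ht x, ?_, ?_, ?_⟩
  · have := zu_of ht hZ hτ h1
    rwa [map_add, rho_ker, rho_ker] at this
  · have := zu_of ht hZ hτ h2
    rwa [map_add, rho_ker, rho_ker] at this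
  · have := zu_of ht hZ hτ h3
    rwa [map_add, rho_ker, rho_ker] at this

omit ht in
theorem eq_to {U : Submodule (ZMod 2) W} {a b c d : U} (h : EqQ (ZR Z U) a b c d) :
    EqQ Z (a : W) b c d := by
  obtain ⟨x, h1, h2, h3⟩ := h
  exact ⟨x, h1, h2, h3⟩

theorem lz_ker (hZ : LZ Z) (hτ : ∀ v w, τ v = 0 → τ w = 0 → InQ Z t v w → Z v w) :
    LZ (ZR Z (LinearMap.ker τ)) where
  symm := fun _ _ h => hZ.symm _ _ h
  zero := fun _ => hZ.zero _
  add := fun _ _ _ h1 h2 => hZ.add _ _ _ h1 h2
  alt := fun _ => hZ.alt _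
  trans := fun _ _ _ _ _ _ h1 h2 =>
    eq_of ht hZ hτ (hZ.trans _ _ _ _ _ _ (eq_to h1) (eq_to h2))

end

end FRS_

open FRS_ in
theorem frs_proof : Stmt_FRS := by
  intro V _ _ _ Z hZ hS k C hOS j hF
  obtain ⟨hW, hND, -⟩ := lzr_proof idc_proof V Z hZ k C hOS j
  have hfix : ∀ w : LinearMap.range (C.p j), C.p j (w : V) = w := by
    rintro ⟨_, v, rfl⟩
    exact C.idem j v
  obtain ⟨t', ht1, ht2, ht3⟩ := hF
  let t : LinearMap.range (C.p j) := ⟨t', t', ht1⟩
  have htv : (t : V) = t' := rfl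
  have hR : Rig (ZR Z (LinearMap.range (C.p j))) t := by
    refine ⟨fun h => ht2 (congrArg Subtype.val h), fun v hv => ?_⟩
    have h1 : Z t' (C.p j v) := by
      rw [hfix]
      exact hv
    rcases ht3 v h1 with h2 | h2
    · left
      apply Subtype.ext
      rw [← hfix, h2]
      rfl
    · right
      apply Subtype.ext
      rw [← hfix, h2]
  obtain ⟨τ, hτt, hτ⟩ := rig_proof _ _ hW hND t hR
  have hres : ∀ v : V, (((C.p j).rangeRestrict v : LinearMap.range (C.p j)) : V) = C.p j v :=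
    fun v => rfl
  have hrr : ∀ w : LinearMap.range (C.p j), (C.p j).rangeRestrict (w : V) = w := by
    intro w
    apply Subtype.ext
    rw [hres, hfix]
  refine ⟨LinearMap.ker τ, inferInstance, inferInstance, inferInstance,
    ZR (ZR Z (LinearMap.range (C.p j))) (LinearMap.ker τ), rho τ t hτt, t,
    lz_ker hτt hW hτ, ?_, hR, ?_, rho_zero τ t hτt, zu_iff hτt hW hτ, ?_, ?_⟩
  · intro a b c d h
    have h1 : EqQ Z ((a : LinearMap.range (C.p j)) : V) ((b : LinearMap.range (C.p j)) : V)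
        ((c : LinearMap.range (C.p j)) : V) ((d : LinearMap.range (C.p j)) : V) := by
      apply hS
      intro κ hκ
      let i : LinearMap.ker τ →ₗ[ZMod 2] V :=
        (LinearMap.range (C.p j)).subtype ∘ₗ (LinearMap.ker τ).subtype
      exact h (κ.compl₁₂ i i) (fun a b hab => hκ _ _ hab)
    refine eq_of hτt hW hτ ?_
    obtain ⟨x, h2, h3, h4⟩ := h1
    refine ⟨(C.p j).rangeRestrict x, ?_, ?_, ?_⟩
    · have := C.ind _ _ h2 j
      rw [map_add, hfix, hfix] at this
      exact this
    · have := C.ind _ _ h3 j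
      rw [map_add, hfix, hfix] at this
      exact this
    · have := C.ind _ _ h4 j
      rw [map_add, hfix, hfix] at this
      exact this
  · intro u
    exact ⟨u, rho_ker τ t hτt u⟩
  · refine ⟨?_, ?_, ?_⟩
    · intro u
      refine ⟨((u : LinearMap.range (C.p j)) : V), ?_⟩
      rw [LinearMap.comp_apply, hrr, rho_ker]
    · intro a b h
      exact zu_of hτt hW hτ (C.ind a b h j)
    · intro κ hκ hk a b h
      obtain ⟨c, hc⟩ := (zu_iff hτt hW hτ _ _).1 h
      have h1 : κ (C.p j a) (C.p j b) = κ t' c := form_eq hκ (eq_to hc)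
      have h2 : κ t' = 0 := by
        apply hk
        rw [LinearMap.comp_apply, ← htv, hrr, rho_zero]
        right
        rfl
      have h3 : ∀ u, κ (u + C.p j u) = 0 := by
        intro u
        apply hk
        have : (C.p j).rangeRestrict (u + C.p j u) = 0 := by
          apply Subtype.ext
          rw [hres, map_add, C.idem, dbl]
          rfl
        rw [LinearMap.comp_apply, this, map_zero]
      have h4 : ∀ u, κ u = κ (C.p j u) := by
        intro u
        have h5 := h3 u
        rw [map_add] at h5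
        have h6 : κ u + κ (C.p j u) + κ (C.p j u) = 0 + κ (C.p j u) := by rw [h5]
        rwa [add_assoc, dbl, add_zero, zero_add] at h6
      rw [h4, form_symm hZ hκ, h4, form_symm hZ hκ, h1, h2]
      rfl
  · classical
    have hfin : Fintype (LinearMap.ker τ) := Fintype.ofFinite _
    have hfinV : Fintype V := Fintype.ofFinite _
    rw [Nat.card_eq_fintype_card, Nat.card_eq_fintype_card]
    refine Fintype.card_lt_of_injective_of_notMem
      (fun u : LinearMap.ker τ => ((u : LinearMap.range (C.p j)) : V)) (b := t')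
      (fun a b h => Subtype.ext (Subtype.ext h)) ?_
    rintro ⟨u, hu⟩
    have h1 : (u : LinearMap.range (C.p j)) = t := Subtype.ext hu
    have h2 := LinearMap.mem_ker.1 u.2
    rw [h1, hτt] at h2
    exact one_ne_zero h2

end Pool.Agent.RFN
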