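import Pool.Agent.REG10.FN.Basic
import Pool.Agent.ETG.QRD
import Pool.Agent.ETG.QPR
import Pool.Agent.ETG.QIS

/-!
REG10/FN, module MIN: a structure with a regular element, all smaller structures of elementary
type, is of elementary type.
-/

set_option autoImplicit false

namespace Pool.Agent.RFN

open Module CommonSlot Pool.Agent.ETG Pool.Agent.GTW

theorem min_proof (hRDS : Stmt_RDS) (hSEP : Stmt_SEP) (hLZQ : Stmt_LZQ) (hCOR : Stmt_COR)
    (hPFQ : Stmt_PFQ) (hLKZ : Stmt_LKZ) : Stmt_MIN := by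
  intro V _ _ _ Z hZ x hx hsm
  have hQPR : Stmt_QPR := qpr_proof qex_proof qis_proof
  obtain ⟨W, π, -, hWZ, -, -, -, hET, -, -, hc⟩ := hRDS V Z hZ
  rcases hc with hN | hc
  swap
  · exact hET (hsm W (ZR Z W) hWZ hc)
  by_cases hx0 : x = 0
  · -- `Z` is total
    subst hx0
    apply qrd_proof hQPR V Z
    intro a b
    obtain ⟨u, hu⟩ := hx a b (QEX_.zl hZ a)
    have h1 : EqQ Z 0 u 0 0 := (QEX_.e_zero_iff hZ 0 u).2 (QEX_.zl hZ u)
    exact (QEX_.e_zero_iff hZ a b).1 (hZ.trans _ _ _ _ _ _ hu h1)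
  obtain ⟨hT1, hT2⟩ := hPFQ V Z hZ x hx
  -- the Pfister quotient is of elementary type
  have hT : ETZ (InQ Z x) := by
    obtain ⟨W', π', -, hWZ', -, -, -, hET', -, -, hc'⟩ := hRDS V (InQ Z x) hT1
    rcases hc' with hN' | hc'
    · exact absurd (hN' x fun v => hT2 x v (hZ.alt x)) hx0
    · exact hET' (hsm W' (ZR (InQ Z x) W') hWZ' hc')
  have hS : Sep Z := hSEP V Z hZ x hx hT
  obtain ⟨B, iB1, iB2, iB3, q, hq, hqZ, -⟩ := hLZQ V Z hZ hS
  have hZq : Z = fun v w => q v w = 0 := by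
    funext v w
    exact propext (hqZ v w)
  rw [hZq]
  obtain ⟨l1, l2, l3⟩ := hLKZ V B q hq
  apply hCOR V B q hq
  · intro v hv
    apply hN
    intro w
    rw [hqZ]
    exact hv w
  · intro w v hw
    have h1 := hx w v ((hqZ x w).2 hw)
    rw [hZq] at h1
    obtain ⟨z, hz⟩ := (l3 x w v).1 h1
    exact ⟨z, hz⟩
  · intro W' _ _ _ ZW π' hW' _ _ hc'
    exact hsm W' ZW hW' hc'

end Pool.Agent.RFN
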