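import Pool.Agent.REG10.FN.Defs
import Pool.Agent.ETG.QEX
import Pool.Agent.ETC.Witt4

/-!
RFN, module PFQ: the Pfister quotient by a regular element.
-/

set_option autoImplicit false

namespace Pool.Agent.RFN

open Module CommonSlot Pool.Agent.ETG Pool.Agent.GTW
open scoped BigOperators

namespace PFQ_

open Pool.Agent.Helper58.PLine (QData)
open QEX_

variable {V : Type} [AddCommGroup V] [Module (ZMod 2) V]

/-- the quaternionic data of `(V, Z)` -/
def dat (Z : V → V → Prop) (h : LZ Z) : QData V (Quotient (std Z h)) where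
  q := fun a b => Quotient.mk (std Z h) (a, b)
  z := Quotient.mk (std Z h) (0, 0)
  e := 0
  symm := fun x y => by rw [mk_eq]; exact e_swap h x y
  add := fun x y w => by rw [mk_eq, mk_eq, e_same_iff h, e_zero_iff h]
  diag := fun x => by rw [mk_eq, e_zero_iff h, add_zero]; exact h.alt x
  link := by
    intro a b c d he
    rw [mk_eq] at he
    obtain ⟨x, h1, h2, -⟩ := he
    refine ⟨x, ?_, ?_⟩
    · rw [mk_eq]; exact e_same h h1
    · rw [mk_eq]; exact e_same h h2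

theorem dat_z {Z : V → V → Prop} (h : LZ Z) (a b : V) :
    (dat Z h).q a b = (dat Z h).z ↔ Z a b := by
  show Quotient.mk (std Z h) (a, b) = Quotient.mk (std Z h) (0, 0) ↔ Z a b
  rw [mk_eq, e_zero_iff h]

theorem dat_eq {Z : V → V → Prop} (h : LZ Z) (a b c d : V) :
    (dat Z h).q a b = (dat Z h).q c d ↔ EqQ Z a b c d := by
  show Quotient.mk (std Z h) (a, b) = Quotient.mk (std Z h) (c, d) ↔ _
  rw [mk_eq]

/-- `q(v, w) ∈ Q_x` by a common slot -/
theorem inq_iff {Z : V → V → Prop} (h : LZ Z) (x v w : V) :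
    InQ Z x v w ↔ ∃ z, Z v (w + z) ∧ Z (v + x) z := by
  constructor
  · rintro ⟨a, y, h1, -, h3⟩
    exact ⟨y, h1, h3⟩
  · rintro ⟨z, h1, h2⟩
    refine ⟨z, z, h1, ?_, h2⟩
    rw [QEX_.add_self]
    exact h.zero x

theorem inq_add {Z : V → V → Prop} (h : LZ Z) {x v w w' : V} (h1 : InQ Z x v w)
    (h2 : InQ Z x v w') : InQ Z x v (w + w') := by
  rw [inq_iff h] at h1 h2 ⊢
  obtain ⟨z, h1, h3⟩ := h1
  obtain ⟨z', h2, h4⟩ := h2
  refine ⟨z + z', ?_, h.add _ _ _ h3 h4⟩
  rw [show w + w' + (z + z') = w + z + (w' + z') by abel]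
  exact h.add _ _ _ h1 h2

theorem inq_symm {Z : V → V → Prop} (h : LZ Z) {x v w : V} (h1 : InQ Z x v w) :
    InQ Z x w v := by
  obtain ⟨a, ha⟩ := h1
  exact ⟨a, h.trans _ _ _ _ _ _ (e_swap h w v) ha⟩

/-- vanishing of the three-fold symbol, `x` regular -/
theorem tri_iff {Z : V → V → Prop} (h : LZ Z) {x : V} (hx : RegZ Z x) (v w : V) :
    ETC.tri (dat Z h) x v w = 0 ↔ InQ Z x v w := by
  constructor
  · intro h0
    unfold ETC.tri at h0
    rw [ETC.triple_iff_comm] at h0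
    obtain ⟨u, v', h1, h2, h3⟩ := h0
    rw [dat_z] at h1 h2 h3
    -- `q(w, v + v') = q(u, v + v')` is in `Q_x`
    have h4 : InQ Z x w (v + v') := by
      have h5 : InQ Z x u (v + v') := hx u (v + v') h1
      obtain ⟨a, ha⟩ := h5
      refine ⟨a, h.trans _ _ _ _ _ _ ?_ ha⟩
      -- `EqQ Z w (v + v') u (v + v')`
      have h6 : EqQ Z (v + v') w (v + v') u := e_same h (h.symm _ _ h3)
      exact h.trans _ _ _ _ _ _ (e_swap h _ _)
        (h.trans _ _ _ _ _ _ h6 (e_swap h _ _))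
    have h7 : InQ Z x w v' := inq_symm h (hx v' w h2)
    have h8 := inq_add h h4 h7
    rw [show v + v' + v' = v + (v' + v') by abel, QEX_.add_self, add_zero] at h8
    exact inq_symm h h8
  · rintro ⟨a, ha⟩
    have h1 : (1 - ETC.ph (dat Z h) v) * (1 - ETC.ph (dat Z h) w) *
        (1 - ETC.ph (dat Z h) x) = 0 := by
      rw [ETC.triple_iff_slot]
      refine ⟨x, a, ?_, ?_⟩
      · rw [dat_z]; exact h.alt x
      · rw [dat_eq]; exact ha
    unfold ETC.tri
    rw [← h1]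
    ring

/-- equality of the three-fold symbols, `x` regular -/
theorem tri_eq_iff {Z : V → V → Prop} (h : LZ Z) {x : V} (hx : RegZ Z x) (a b c d : V) :
    EqQ (InQ Z x) a b c d ↔ ETC.tri (dat Z h) x a b = ETC.tri (dat Z h) x c d := by
  constructor
  · rintro ⟨s, h1, h2, h3⟩
    rw [← tri_iff h hx] at h1 h2 h3
    rw [← ETC.tri_add] at h1 h2
    rw [ETC.tri_swap23, ← ETC.tri_add] at h3
    rw [h1, h2, ETC.tri_swap23 x a s, h3, ETC.tri_swap23 x c s]
  · intro h0
    have h0' : (1 - ETC.ph (dat Z h) x) * (1 - ETC.ph (dat Z h) a) * (1 - ETC.ph (dat Z h) b) =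
        (1 - ETC.ph (dat Z h) x) * (1 - ETC.ph (dat Z h) c) * (1 - ETC.ph (dat Z h) d) := h0
    obtain ⟨t, h1, h2⟩ := ETC.pfister_link h0'
    have k1 : ETC.tri (dat Z h) x a b = ETC.tri (dat Z h) x a t := h1
    have k2 : ETC.tri (dat Z h) x c d = ETC.tri (dat Z h) x c t := h2
    refine ⟨t, ?_, ?_, ?_⟩
    · rw [← tri_iff h hx, ← ETC.tri_add]; exact k1
    · rw [← tri_iff h hx, ← ETC.tri_add]; exact k2
    · rw [← tri_iff h hx, ETC.tri_swap23, ← ETC.tri_add, ETC.tri_swap23 x t a, ← k1, h0, k2,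
        ETC.tri_swap23]

end PFQ_

theorem pfq_proof : Stmt_PFQ := by
  intro V _ _ _ Z h x hx
  refine ⟨⟨?_, ?_, ?_, ?_, ?_⟩, ?_⟩
  · intro a b h1
    exact PFQ_.inq_symm h h1
  · intro a
    rw [PFQ_.inq_iff h]
    refine ⟨0, ?_, h.zero _⟩
    rw [add_zero]
    exact h.zero a
  · intro a b c h1 h2
    exact PFQ_.inq_add h h1 h2
  · intro a
    rw [PFQ_.inq_iff h]
    refine ⟨0, ?_, h.zero _⟩
    rw [add_zero]
    exact h.alt a
  · intro a b c d a' b' h1 h2
    rw [PFQ_.tri_eq_iff h hx] at h1 h2 ⊢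
    exact h1.trans h2
  · intro u v hu
    exact hx u v hu

end Pool.Agent.RFN
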