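import Pool.Agent.REG10.FN.Defs
import Pool.Agent.ETG.QEX
import Pool.Agent.ETG.QIS
import Pool.Agent.ETG.QPR
import Pool.Agent.ETG.QRD
import Pool.Agent.ETG.QDC

/-!
REG10/FN RDS: splitting off the radical.
-/

set_option autoImplicit false

namespace Pool.Agent.RFN

open Module CommonSlot Pool.Agent.ETG Pool.Agent.GTW

namespace RDS_

section
variable {V : Type} [AddCommGroup V] [Module (ZMod 2) V] {Z : V → V → Prop}

theorem dbl (v : V) : v + v = 0 := ZModModule.add_self v

theorem cancel (a b : V) : a + (b + a) = b := by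
  rw [add_comm b a, ← add_assoc, dbl, zero_add]

theorem addl (hZ : LZ Z) {a b c : V} (h1 : Z a c) (h2 : Z b c) : Z (a + b) c :=
  hZ.symm _ _ (hZ.add _ _ _ (hZ.symm _ _ h1) (hZ.symm _ _ h2))

theorem cc (c : ZMod 2) : c = 0 ∨ c = 1 := by
  revert c; decide

/-- the radical -/
def rad (hZ : LZ Z) : Submodule (ZMod 2) V where
  carrier := {v | ∀ w, Z v w}
  add_mem' := fun ha hb w => addl hZ (ha w) (hb w)
  zero_mem' := fun w => hZ.symm _ _ (hZ.zero w)
  smul_mem' := by
    intro c v hv w
    rcases cc c with rfl | rfl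
    · rw [zero_smul]; exact hZ.symm _ _ (hZ.zero w)
    · rw [one_smul]; exact hv w

theorem mem_rad (hZ : LZ Z) (v : V) : v ∈ rad hZ ↔ ∀ w, Z v w := Iff.rfl

end

end RDS_

open RDS_ in
theorem rds_proof : Stmt_RDS := by
  intro V _ _ _ Z hZ
  obtain ⟨W, hW⟩ := Submodule.exists_isCompl (rad hZ)
  have hc : IsCompl W (rad hZ) := hW.symm
  let π : V →ₗ[ZMod 2] W := Submodule.projectionOnto W (rad hZ) hc
  have hπ : ∀ w : W, π w = w := fun w => Submodule.projectionOnto_apply_left hc w
  have hr : ∀ v : V, v + π v ∈ rad hZ := by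
    intro v
    rw [← Submodule.projectionOnto_apply_eq_zero_iff hc]
    show π (v + π v) = 0
    rw [map_add, hπ, dbl]
  have hrr : ∀ a v : V, Z a (v + π v) := fun a v => hZ.symm _ _ (hr v a)
  have hR : ∀ a v : V, Z a v ↔ Z a (π v) := by
    intro a v
    constructor
    · intro h
      have h1 := hZ.add _ _ _ h (hrr a v)
      have e : v + (v + (π v : V)) = π v := by rw [← add_assoc, dbl, zero_add]
      rwa [e] at h1
    · intro h
      have h1 := hZ.add _ _ _ h (hrr a v)
      rwa [cancel] at h1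
  have hS : ∀ a b, Z a b ↔ Z b a := fun a b => ⟨hZ.symm a b, hZ.symm b a⟩
  have hI : ∀ a b : V, Z a b ↔ ZR Z W (π a) (π b) := by
    intro a b
    show Z a b ↔ Z (π a) (π b)
    rw [hR a b, hS a, hR _ a, hS]
  have hL : LZ (ZR Z W) :=
    QDC_.lz_restrict hZ W (fun x => (π x : V)) (fun x => (π x).2) (fun a _ x => hrr a x)
  have hN : ND (ZR Z W) := by
    intro w hw
    have h1 : (w : V) ∈ rad hZ := by
      intro v
      rw [hR]
      exact hw (π v)
    have h2 : (w : V) ∈ W ⊓ rad hZ := ⟨w.2, h1⟩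
    rw [hc.inf_eq_bot] at h2
    exact Subtype.ext h2
  refine ⟨W, π, hπ, hL, hN, hI, ⟨fun w => ⟨w, hπ w⟩, fun a b h => (hI a b).1 h, ?_⟩,
    ?_, ?_, ?_, ?_⟩
  · intro k hk _ a b h
    exact hk a b ((hI a b).2 h)
  · intro hE
    refine qpr_proof qex_proof qis_proof V W (rad hZ) Z (ZR Z W) (fun _ _ => True)
      ((Submodule.prodEquivOfIsCompl W (rad hZ) hc).symm.toAddEquiv) hL
      (QRD_.lzT (rad hZ)) ?_ hE
      (qrd_proof (qpr_proof qex_proof qis_proof) (rad hZ) _ (fun _ _ => trivial))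
    intro a b
    constructor
    · intro h
      exact ⟨(hI a b).1 h, trivial⟩
    · rintro ⟨h, -⟩
      exact (hI a b).2 h
  · intro hSep a b c d h
    have h1 : EqQ Z (a : V) b c d := by
      refine hSep _ _ _ _ ?_
      intro k hk
      exact h (k.compl₁₂ W.subtype W.subtype) (fun a b hab => hk a b hab)
    obtain ⟨x, h1, h2, h3⟩ := h1
    refine ⟨π x, ?_, ?_, ?_⟩
    · have h := (hI _ _).1 h1
      rw [map_add, hπ, hπ] at h
      exact h
    · have h := (hI _ _).1 h2
      rw [map_add, hπ, hπ] at h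
      exact h
    · have h := (hI _ _).1 h3
      rw [map_add, hπ, hπ] at h
      exact h
  · intro x hx w v hw
    have h1 : Z x w := by
      rw [hS, hR, hS]
      exact hw
    obtain ⟨a, y, e1, e2, e3⟩ := hx w v h1
    refine ⟨π a, π y, ?_, ?_, ?_⟩
    · have h := (hI _ _).1 e1
      rw [map_add, hπ, hπ] at h
      exact h
    · have h := (hI _ _).1 e2
      rw [map_add] at h
      exact h
    · have h := (hI _ _).1 e3
      rw [map_add, hπ] at h
      exact h
  · by_cases hb : rad hZ = ⊥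
    · left
      intro w hw
      have h : w ∈ rad hZ := hw
      rw [hb] at h
      exact h
    · right
      obtain ⟨r, hr1, hr2⟩ := (Submodule.ne_bot_iff _).1 hb
      have hrW : ¬ r ∈ W := by
        intro h
        have h2 : r ∈ W ⊓ rad hZ := ⟨h, hr1⟩
        rw [hc.inf_eq_bot] at h2
        exact hr2 h2
      exact Finite.card_subtype_lt hrW

end Pool.Agent.RFN
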