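import Pool.Agent.REG10.FN

/-!
REG10/FN: retracts of quaternionic structures with `-1 = 1`, and regular elements.
-/

set_option autoImplicit false
set_option linter.unusedSimpArgs false
set_option linter.unnecessarySeqFocus false
set_option linter.unusedSectionVars false
set_option linter.unusedVariables false

namespace Pool.Agent.REG10

open QS
open Pool.Agent.ETCR
open Pool.Agent.Helper58.PLine (QData)
open Pool.Agent.ETCP
open ETC (D)

/-- `U` is a retract: there is a homomorphism `ρ` of `G` onto `U` which is the identity on `U` and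
preserves the relation `q = 0` -/
def Retr (S : QStruct) (U : Subgroup S.G) : Prop :=
  ∃ ρ : S.G →* S.G, (∀ a, ρ a ∈ U) ∧ (∀ u ∈ U, ρ u = u) ∧
    ∀ a b, S.q a b = S.zero → S.q (ρ a) (ρ b) = S.zero

/-- retracts are linked subgroups -/
theorem Retr.lsub {S : QStruct} {U : Subgroup S.G} (h : Retr S U) : Lsub S U := by
  obtain ⟨ρ, h1, h2, h3⟩ := h
  intro a ha b hb c hc d hd e
  obtain ⟨x, hx1, hx2⟩ := S.qs4 _ _ _ _ e
  refine ⟨ρ x, h1 x, ?_, ?_⟩
  · rw [S.qs3] at hx1 ⊢
    have := h3 _ _ hx1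
    rwa [map_mul, h2 a ha, h2 b hb] at this
  · rw [S.qs3] at hx2 ⊢
    have := h3 _ _ hx2
    rwa [map_mul, h2 c hc, h2 d hd] at this

theorem retr_top (S : QStruct) : Retr S ⊤ :=
  ⟨MonoidHom.id _, fun _ => Subgroup.mem_top _, fun _ _ => rfl, fun _ _ h => h⟩

/-- retracts of retracts are retracts -/
theorem Retr.trans {S : QStruct} (hneg : S.neg = 1) {U : Subgroup S.G} (h : Retr S U)
    (h4 : Lsub S U) {U' : Subgroup (ESL.PRODRECX.sub S hneg U h4).G}
    (h' : Retr (ESL.PRODRECX.sub S hneg U h4) U') : Retr S (Subgroup.map (G := U) U.subtype U') := by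
  obtain ⟨ρ, h1, h2, h3⟩ := h
  obtain ⟨ρ', h1', h2', h3'⟩ := h'
  have hz := ESL.PRODRECX.sub_zero_iff S hneg U h4
  let σ : S.G →* U := ρ.codRestrict U h1
  refine ⟨U.subtype.comp ((show U →* U from ρ').comp σ), ?_, ?_, ?_⟩
  · intro a
    exact ⟨ρ' (σ a), h1' (σ a), rfl⟩
  · rintro _ ⟨u, hu, rfl⟩
    have e1 : σ (u : S.G) = u := Subtype.ext (h2 u u.2)
    show ((show U →* U from ρ') (σ (u : S.G)) : S.G) = u
    rw [e1]
    exact congrArg Subtype.val (h2' u hu)
  · intro a b hab
    have e1 : (ESL.PRODRECX.sub S hneg U h4).q (σ a) (σ b) =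
        (ESL.PRODRECX.sub S hneg U h4).zero := (hz (σ a) (σ b)).2 (h3 a b hab)
    exact (hz _ _).1 (h3' _ _ e1)

/-! ### Retractions onto embedded structures -/

/-- `T` is embedded as a retract -/
structure Rtc (T S : QStruct) (ι : T.G →* S.G) (π : S.G →* T.G) : Prop where
  emb : Emb T S ι
  id : ∀ t, π (ι t) = t
  zero : ∀ a b, S.q a b = S.zero → T.q (π a) (π b) = T.zero

theorem Rtc.retr {T S : QStruct} {ι : T.G →* S.G} {π : S.G →* T.G} (h : Rtc T S ι π) :
    Retr S ι.range := by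
  refine ⟨ι.comp π, fun a => ⟨π a, rfl⟩, ?_, ?_⟩
  · rintro _ ⟨t, rfl⟩
    show ι (π (ι t)) = ι t
    rw [h.id]
  · intro a b hab
    exact (h.emb.zero _ _).1 (h.zero a b hab)

theorem Rtc.elem {T S : QStruct} {ι : T.G →* S.G} {π : S.G →* T.G} (h : Rtc T S ι π)
    (hneg : S.neg = 1) (hT : T.neg = 1) (hr : ι.range ≠ ⊤)
    (hU : ∀ (U : Subgroup S.G) (h4 : Lsub S U), Retr S U → U ≠ ⊤ →
      ElemType (ESL.PRODRECX.sub S hneg U h4)) : ElemType T :=
  ElemType.iso _ _ (h.emb.iso hneg hT) (hU _ _ h.retr hr)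

theorem rtc_ext (T : QStruct) :
    Rtc T (ext T) (MonoidHom.inl T.G (Multiplicative (ZMod 2)))
      (MonoidHom.fst T.G (Multiplicative (ZMod 2))) where
  emb := emb_ext T
  id _ := rfl
  zero _ _ h := congrArg (fun p => p.1.1) h

theorem rtc_left (A B : QStruct) :
    Rtc A (QS.prod A B) (MonoidHom.inl A.G B.G) (MonoidHom.fst A.G B.G) where
  emb := emb_left A B
  id _ := rfl
  zero _ _ h := congrArg Prod.fst h

theorem rtc_right (A B : QStruct) :
    Rtc B (QS.prod A B) (MonoidHom.inr A.G B.G) (MonoidHom.snd A.G B.G) where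
  emb := emb_right A B
  id _ := rfl
  zero _ _ h := congrArg Prod.snd h

theorem Rtc.comp {T S R : QStruct} {ι : T.G →* S.G} {π : S.G →* T.G} (h : Rtc T S ι π)
    (φ : S.G ≃* R.G) (hφ : ∀ a b c d, S.q a b = S.q c d ↔ R.q (φ a) (φ b) = R.q (φ c) (φ d)) :
    Rtc T R (φ.toMonoidHom.comp ι) (π.comp φ.symm.toMonoidHom) where
  emb := h.emb.comp φ hφ
  id t := by
    show π (φ.symm (φ (ι t))) = t
    rw [MulEquiv.symm_apply_apply, h.id]
  zero a b hab := by
    apply h.zero
    show S.q (φ.symm a) (φ.symm b) = S.zero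
    rw [← S.q_one 1, hφ, MulEquiv.apply_symm_apply, MulEquiv.apply_symm_apply, map_one, R.q_one]
    exact hab

/-- group extensions and products -/
theorem elem_of_ed' (S : QStruct) [Finite S.G] (hneg : S.neg = 1)
    (hU : ∀ (U : Subgroup S.G) (h4 : Lsub S U), Retr S U → U ≠ ⊤ →
      ElemType (ESL.PRODRECX.sub S hneg U h4))
    (h : (∃ T : QStruct, Iso S (ext T)) ∨ Decomp S) : ElemType S := by
  have inv : ∀ {S T : QStruct}, Iso S T → Iso T S := by
    rintro S T ⟨φ, h1, h2⟩
    refine ⟨φ.symm, ?_, ?_⟩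
    · rw [← h1, MulEquiv.symm_apply_apply]
    · intro a b c d
      have h4 := h2 (φ.symm a) (φ.symm b) (φ.symm c) (φ.symm d)
      simp only [MulEquiv.apply_symm_apply] at h4
      exact h4.symm
  rcases h with ⟨T, hi⟩ | ⟨A, B, hA, hB, hA2, hB2, hi⟩
  · have hT : T.neg = 1 := by
      obtain ⟨φ, h1, -⟩ := hi
      rw [hneg, map_one] at h1
      exact (congrArg Prod.fst h1).symm
    refine ElemType.iso _ _ (inv hi) (ElemType.ext T ?_)
    obtain ⟨φ, h1, h2⟩ := inv hi
    refine ((rtc_ext T).comp φ h2).elem hneg hT (range_ne _ φ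
      ((1, Multiplicative.ofAdd 1) : T.G × Multiplicative (ZMod 2)) ?_) hU
    rintro ⟨a, ha⟩
    have h3 : (1 : Multiplicative (ZMod 2)) = Multiplicative.ofAdd 1 := congrArg Prod.snd ha
    exact absurd h3 (by decide)
  · have hfG : ∀ {G : Type} [Group G], 2 ≤ Nat.card G → ∃ g : G, g ≠ 1 := by
      intro G _ h2
      by_contra hno
      push Not at hno
      have : Nat.card G ≤ 1 := by
        have hs : Subsingleton G := ⟨fun a b => by rw [hno a, hno b]⟩
        exact Finite.card_le_one_iff_subsingleton.2 hs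
      omega
    obtain ⟨φ, h1, h2⟩ := hi
    refine ElemType.iso _ _ ⟨φ, h1, h2⟩ (ElemType.prod A B ?_ ?_)
    · obtain ⟨g, hg⟩ := hfG hB2
      refine ((rtc_left A B).comp φ h2).elem hneg hA (range_ne _ φ ((1, g) : A.G × B.G) ?_) hU
      rintro ⟨a, ha⟩
      exact hg (congrArg Prod.snd ha).symm
    · obtain ⟨g, hg⟩ := hfG hA2
      refine ((rtc_right A B).comp φ h2).elem hneg hB (range_ne _ φ ((g, 1) : A.G × B.G) ?_) hU
      rintro ⟨a, ha⟩
      exact hg (congrArg Prod.fst ha).symm

/-! ### Rank one elements -/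

/-- the projection along `s` onto `ker g` preserves commutation -/
theorem ret_C {V Q : Type} [AddCommGroup V] [Module (ZMod 2) V] {S : QData V Q} {s : V} {c : Q}
    {f : V →ₗ[ZMod 2] ZMod 2} (X : One S s c f)
    (hW : ∀ u, f u = 0 → Wp S f u → u ∈ X.W0) {g : D V} (hg : ∀ w ∈ X.W0, g w = 0)
    {x y : V} (h : C S x y) : C S (x + g x • s) (y + g y • s) := by
  have h1 := X.wedge hW hg h
  rcases ETC.zm (g x) with gx | gx <;> rcases ETC.zm (g y) with gy | gy <;>
    rw [gx, gy] at h1 ⊢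
  · rw [zero_smul, add_zero, add_zero]
    exact h
  · rw [zero_smul, add_zero, one_smul]
    rw [mul_one, mul_zero] at h1
    exact h.add (X.f_iff.2 h1).symm
  · rw [zero_smul, add_zero, one_smul]
    rw [mul_one, mul_zero] at h1
    exact h.add' (X.f_iff.2 h1.symm)
  · rw [one_smul]
    rw [mul_one, mul_one] at h1
    have ss : C S s s := C.self X.he s
    rcases ETC.zm (f x) with fx | fx
    · have fy : f y = 0 := by rw [← h1, fx]
      have sx : C S s x := X.f_iff.2 fx
      have sy : C S s y := X.f_iff.2 fy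
      exact (h.add sx.symm).add' (sy.add ss)
    · have fy : f y = 1 := by rw [← h1, fx]
      apply q_eq'_iff.1
      have e1 : S.q x (y + s) = S.q x s := by
        apply q_eq_iff.2
        exact h.of_eq rfl (by rw [add_assoc, ZModModule.add_self, add_zero])
      have e2 : S.q s (y + s) = S.q s y := by
        apply q_eq_iff.2
        exact ss.of_eq rfl (by
          rw [add_comm y s, add_assoc, ZModModule.add_self, add_zero])
      rw [e1, e2, S.symm x s, X.h1 x fx, X.h1 y fy]

/-- the commutative case -/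
theorem case2s (S : QStruct) [Finite S.G] (hneg : S.neg = 1)
    (hnd : ∀ a, (∀ b, S.q a b = S.zero) → a = 1)
    {c : S.Q} {s : Additive S.G} {f : Additive S.G →ₗ[ZMod 2] ZMod 2}
    (X : One (ETC.toData S) s c f)
    (hcomm : ∀ t t', XC (ETC.toData S) c t → XC (ETC.toData S) c t' → C (ETC.toData S) t t') :
    ∃ (U : Subgroup S.G) (h4 : Lsub S U), Retr S U ∧ U ≠ ⊤ ∧
      (ElemType (ESL.PRODRECX.sub S hneg U h4) → (∃ T : QStruct, Iso S (ext T)) ∨ Decomp S) := by
  have hfin : Finite (Additive S.G) := (inferInstance : Finite S.G)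
  have := Fintype.ofFinite (Additive S.G)
  have hW : ∀ u, f u = 0 → Wp (ETC.toData S) f u → u ∈ X.W0 :=
    fun u hu hw => (X.mem_W0' hcomm).2 ⟨hu, hw⟩
  obtain ⟨g, hgs, hg⟩ := ETC.exists_dual_sep X.s_notMem_W0
  obtain ⟨U, hU⟩ := zspan S (LinearMap.ker g)
  obtain ⟨HF, hHF⟩ := zspan S (LinearMap.ker f)
  obtain ⟨HW, hHW⟩ := zspan S X.W0
  have hR : Retr S U := by
    let L : Additive S.G →+ Additive S.G := AddMonoidHom.mk' (fun x => x + g x • s) (by
      intro x y
      show x + y + g (x + y) • s = x + g x • s + (y + g y • s)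
      rw [map_add, add_smul]
      abel)
    refine ⟨MonoidHom.toAdditive.symm L, ?_, ?_, ?_⟩
    · intro a
      apply (hU _).2
      show g (Additive.ofMul a + g (Additive.ofMul a) • s) = 0
      rw [map_add, map_smul, hgs, smul_eq_mul, mul_one]
      exact CharTwo.add_self_eq_zero _
    · intro u hu
      have h5 : g (Additive.ofMul u) = 0 := (hU u).1 hu
      show Additive.toMul (Additive.ofMul u + g (Additive.ofMul u) • s) = u
      rw [h5, zero_smul, add_zero]
      rfl
    · intro a b hab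
      exact ret_C X hW hg (x := Additive.ofMul a) (y := Additive.ofMul b) hab
  have h4 : Lsub S U := hR.lsub
  let T := ESL.PRODRECX.sub S hneg U h4
  have hz := ESL.PRODRECX.sub_zero_iff S hneg U h4
  have hUt : U ≠ ⊤ := by
    intro e
    have : Additive.toMul s ∈ U := by rw [e]; trivial
    have h5 : g s = 0 := (hU _).1 this
    rw [hgs] at h5
    exact one_ne_zero h5
  have hTf : Finite T.G := (inferInstance : Finite U)
  refine ⟨U, h4, hR, hUt, fun hTE => ?_⟩
  -- the subgroups of `T`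
  have hmF : ∀ a : U, a ∈ HF.comap U.subtype ↔ f (Additive.ofMul (a : S.G)) = 0 :=
    fun a => hHF a
  have hmW : ∀ a : U, a ∈ HW.comap U.subtype ↔ Additive.ofMul (a : S.G) ∈ X.W0 :=
    fun a => hHW a
  have hgU : ∀ a : U, g (Additive.ofMul (a : S.G)) = 0 := fun a => (hU a).1 a.2
  have f1 : ∀ x, ¬ f x = 0 → f x = 1 := fun x h => (ETC.zm (f x)).resolve_left h
  have hPt : Pt T (HF.comap U.subtype) (HW.comap U.subtype) := by
    refine ⟨?_, ?_, ?_, ?_, ?_⟩
    · obtain ⟨v, hv⟩ := X.hf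
      rcases ETC.zm (g v) with hgv | hgv
      · refine ⟨⟨Additive.toMul v, (hU _).2 hgv⟩, fun e => ?_⟩
        have h5 : f v = 0 := (hmF _).1 e
        rw [hv] at h5
        exact one_ne_zero h5
      · refine ⟨⟨Additive.toMul (v + s), (hU _).2 (by
          show g (v + s) = 0
          rw [map_add, hgv, hgs]; decide)⟩, fun e => ?_⟩
        have h5 : f (v + s) = 0 := (hmF _).1 e
        rw [map_add, hv, X.fs] at h5
        exact one_ne_zero h5
    · intro a b ha hb
      have ha' := f1 _ (fun e => ha ((hmF a).2 e))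
      have hb' := f1 _ (fun e => hb ((hmF b).2 e))
      apply (hmF (a * b)).2
      show f (Additive.ofMul ((show U from a) : S.G) + Additive.ofMul ((show U from b) : S.G)) = 0
      rw [map_add, ha', hb']; decide
    · intro a ha
      exact (hmF a).2 (X.W0_f ((hmW a).1 ha))
    · intro t h ht hh hq
      have ht' := f1 _ (fun e => ht ((hmF t).2 e))
      apply (hmW h).2
      apply hW _ ((hmF h).1 hh)
      refine ⟨_, ht', C.symm ?_⟩
      exact (hz t h).1 hq
    · intro t w ht hw
      have ht' := f1 _ (fun e => ht ((hmF t).2 e))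
      obtain ⟨v, hgv, hv, h1, h2⟩ := X.partner hW hg ht' (hgU t) ((hmW w).1 hw)
      refine ⟨⟨Additive.toMul v, (hU _).2 hgv⟩, fun e => ?_, ?_, ?_⟩
      · have h5 : f v = 0 := (hmF _).1 e
        rw [hv] at h5
        exact one_ne_zero h5
      · exact (hz t ⟨Additive.toMul v, (hU _).2 hgv⟩).2 h1
      · exact (hz w ⟨Additive.toMul v, (hU _).2 hgv⟩).2 h2
  have hne : HW.comap U.subtype ≠ HF.comap U.subtype := by
    intro e
    have key : ∀ x, g x = 0 → ¬ X.N0 x := by
      intro x hx h0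
      have h5 : (⟨Additive.toMul x, (hU _).2 hx⟩ : U) ∈ HF.comap U.subtype :=
        (hmF _).2 (X.N_f h0.1)
      rw [← e, hmW] at h5
      exact (not_Z_iff.2 h5.2) h0.2
    obtain ⟨x, hx⟩ := X.exists_N0 hcomm
    rcases ETC.zm (g x) with h | h
    · exact key x h hx
    · exact key (x + s) (by rw [map_add, h, hgs]; decide) (X.N0_add_s.2 hx)
  obtain ⟨t, ht, htw⟩ : ∃ t : U, t ∉ HF.comap U.subtype ∧ ∀ w ∈ HW.comap U.subtype,
      T.q t w = T.zero := etf T hTE rfl _ _ hPt hne
  have htf : f (Additive.ofMul (t : S.G)) = 1 := f1 _ (fun e => ht ((hmF t).2 e))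
  have Y : Two (ETC.toData S) s c f (Additive.ofMul (t : S.G)) := by
    refine ⟨X, fun u hu hw => X.N_of_Wp hcomm hu hw, htf, ?_⟩
    intro w hw
    have h5 : (⟨Additive.toMul w, (hU _).2 (hg w hw)⟩ : U) ∈ HW.comap U.subtype :=
      (hmW _).2 hw
    exact (hz t ⟨Additive.toMul w, (hU _).2 (hg w hw)⟩).1 (htw _ h5)
  by_cases h0 : ∀ w ∈ X.W0, w = 0
  · left
    have ht1 : (t : S.G) ≠ 1 := by
      intro e
      rw [e] at htf
      have : f (Additive.ofMul (1 : S.G)) = 0 := map_zero f
      rw [this] at htf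
      exact zero_ne_one htf
    apply ext_of_rigid S hneg ht1
    intro x hx
    exact Y.rigid h0 (Additive.ofMul x) hx
  · right
    push Not at h0
    obtain ⟨h1, h2, h3⟩ := Y.decomp (fun x hx => hnd (Additive.toMul x)
      (fun b => hx (Additive.ofMul b)))
    refine decomp_of_sub S hneg h1 h2 h3 ⟨s, Y.s_mem, ?_⟩ h0
    intro e
    have h5 : (0 : Additive S.G) ∈ X.W0 := zero_mem _
    exact X.s_notMem_W0 (e.symm ▸ h5 : s ∈ X.W0)

/-- **rank one elements**: a structure with a rank one element is a group extension, a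
product, local, or there is a proper retract `U` such that `S` is a group extension or a
product if the structure on `U` is of elementary type. -/
theorem rk1s (S : QStruct) [Finite S.G] (hneg : S.neg = 1)
    {x : S.G} {c : S.Q} (hc : c ≠ S.zero) (hx : ∀ y, S.q x y = S.zero ∨ S.q x y = c)
    (hy : ∃ y, S.q x y = c) :
    (∃ T : QStruct, Iso S (ext T)) ∨ Decomp S ∨
      ((∀ a, (∀ b, S.q a b = S.zero) → a = 1) ∧ Nat.card S.Q = 2) ∨
      ∃ (U : Subgroup S.G) (h4 : Lsub S U), Retr S U ∧ U ≠ ⊤ ∧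
        (ElemType (ESL.PRODRECX.sub S hneg U h4) →
          (∃ T : QStruct, Iso S (ext T)) ∨ Decomp S) := by
  obtain ⟨y, hy⟩ := hy
  have hx1 : x ≠ 1 := by
    rintro rfl
    apply hc
    rw [← hy, S.qs2, S.q_one]
  by_cases hnd : ∀ a, (∀ b, S.q a b = S.zero) → a = 1
  swap
  · push Not at hnd
    obtain ⟨r, hr0, hr⟩ := hnd
    right; left
    refine decomp_of_degenerate S hneg hr hr0 hx1 ?_
    rintro rfl
    exact hc (hy.symm.trans (hr0 y))
  have he : (ETC.toData S).e = 0 := by
    show Additive.ofMul S.neg = 0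
    rw [hneg]; rfl
  have hX : XC (ETC.toData S) c (Additive.ofMul x) := fun v => hx (Additive.toMul v)
  by_cases hcomm : ∀ t t', XC (ETC.toData S) c t → XC (ETC.toData S) c t' →
      C (ETC.toData S) t t'
  · obtain ⟨f, X⟩ := XC.one (S := ETC.toData S) he hc hX (v := Additive.ofMul y) hy
    exact Or.inr (Or.inr (Or.inr (case2s S hneg hnd X hcomm)))
  · push Not at hcomm
    obtain ⟨t, t', ht, ht', hq⟩ := hcomm
    rcases case1 S hneg hnd hc ht ht' hq with h | h
    · exact Or.inr (Or.inl h)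
    · exact Or.inr (Or.inr (Or.inl ⟨hnd, h⟩))

/-! ### Main theorems -/

/-- if `S` has a regular element and all proper retracts are of elementary type then `S`
is of elementary type -/
theorem elem_of_regular' (hS : Stmt_SRGX) (S : QStruct) [Finite S.G] (hneg : S.neg = 1)
    (hr : HasReg S ⊤)
    (hU : ∀ (U : Subgroup S.G) (h4 : Lsub S U), Retr S U → U ≠ ⊤ →
      ElemType (ESL.PRODRECX.sub S hneg U h4)) : ElemType S := by
  obtain ⟨x, -, hx⟩ := hr
  have hx' : ∀ w v, S.q x w = S.zero → ∃ z, S.q x z = S.q w v := by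
    intro w v hw
    obtain ⟨z, -, hz⟩ := hx w (Subgroup.mem_top w) hw v (Subgroup.mem_top v)
    exact ⟨z, hz⟩
  rcases struct_thm hS S hneg x hx' with h | h | h | ⟨p, c, hc, hc1, hc2⟩
  · apply ElemType.L0
    have hs : Subsingleton S.G := ⟨fun a b => by rw [h a, h b]⟩
    exact Nat.card_unique
  · exact elem_of_ed' S hneg hU (Or.inl h)
  · exact elem_of_ed' S hneg hU (Or.inr h)
  · rcases rk1s S hneg hc hc1 hc2 with h | h | ⟨hnd, h2⟩ | ⟨U, h4, hRU, hUt, h5⟩
    · exact elem_of_ed' S hneg hU (Or.inl h)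
    · exact elem_of_ed' S hneg hU (Or.inr h)
    · by_cases h8 : 8 ≤ Nat.card S.G
      · exact ElemType.loc S inferInstance h8 hnd h2
      · have hp1 : p ≠ 1 := by
          rintro rfl
          obtain ⟨y, hy⟩ := hc2
          apply hc
          rw [← hy, S.qs2, S.q_one]
        exact elem_of_ed' S hneg hU (card_four S hneg h8 hp1)
    · exact elem_of_ed' S hneg hU (h5 (hU U h4 hRU hUt))

/-- every retract has a regular element -/
def HRegR (S : QStruct) : Prop := ∀ U : Subgroup S.G, Retr S U → HasReg S U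

theorem HRegR.sub {S : QStruct} (hneg : S.neg = 1) (h : HRegR S) {U : Subgroup S.G}
    (h4 : Lsub S U) (hU : Retr S U) : HRegR (ESL.PRODRECX.sub S hneg U h4) := by
  intro U' hU'
  obtain ⟨_, ⟨x, hx, rfl⟩, h1⟩ := h _ (hU.trans hneg h4 hU')
  have e := emb_sub S hneg U h4
  refine ⟨x, hx, fun w hw hxw v hv => ?_⟩
  obtain ⟨_, ⟨z, hz, rfl⟩, h2⟩ := h1 _ ⟨w, hw, rfl⟩ ((e.zero _ _).1 hxw) _ ⟨v, hv, rfl⟩
  exact ⟨z, hz, (e.q _ _ _ _).2 h2⟩

/-- **hereditarily regular structures are of elementary type** -/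
theorem elem_of_hregR (hS : Stmt_SRGX) : ∀ (n : ℕ) (S : QStruct), Finite S.G → Nat.card S.G = n →
    S.neg = 1 → HRegR S → ElemType S := by
  intro n
  induction n using Nat.strong_induction_on with
  | _ n ih =>
    intro S hf hn hneg hR
    refine elem_of_regular' hS S hneg (hR ⊤ (retr_top S)) ?_
    intro U h4 hRU hU
    have hc : Nat.card U < Nat.card S.G := by
      refine lt_of_le_of_ne (Subgroup.card_le_card_group U) fun e => hU ?_
      exact Subgroup.eq_top_of_card_eq U e
    have hfU : Finite (ESL.PRODRECX.sub S hneg U h4).G := (inferInstance : Finite U)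
    exact ih (Nat.card U) (by rw [← hn]; exact hc) _ hfU rfl rfl (hR.sub hneg h4 hRU)

end Pool.Agent.REG10
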