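import Pool.Agent.REG10.FN.Basic

/-!
REG10/FN, module SEP: if `x` is regular and the Pfister quotient by `x` is of elementary type,
the quaternions are separated by bilinear forms.
-/

set_option autoImplicit false

namespace Pool.Agent.RFN

open Module CommonSlot Pool.Agent.ETG Pool.Agent.GTW
open Pool.Agent.Helper58.PLine (QData)

namespace SEP_

section
variable {V : Type} [AddCommGroup V] [Module (ZMod 2) V] {Z : V → V → Prop}

/-- if `φ` kills `V_x`, the value of `φ` on `q (v, w) = q (x, a)` is well defined -/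
theorem val_eq (hZ : LZ Z) {x : V} {φ : V →ₗ[ZMod 2] ZMod 2} (hφ : ∀ u, Z x u → φ u = 0)
    {v w a a' : V} (h : EqQ Z v w x a) (h' : EqQ Z v w x a') : φ a = φ a' := by
  have h1 : EqQ Z x a x a' := hZ.trans _ _ _ _ _ _ (QEX_.e_symm h) h'
  rw [QEX_.e_same_iff hZ] at h1
  have h2 := hφ _ h1
  rw [map_add] at h2
  exact CharTwo.add_eq_zero.1 h2

open Classical in
/-- the partial function on the pairs with `q (v, w)` a value of `q (x, -)` -/
noncomputable def g (Z : V → V → Prop) (x : V) (φ : V →ₗ[ZMod 2] ZMod 2) (v w : V) : ZMod 2 :=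
  if h : ∃ a, EqQ Z v w x a then φ h.choose else 0

theorem g_eq (hZ : LZ Z) {x : V} {φ : V →ₗ[ZMod 2] ZMod 2} (hφ : ∀ u, Z x u → φ u = 0)
    {v w a : V} (h : EqQ Z v w x a) : g Z x φ v w = φ a := by
  have he : ∃ a, EqQ Z v w x a := ⟨a, h⟩
  unfold g
  rw [dif_pos he]
  exact val_eq hZ hφ he.choose_spec h

theorem g_pb (hZ : LZ Z) {x : V} {φ : V →ₗ[ZMod 2] ZMod 2} (hφ : ∀ u, Z x u → φ u = 0) :
    PB (InQ Z x) (g Z x φ) where
  symm := by
    rintro v w ⟨a, ha⟩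
    rw [g_eq hZ hφ ha, g_eq hZ hφ (hZ.trans _ _ _ _ _ _ (QEX_.e_swap hZ w v) ha)]
  add := by
    rintro v w w' ⟨a, ha⟩ ⟨a', ha'⟩
    rw [g_eq hZ hφ ha, g_eq hZ hφ ha', g_eq hZ hφ (eq_add_common hZ ha ha'), map_add]
  alt := by
    intro v
    rw [g_eq hZ hφ (eqq_of_Z hZ x (hZ.alt v)), map_zero]

/-- double annihilator -/
theorem mem_of_dual (hZ : LZ Z) (x y : V)
    (h : ∀ φ : V →ₗ[ZMod 2] ZMod 2, (∀ u, Z x u → φ u = 0) → φ y = 0) : Z x y := by
  by_contra hc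
  let U : Submodule (ZMod 2) V := (dat hZ).ann x
  have hU : ∀ u, u ∈ U ↔ Z x u := by
    intro u
    rw [← dat_zero hZ]
    exact Iff.rfl
  have hy : y ∉ U := by rw [hU]; exact hc
  obtain ⟨f, hf, hp⟩ := CommonSlot.exists_functional hy
  exact hf (h f fun u hu => hp u ((hU u).2 hu))

end

end SEP_

open SEP_ in
theorem sep_proof (hPFQ : Stmt_PFQ) (hEXB : Stmt_EXB) (hSLZ : Stmt_SLZ) : Stmt_SEP := by
  intro V _ _ _ Z hZ x hx hT a b c d hk
  obtain ⟨hT1, hT2⟩ := hPFQ V Z hZ x hx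
  obtain ⟨S, hS⟩ := qex_proof V (InQ Z x) hT1
  have hX : EXT (InQ Z x) := hEXB S (hT S hS) hS.1 V (InQ Z x) hS
  have hsep : Sep (InQ Z x) := (hSLZ V (InQ Z x) hT1 hT).1
  -- the forms of the quotient are forms of `Z`
  have h1 : EqQ (InQ Z x) a b c d := by
    apply hsep
    intro k hk'
    exact hk k fun u v huv => hk' u v (inq_of_Z hZ x huv)
  obtain ⟨s, ⟨g1, e1⟩, ⟨g2, e2⟩, ⟨g3, e3⟩⟩ := h1
  -- the sum of the three values is zero
  have h2 : Z x (g1 + g2 + g3) := by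
    apply mem_of_dual hZ
    intro φ hφ
    obtain ⟨κ, hκ⟩ := hX (g Z x φ) (g_pb hZ hφ)
    have hκR : κ ∈ RZ Z := by
      intro u v huv
      rw [hκ u v (inq_of_Z hZ x huv), g_eq hZ hφ (eqq_of_Z hZ x huv), map_zero]
    have f1 : κ a (b + s) = φ g1 := by rw [hκ _ _ ⟨g1, e1⟩, g_eq hZ hφ e1]
    have f2 : κ c (d + s) = φ g2 := by rw [hκ _ _ ⟨g2, e2⟩, g_eq hZ hφ e2]
    have f3 : κ (a + c) s = φ g3 := by rw [hκ _ _ ⟨g3, e3⟩, g_eq hZ hφ e3]
    have f4 := hk κ hκR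
    rw [map_add, map_add, ← f1, ← f2, ← f3, map_add, map_add, map_add, LinearMap.add_apply, f4]
    have hd : ∀ p q r : ZMod 2, p + q + (p + r) + (q + r) = 0 := by decide
    exact hd _ _ _
  -- strong linkage
  have e1' := (dat_eq hZ _ _ _ _).2 e1
  have e2' := (dat_eq hZ _ _ _ _).2 e2
  have e3' : ∃ r, (dat hZ).q (a + c) r = (dat hZ).q x (g1 + g2) := by
    refine ⟨s, ?_⟩
    rw [dat_eq]
    refine hZ.trans _ _ _ _ _ _ e3 ?_
    rw [QEX_.e_same_iff hZ, add_comm]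
    exact h2
  obtain ⟨r, r1, r2⟩ := ETC.strong_link e1' e2' e3'
  rw [dat_eq, QEX_.e_same_iff hZ] at r1 r2
  -- `q (a + c, r) = q (a + c, s)`
  have r3 : Z (a + c) (s + r) := by
    have i1 : (dat hZ).q a r = (dat hZ).q x g1 := by
      rw [← e1', dat_eq, QEX_.e_same_iff hZ]; exact r1
    have i2 : (dat hZ).q c r = (dat hZ).q x g2 := by
      rw [← e2', dat_eq, QEX_.e_same_iff hZ]; exact r2
    have i3 : EqQ Z r a x g1 := by
      rw [dat_eq] at i1
      exact hZ.trans _ _ _ _ _ _ (QEX_.e_swap hZ r a) i1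
    have i4 : EqQ Z r c x g2 := by
      rw [dat_eq] at i2
      exact hZ.trans _ _ _ _ _ _ (QEX_.e_swap hZ r c) i2
    have i5 : EqQ Z r (a + c) x (g1 + g2) := eq_add_common hZ i3 i4
    have i6 : EqQ Z (a + c) r x (g1 + g2) :=
      hZ.trans _ _ _ _ _ _ (QEX_.e_swap hZ (a + c) r) i5
    have i7 : EqQ Z x (g1 + g2) x g3 := by
      rw [QEX_.e_same_iff hZ]; exact h2
    have i8 : EqQ Z (a + c) r (a + c) s :=
      hZ.trans _ _ _ _ _ _ (hZ.trans _ _ _ _ _ _ i6 i7) (QEX_.e_symm e3)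
    rw [QEX_.e_same_iff hZ] at i8
    rwa [add_comm r s] at i8
  refine ⟨s + r, ?_, ?_, r3⟩
  · rw [show r + (b + s) = b + (s + r) by abel] at r1; exact r1
  · rw [show r + (d + s) = d + (s + r) by abel] at r2; exact r2

end Pool.Agent.RFN
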