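import Pool.Agent.REG10.FN.Defs
import Pool.Agent.Lib_MP_d26ff6_al.Main

/-!
REG10/FN, module SLT: a common slot.
-/

set_option autoImplicit false

namespace Pool.Agent.RFN

open Module CommonSlot Pool.Agent.ETG Pool.Agent.GTW

theorem slt_proof (hQLZ : Stmt_QLZ) (hLKZ : Stmt_LKZ) : Stmt_SLT := by
  intro V B _ _ _ _ _ q hq b hb S hS
  obtain ⟨hneg, φ, hφ⟩ := hS
  have : Finite (Multiplicative V) := inferInstanceAs (Finite V)
  have : Finite S.G := Finite.of_equiv _ φ.toEquiv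
  have key := (hQLZ V _ S φ hneg hφ).2
  have hE := (hLKZ V B q hq).2.1
  refine (QS.main S).2 ⟨φ (Multiplicative.ofAdd b), ?_⟩
  intro β
  obtain ⟨x, y, hxy⟩ := S.surj β
  obtain ⟨v, rfl⟩ := φ.surjective x
  obtain ⟨w, rfl⟩ := φ.surjective y
  obtain ⟨z, hz⟩ := hb (Multiplicative.toAdd v) (Multiplicative.toAdd w)
  refine ⟨φ (Multiplicative.ofAdd z), ?_⟩
  rw [← hxy]
  exact (key b z _ _).1 ((hE b z _ _).2 hz)

end Pool.Agent.RFN
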